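import Mathlib

/-!
# Extensions of derivations
-/

set_option autoImplicit false

namespace Pool.Agent.Helper397.HK

open TensorProduct KaehlerDifferential

/-- Derivations extend to extension fields in characteristic zero. -/
theorem exists_ext_der {k F L : Type*} [Field k] [Field F] [Field L] [CharZero F] [Algebra k F]
    [Algebra F L] [Algebra k L] [IsScalarTower k F L] (D : Derivation k F L) :
    ∃ D' : Derivation k L L, ∀ x, D' (algebraMap F L x) = D x := by
  have hsm : Algebra.FormallySmooth F L := by
    obtain ⟨s, hs⟩ := exists_isTranscendenceBasis F L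
    have h1 : Algebra.IsAlgebraic (IntermediateField.adjoin F (Set.range ((↑) : s → L))) L :=
      hs.isAlgebraic_field
    exact Algebra.FormallySmooth.of_algebraicIndependent_of_isSeparable hs.1
  have hinj : Function.Injective (KaehlerDifferential.mapBaseChange k F L) := by
    rw [injective_iff_map_eq_zero]
    intro a ha
    obtain ⟨b, hb⟩ := (Algebra.H1Cotangent.exact_δ_mapBaseChange k F L a).1 ha
    rw [← hb, Subsingleton.elim b 0, map_zero]
  obtain ⟨r, hr⟩ := LinearMap.exists_leftInverse_of_injective
    (KaehlerDifferential.mapBaseChange k F L) (LinearMap.ker_eq_bot.2 hinj)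
  let g : L ⊗[F] Ω[F⁄k] →ₗ[L] L := D.liftKaehlerDifferential.liftBaseChange L
  refine ⟨(g.comp r).compDer (KaehlerDifferential.D k L), fun x => ?_⟩
  have h1 : KaehlerDifferential.D k L (algebraMap F L x) =
      KaehlerDifferential.mapBaseChange k F L (1 ⊗ₜ KaehlerDifferential.D k F x) := by
    rw [KaehlerDifferential.mapBaseChange_tmul, one_smul, KaehlerDifferential.map_D]
  have h2 : r (KaehlerDifferential.mapBaseChange k F L (1 ⊗ₜ KaehlerDifferential.D k F x)) =
      1 ⊗ₜ KaehlerDifferential.D k F x := LinearMap.congr_fun hr _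
  change g (r (KaehlerDifferential.D k L (algebraMap F L x))) = D x
  rw [h1, h2]
  simp [g, Derivation.liftKaehlerDifferential_comp_D]

section powerseries

open PowerSeries

variable {κ : Type*} [Field κ] [Algebra ℂ κ]

/-- The coefficientwise extension of a derivation to the power series. -/
noncomputable def derCoeff (D : Derivation ℂ κ κ) : Derivation ℂ κ⟦X⟧ κ⟦X⟧ :=
  Derivation.mk'
    { toFun := fun f => PowerSeries.mk fun n => D (coeff n f)
      map_add' := by
        intro f g
        ext n
        simp
      map_smul' := by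
        intro c f
        ext n
        simp }
    (by
      intro f g
      ext n
      simp only [LinearMap.coe_mk, AddHom.coe_mk, coeff_mk, smul_eq_mul, map_add, coeff_mul,
        map_sum, Derivation.leibniz, Finset.sum_add_distrib]
      congr 1
      rw [← Finset.Nat.sum_antidiagonal_swap]
      rfl)

lemma coeff_derCoeff (D : Derivation ℂ κ κ) (f : κ⟦X⟧) (n : ℕ) :
    coeff n (derCoeff D f) = D (coeff n f) := by
  simp [derCoeff]

lemma derCoeff_X (D : Derivation ℂ κ κ) : derCoeff D (X : κ⟦X⟧) = 0 := by
  ext n
  rw [coeff_derCoeff, coeff_X]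
  split_ifs <;> simp

lemma derCoeff_X_pow_mul (D : Derivation ℂ κ κ) (k : ℕ) (f : κ⟦X⟧) :
    derCoeff D ((X : κ⟦X⟧) ^ k * f) = X ^ k * derCoeff D f := by
  have h : derCoeff D ((X : κ⟦X⟧) ^ k) = 0 := by
    rw [Derivation.leibniz_pow, derCoeff_X, smul_zero, smul_zero]
  rw [Derivation.leibniz, h, smul_zero, add_zero, smul_eq_mul]

lemma constantCoeff_derCoeff (D : Derivation ℂ κ κ) (f : κ⟦X⟧) :
    constantCoeff (derCoeff D f) = D (constantCoeff f) := by
  rw [← coeff_zero_eq_constantCoeff_apply, coeff_derCoeff, coeff_zero_eq_constantCoeff_apply]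

end powerseries

end Pool.Agent.Helper397.HK
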