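import Pool.Agent.Helper397.HK.Transfer2
import Pool.Agent.Helper397.HK.DerExt

/-!
# Formal arcs on smooth varieties with given 1-jets
-/

set_option autoImplicit false

open MvPolynomial

namespace Pool.Agent.Helper397.HK

variable {N N' : ℕ}

/-- A ring which is complete for the `I`-adic topology is complete for the `I ^ 2`-adic one. -/
theorem isAdicComplete_sq {R : Type*} [CommRing R] (I : Ideal R) [hI : IsAdicComplete I R] :
    IsAdicComplete (I ^ 2) R := by
  have hle : ∀ n : ℕ, (I ^ 2) ^ n ≤ I ^ n := by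
    intro n
    rw [← pow_mul]
    exact Ideal.pow_le_pow_right (by omega)
  have h1 : IsHausdorff (I ^ 2) R := by
    refine ⟨fun x hx => ?_⟩
    refine hI.toIsHausdorff.haus' x fun n => ?_
    have := hx n
    rw [SModEq.zero] at this ⊢
    rw [smul_eq_mul, Ideal.mul_top] at this ⊢
    exact hle n this
  have h2 : IsPrecomplete (I ^ 2) R := by
    refine ⟨fun f hf => ?_⟩
    obtain ⟨L, hL⟩ := hI.toIsPrecomplete.prec' f (by
      intro m n hmn
      have := hf hmn
      rw [SModEq.sub_mem, smul_eq_mul, Ideal.mul_top] at this ⊢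
      exact hle m this)
    refine ⟨L, fun n => ?_⟩
    have h3 := hf (show n ≤ 2 * n by omega)
    have h4 := hL (2 * n)
    rw [SModEq.sub_mem, smul_eq_mul, Ideal.mul_top] at h3 h4 ⊢
    rw [← pow_mul] at h3 ⊢
    have := Ideal.add_mem _ h3 h4
    simpa using this
  exact { toIsHausdorff := h1, toIsPrecomplete := h2 }

section arc

variable {κ : Type*} [Field κ] [Algebra ℂ κ]

/-- The Taylor expansion of the first order. -/
lemma taylor_one (F : MvPolynomial (Fin (N + 1)) ℂ) (w ν : Fin (N + 1) → κ) :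
    ∃ r : PowerSeries κ, aeval (fun i => PowerSeries.C (w i) + PowerSeries.X * PowerSeries.C (ν i)) F =
      PowerSeries.C (aeval w F) + PowerSeries.X * PowerSeries.C (dif F w ν) +
        PowerSeries.X ^ 2 * r := by
  induction F using MvPolynomial.induction_on with
  | C a =>
    refine ⟨0, ?_⟩
    rw [dif_C]
    simp only [algHom_C, map_zero, mul_zero, add_zero]
    rw [PowerSeries.algebraMap_apply]
  | add p q hp hq =>
    obtain ⟨r, hr⟩ := hp
    obtain ⟨s, hs⟩ := hq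
    refine ⟨r + s, ?_⟩
    rw [map_add, hr, hs, dif_add]
    simp only [map_add]
    ring
  | mul_X p j hp =>
    obtain ⟨r, hr⟩ := hp
    refine ⟨PowerSeries.C (dif p w ν) * PowerSeries.C (ν j) +
      r * (PowerSeries.C (w j) + PowerSeries.X * PowerSeries.C (ν j)), ?_⟩
    rw [map_mul, hr, dif_mul, dif_X, aeval_X]
    simp only [map_add, map_mul, aeval_X]
    ring

/-- **Arcs.** A tangent vector at a point of a smooth variety is the velocity of a formal arc. -/
theorem exists_arc (Y : ProjVar N) (hY : Y.IsSmooth) {w : Fin (N + 1) → κ} (hw : w ∈ Y.Pts κ)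
    {ν : Fin (N + 1) → κ} (hν : ν ∈ Y.Tan w) :
    ∃ γ : Fin (N + 1) → PowerSeries κ, Y.OnCone γ ∧
      (∀ i, PowerSeries.constantCoeff (γ i) = w i) ∧ ∀ i, PowerSeries.coeff 1 (γ i) = ν i := by
  obtain ⟨i₀, hi₀⟩ := Function.ne_iff.1 hw.1
  rw [Pi.zero_apply] at hi₀
  have hsm := hY i₀
  have hprime := Y.prime
  let I : Ideal (PowerSeries κ) := Ideal.span {PowerSeries.X}
  have hcomp : IsAdicComplete (I ^ 2) (PowerSeries κ) := isAdicComplete_sq I
  have hI2 : I ^ 2 = Ideal.span {PowerSeries.X ^ 2} := Ideal.span_singleton_pow _ _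
  let γ₀ : Fin (N + 1) → PowerSeries κ :=
    fun i => PowerSeries.C (w i) + PowerSeries.X * PowerSeries.C (ν i)
  let φ : MvPolynomial (Fin (N + 1)) ℂ →ₐ[ℂ] PowerSeries κ ⧸ I ^ 2 :=
    (Ideal.Quotient.mkₐ ℂ (I ^ 2)).comp (aeval γ₀)
  have hφ : ∀ F ∈ Y.I, φ F = 0 := by
    intro F hF
    obtain ⟨r, hr⟩ := taylor_one F w ν
    have h1 : φ F = Ideal.Quotient.mk (I ^ 2) (aeval γ₀ F) := rfl
    rw [h1, Ideal.Quotient.eq_zero_iff_mem, hr, hw.2 F hF, hν F hF, hI2,
      Ideal.mem_span_singleton]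
    simp
  let φ' : (MvPolynomial (Fin (N + 1)) ℂ ⧸ Y.I) →ₐ[ℂ] PowerSeries κ ⧸ I ^ 2 :=
    Ideal.Quotient.liftₐ Y.I φ hφ
  have hφ' : ∀ F, φ' (Ideal.Quotient.mk Y.I F) = Ideal.Quotient.mk (I ^ 2) (aeval γ₀ F) := fun F => rfl
  have hunit : IsUnit (φ' (Ideal.Quotient.mk Y.I (X i₀))) := by
    rw [hφ', aeval_X]
    have h2 : IsUnit (γ₀ i₀) := by
      rw [PowerSeries.isUnit_iff_constantCoeff]
      simp only [γ₀, map_add, PowerSeries.constantCoeff_C, map_mul, PowerSeries.constantCoeff_X,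
        zero_mul, add_zero]
      exact isUnit_iff_ne_zero.2 hi₀
    exact h2.map _
  have hunit' : ∀ y : Submonoid.powers (Ideal.Quotient.mk Y.I (X i₀)), IsUnit (φ' y) := by
    rintro ⟨_, n, rfl⟩
    simp only [map_pow]
    exact hunit.pow n
  let Φ : Localization.Away (Ideal.Quotient.mk Y.I (X i₀)) →ₐ[ℂ] PowerSeries κ ⧸ I ^ 2 :=
    IsLocalization.liftAlgHom (M := Submonoid.powers (Ideal.Quotient.mk Y.I (X i₀))) hunit'
  obtain ⟨g, hg⟩ := Algebra.FormallySmooth.exists_mkₐ_comp_eq_of_isAdicComplete Φ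
  let γ : Fin (N + 1) → PowerSeries κ := fun i =>
    g (algebraMap (MvPolynomial (Fin (N + 1)) ℂ ⧸ Y.I) _ (Ideal.Quotient.mk Y.I (X i)))
  have h3 : ∀ F, aeval γ F = g (algebraMap (MvPolynomial (Fin (N + 1)) ℂ ⧸ Y.I) _ (Ideal.Quotient.mk Y.I F)) := by
    intro F
    have h := MvPolynomial.comp_aeval_apply (fun i => (X i : MvPolynomial (Fin (N + 1)) ℂ))
      (g.comp ((IsScalarTower.toAlgHom ℂ (MvPolynomial (Fin (N + 1)) ℂ ⧸ Y.I)
        (Localization.Away (Ideal.Quotient.mk Y.I (X i₀)))).comp (Ideal.Quotient.mkₐ ℂ Y.I))) F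
    rw [aeval_X_left_apply] at h
    exact h.symm
  have h4 : ∀ i, ∃ r, γ i = γ₀ i + PowerSeries.X ^ 2 * r := by
    intro i
    have h5 := DFunLike.congr_fun hg (algebraMap (MvPolynomial (Fin (N + 1)) ℂ ⧸ Y.I) _ (Ideal.Quotient.mk Y.I (X i)))
    have h6 : Φ (algebraMap (MvPolynomial (Fin (N + 1)) ℂ ⧸ Y.I) _ (Ideal.Quotient.mk Y.I (X i))) =
        φ' (Ideal.Quotient.mk Y.I (X i)) := IsLocalization.lift_eq _ _
    rw [h6, hφ', aeval_X] at h5
    have h7 : γ i - γ₀ i ∈ I ^ 2 := Ideal.Quotient.eq.1 h5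
    rw [hI2, Ideal.mem_span_singleton] at h7
    obtain ⟨r, hr⟩ := h7
    exact ⟨r, by rw [← hr]; ring⟩
  refine ⟨γ, ?_, ?_, ?_⟩
  · intro F hF
    rw [h3, Ideal.Quotient.eq_zero_iff_mem.2 hF, map_zero, map_zero]
  · intro i
    obtain ⟨r, hr⟩ := h4 i
    rw [hr]
    simp [γ₀]
  · intro i
    obtain ⟨r, hr⟩ := h4 i
    rw [hr]
    have h8 : PowerSeries.coeff 1 (PowerSeries.X ^ 2 * r) = 0 := by
      rw [PowerSeries.coeff_X_pow_mul']
      simp
    rw [map_add, h8, add_zero]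
    simp only [γ₀, map_add]
    have h9 : PowerSeries.coeff 1 (PowerSeries.X * PowerSeries.C (ν i)) = ν i := by
      rw [PowerSeries.coeff_succ_X_mul]
      simp
    rw [h9]
    simp

end arc

end Pool.Agent.Helper397.HK
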