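import Pool.Agent.Helper397.HK.Defs

/-!
# Projective varieties: elementary properties of points, tangent vectors and rational maps
-/

set_option autoImplicit false

open MvPolynomial

namespace Pool.Agent.Helper397.HK

variable {N N' : ℕ}

section dif

variable {R : Type*} [CommRing R] [Algebra ℂ R]

lemma dif_add (F G : MvPolynomial (Fin (N + 1)) ℂ) (x u : Fin (N + 1) → R) :
    dif (F + G) x u = dif F x u + dif G x u := by
  simp [dif, add_mul, Finset.sum_add_distrib]

lemma dif_zero (x u : Fin (N + 1) → R) : dif (0 : MvPolynomial (Fin (N + 1)) ℂ) x u = 0 := by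
  simp [dif]

lemma dif_sum {ι : Type*} (s : Finset ι) (F : ι → MvPolynomial (Fin (N + 1)) ℂ)
    (x u : Fin (N + 1) → R) : dif (∑ i ∈ s, F i) x u = ∑ i ∈ s, dif (F i) x u := by
  classical
  induction s using Finset.induction_on with
  | empty => simp [dif_zero]
  | insert a s ha ih => rw [Finset.sum_insert ha, dif_add, ih, Finset.sum_insert ha]

lemma dif_mul (F G : MvPolynomial (Fin (N + 1)) ℂ) (x u : Fin (N + 1) → R) :
    dif (F * G) x u = aeval x F * dif G x u + aeval x G * dif F x u := by
  simp only [dif, Derivation.leibniz, smul_eq_mul, map_add, map_mul, Finset.mul_sum,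
    ← Finset.sum_add_distrib]
  refine Finset.sum_congr rfl fun i _ => ?_
  ring

lemma dif_C (a : ℂ) (x u : Fin (N + 1) → R) : dif (C a) x u = 0 := by simp [dif]

lemma dif_X (i : Fin (N + 1)) (x u : Fin (N + 1) → R) :
    dif (X i : MvPolynomial (Fin (N + 1)) ℂ) x u = u i := by
  simp [dif, pderiv_X, Pi.single_apply]

lemma dif_add_right (F : MvPolynomial (Fin (N + 1)) ℂ) (x u v : Fin (N + 1) → R) :
    dif F x (u + v) = dif F x u + dif F x v := by
  simp [dif, mul_add, Finset.sum_add_distrib]

lemma dif_smul_right (F : MvPolynomial (Fin (N + 1)) ℂ) (c : R) (x u : Fin (N + 1) → R) :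
    dif F x (c • u) = c * dif F x u := by
  simp only [dif, Pi.smul_apply, smul_eq_mul, Finset.mul_sum]
  refine Finset.sum_congr rfl fun i _ => ?_
  ring

lemma dif_zero_right (F : MvPolynomial (Fin (N + 1)) ℂ) (x : Fin (N + 1) → R) :
    dif F x 0 = 0 := by simp [dif]

lemma dif_map {R' : Type*} [CommRing R'] [Algebra ℂ R'] (φ : R →ₐ[ℂ] R')
    (F : MvPolynomial (Fin (N + 1)) ℂ) (x u : Fin (N + 1) → R) :
    dif F (fun i => φ (x i)) (fun i => φ (u i)) = φ (dif F x u) := by
  have h : ∀ G : MvPolynomial (Fin (N + 1)) ℂ, aeval (fun i => φ (x i)) G = φ (aeval x G) :=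
    fun G => (MvPolynomial.comp_aeval_apply (fun i => x i) φ G).symm
  simp [dif, map_sum, map_mul, h]

/-- The chain rule for derivations. -/
lemma der_aeval {M : Type*} [AddCommGroup M] [Module R M] [Module ℂ M] [IsScalarTower ℂ R M]
    (δ : Derivation ℂ R M) (F : MvPolynomial (Fin (N + 1)) ℂ) (x : Fin (N + 1) → R) :
    δ (aeval x F) = ∑ i, aeval x (pderiv i F) • δ (x i) := by
  classical
  induction F using MvPolynomial.induction_on with
  | C a => simp
  | add p q hp hq => simp [hp, hq, add_smul, Finset.sum_add_distrib]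
  | mul_X p j hp =>
    rw [map_mul, aeval_X, Derivation.leibniz, hp]
    simp only [Derivation.leibniz, smul_eq_mul, map_add, map_mul, aeval_X, add_smul,
      Finset.sum_add_distrib, pderiv_X, Finset.smul_sum, smul_smul]
    congr 1
    rw [Finset.sum_eq_single j]
    · simp
    · intro b _ hb
      simp [hb.symm]
    · simp

lemma der_aeval' (δ : Derivation ℂ R R) (F : MvPolynomial (Fin (N + 1)) ℂ)
    (x : Fin (N + 1) → R) : δ (aeval x F) = dif F x (fun i => δ (x i)) := by
  rw [der_aeval]; rfl

/-- Euler's identity. -/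
lemma dif_self {F : MvPolynomial (Fin (N + 1)) ℂ} {d : ℕ} (hF : F.IsHomogeneous d)
    (x : Fin (N + 1) → R) : dif F x x = (d : R) * aeval x F := by
  have h := hF.sum_X_mul_pderiv
  have h2 := congrArg (aeval x) h
  simp only [map_sum, map_mul, aeval_X, nsmul_eq_mul, map_natCast] at h2
  rw [← h2, dif]
  exact Finset.sum_congr rfl fun i _ => mul_comm _ _

lemma aeval_smul_of_homog {F : MvPolynomial (Fin (N + 1)) ℂ} {d : ℕ} (hF : F.IsHomogeneous d)
    (c : R) (x : Fin (N + 1) → R) : aeval (c • x) F = c ^ d * aeval x F := by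
  rw [aeval_def, aeval_def, eval₂_eq', eval₂_eq', Finset.mul_sum]
  refine Finset.sum_congr rfl fun m hm => ?_
  have h1 : m.degree = d := by
    by_contra h
    exact mem_support_iff.1 hm (hF.coeff_eq_zero h)
  have h2 : ∏ i, (c • x) i ^ m i = c ^ d * ∏ i, x i ^ m i := by
    simp only [Pi.smul_apply, smul_eq_mul, mul_pow, Finset.prod_mul_distrib,
      Finset.prod_pow_eq_pow_sum]
    rw [← h1, Finsupp.degree_eq_sum]
  rw [h2]
  ring

end dif

section tan

variable {R : Type*} [CommRing R] [Algebra ℂ R] (Y : ProjVar N)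

/-- The tangent space of the cone as a submodule. -/
def ProjVar.tanSub (x : Fin (N + 1) → R) : Submodule R (Fin (N + 1) → R) where
  carrier := Y.Tan x
  add_mem' := by
    intro u v hu hv F hF
    rw [dif_add_right, hu F hF, hv F hF, add_zero]
  zero_mem' := fun F _ => dif_zero_right F x
  smul_mem' := by
    intro c u hu F hF
    rw [dif_smul_right, hu F hF, mul_zero]

lemma ProjVar.mem_tanSub {Y : ProjVar N} {x u : Fin (N + 1) → R} :
    u ∈ Y.tanSub x ↔ u ∈ Y.Tan x := Iff.rfl

variable {Y}

/-- `x` is on the affine cone over `Y`. -/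
def ProjVar.OnCone (Y : ProjVar N) (x : Fin (N + 1) → R) : Prop := ∀ F ∈ Y.I, aeval x F = 0

lemma ProjVar.mem_of_components (Y : ProjVar N) {F : MvPolynomial (Fin (N + 1)) ℂ}
    (h : ∀ d, homogeneousComponent d F ∈ Y.I) : F ∈ Y.I := by
  rw [← sum_homogeneousComponent F]
  exact Y.I.sum_mem fun d _ => h d

/-- The cone is stable under scalar multiplication. -/
lemma ProjVar.OnCone.smul {x : Fin (N + 1) → R} (hx : Y.OnCone x) (c : R) :
    Y.OnCone (c • x) := by
  intro F hF
  rw [← sum_homogeneousComponent F, map_sum]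
  refine Finset.sum_eq_zero fun d _ => ?_
  rw [aeval_smul_of_homog (homogeneousComponent_isHomogeneous d F), hx _ (Y.homog F hF d),
    mul_zero]

/-- The Euler vector is tangent to the cone. -/
lemma ProjVar.OnCone.self_mem_tan {x : Fin (N + 1) → R} (hx : Y.OnCone x) : x ∈ Y.Tan x := by
  intro F hF
  rw [← sum_homogeneousComponent F, dif_sum]
  refine Finset.sum_eq_zero fun d _ => ?_
  rw [dif_self (homogeneousComponent_isHomogeneous d F), hx _ (Y.homog F hF d), mul_zero]

/-- Derivations give tangent vectors. -/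
lemma ProjVar.OnCone.der_mem_tan {x : Fin (N + 1) → R} (hx : Y.OnCone x)
    (δ : Derivation ℂ R R) : (fun i => δ (x i)) ∈ Y.Tan x := by
  intro F hF
  rw [← der_aeval', hx F hF, map_zero]

/-- Images of points of the cone under homomorphisms. -/
lemma ProjVar.OnCone.map {R' : Type*} [CommRing R'] [Algebra ℂ R'] (φ : R →ₐ[ℂ] R')
    {x : Fin (N + 1) → R} (hx : Y.OnCone x) : Y.OnCone (fun i => φ (x i)) := by
  intro F hF
  have h := (MvPolynomial.comp_aeval_apply (fun i => x i) φ F).symm
  rw [h, hx F hF, map_zero]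

lemma ProjVar.tan_map {R' : Type*} [CommRing R'] [Algebra ℂ R'] (φ : R →ₐ[ℂ] R')
    {x u : Fin (N + 1) → R} (hu : u ∈ Y.Tan x) : (fun i => φ (u i)) ∈ Y.Tan (fun i => φ (x i)) := by
  intro F hF
  rw [dif_map, hu F hF, map_zero]

lemma ProjVar.OnCone.of_injective {R' : Type*} [CommRing R'] [Algebra ℂ R'] (φ : R →ₐ[ℂ] R')
    (hφ : Function.Injective φ)
    {x : Fin (N + 1) → R} (hx : Y.OnCone (fun i => φ (x i))) : Y.OnCone x := by
  intro F hF
  have h := (MvPolynomial.comp_aeval_apply (fun i => x i) φ F).symm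
  apply hφ
  rw [← h, hx F hF, map_zero]

lemma ProjVar.tan_of_injective {R' : Type*} [CommRing R'] [Algebra ℂ R'] (φ : R →ₐ[ℂ] R')
    (hφ : Function.Injective φ)
    {x u : Fin (N + 1) → R} (hu : (fun i => φ (u i)) ∈ Y.Tan (fun i => φ (x i))) :
    u ∈ Y.Tan x := by
  intro F hF
  have := hu F hF
  rw [dif_map] at this
  exact hφ (by rw [this, map_zero])

/-- If `c u` is tangent and `c` is not a zero divisor then `u` is tangent. -/
lemma ProjVar.tan_of_smul [IsDomain R] {x u : Fin (N + 1) → R} {c : R} (hc : c ≠ 0)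
    (hu : c • u ∈ Y.Tan x) : u ∈ Y.Tan x := by
  intro F hF
  have := hu F hF
  rw [dif_smul_right] at this
  exact (mul_eq_zero.1 this).resolve_left hc

/-- The tangent space of the cone is constant along the rays. -/
lemma ProjVar.tan_smul {x u : Fin (N + 1) → R} (c : R)
    (hu : u ∈ Y.Tan x) : u ∈ Y.Tan (c • x) := by
  have key : ∀ (d : ℕ) (F : MvPolynomial (Fin (N + 1)) ℂ), F.IsHomogeneous d → F ∈ Y.I →
      dif F (c • x) u = 0 := by
    intro d F hd hF
    rcases Nat.eq_zero_or_pos d with rfl | hpos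
    · have : F = C (coeff 0 F) := by
        rw [← homogeneousComponent_zero]
        exact (homogeneousComponent_eq_self hd).symm
      rw [this, dif_C]
    · have h1 : dif F (c • x) u = c ^ (d - 1) * dif F x u := by
        simp only [dif, Finset.mul_sum]
        refine Finset.sum_congr rfl fun i _ => ?_
        have h2 : (pderiv i F).IsHomogeneous (d - 1) := hd.pderiv
        rw [aeval_smul_of_homog h2]
        ring
      rw [h1, hu F hF, mul_zero]
  intro F hF
  rw [← sum_homogeneousComponent F, dif_sum]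
  exact Finset.sum_eq_zero fun d _ =>
    key d _ (homogeneousComponent_isHomogeneous d F) (Y.homog F hF d)

end tan

end Pool.Agent.Helper397.HK
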