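import Pool.Agent.Helper397.HK.Closed

/-!
# The filtration of Voisin and birational maps
-/

set_option autoImplicit false

open MvPolynomial

namespace Pool.Agent.Helper397.HK

variable {N N' : ℕ}

/-- The pair of the points with homogeneous coordinates `w`, `w'` is in the closure in `Y × Y'` of
the graph of `f`: all polynomials in two sets of variables which vanish at the pairs
`(x, c f(x))` vanish at `(w, w')`. -/
def RatMap.GraphClosure {Y : ProjVar N} {Y' : ProjVar N'} (f : RatMap Y Y') (w : Y.Pts ℂ)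
    (w' : Y'.Pts ℂ) : Prop :=
  ∀ B : MvPolynomial (Fin (N + 1) ⊕ Fin (N' + 1)) ℂ,
    (∀ x ∈ Y.Pts ℂ, ∀ c : ℂ, aeval (Sum.elim x (c • f.app x)) B = 0) →
      aeval (Sum.elim w.1 w'.1) B = 0

/-- The linear map `T` is the action on zero-cycles of the closure of the graph of `f`. -/
def RatMap.Induces {Y : ProjVar N} {Y' : ProjVar N'} (f : RatMap Y Y') (T : CH0 Y →ₗ[ℚ] CH0 Y') :
    Prop := ∀ w w', f.GraphClosure w w' → T (cls w) = cls w'

lemma aeval_homogenize (F : MvPolynomial (Fin (N' + 1)) ℂ) {s : ℂ} (hs : s ≠ 0)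
    (j₀ : Fin (N' + 1)) {R : Type*} [CommRing R] [Algebra ℂ R] (x : Fin (N' + 1) → R)
    (hx : x j₀ = algebraMap ℂ R s) :
    aeval x (∑ d ∈ Finset.range (F.totalDegree + 1),
      homogeneousComponent d F * (C s⁻¹ * X j₀) ^ (F.totalDegree - d)) = aeval x F := by
  conv_rhs => rw [← sum_homogeneousComponent F]
  simp only [map_sum, map_mul, map_pow, aeval_X, algHom_C, hx]
  refine Finset.sum_congr rfl fun d _ => ?_
  rw [← map_mul, inv_mul_cancel₀ hs, map_one, one_pow, mul_one]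

/-- If `F (t w') = 0`, where a coordinate of `t w'` is equal to the coordinate `p j₀ ≠ 0` of a point
`p` of the locus of `w'`, then `F (p) = 0`. -/
lemma aeval_eq_zero_of_locus {κ : Type*} [Field κ] [Algebra ℂ κ] {w' : Fin (N' + 1) → κ}
    (hw' : w' ≠ 0) {p : Fin (N' + 1) → ℂ} (hp : p ∈ (locus w' hw').Pts ℂ) {j₀ : Fin (N' + 1)}
    (hj₀ : p j₀ ≠ 0) {t : κ} (ht : t * w' j₀ = algebraMap ℂ κ (p j₀))
    (F : MvPolynomial (Fin (N' + 1)) ℂ) (hF : aeval (t • w') F = 0) : aeval p F = 0 := by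
  set D := F.totalDegree with hD
  let G : MvPolynomial (Fin (N' + 1)) ℂ := ∑ d ∈ Finset.range (D + 1),
    homogeneousComponent d F * (C (p j₀)⁻¹ * X j₀) ^ (D - d)
  have hG : G.IsHomogeneous D := by
    apply IsHomogeneous.sum
    intro d hd
    have h1 : d + (D - d) = D := by
      have := Finset.mem_range.1 hd
      omega
    have h2 : ((C (p j₀)⁻¹ * X j₀ : MvPolynomial (Fin (N' + 1)) ℂ) ^ (D - d)).IsHomogeneous
        (1 * (D - d)) := (isHomogeneous_C_mul_X _ _).pow _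
    have h3 := (homogeneousComponent_isHomogeneous d F).mul h2
    rwa [one_mul, h1] at h3
  have hne : algebraMap ℂ κ (p j₀) ≠ 0 := by
    rw [Ne, FaithfulSMul.algebraMap_eq_zero_iff]
    exact hj₀
  have h1 : aeval (t • w') G = 0 := (aeval_homogenize F hj₀ j₀ (t • w') ht).trans hF
  rw [aeval_smul_of_homog hG] at h1
  have ht0 : t ≠ 0 := by
    rintro rfl
    rw [zero_mul] at ht
    exact hne ht.symm
  have h2 : aeval w' G = 0 := (mul_eq_zero.1 h1).resolve_left (pow_ne_zero _ ht0)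
  have h3 := hp.2 G ((mem_locus_of_homog hG).2 h2)
  exact (aeval_homogenize F hj₀ j₀ p rfl).symm.trans h3

/-- The projection of the closure of the graph is closed. -/
theorem exists_closed_preimage {κ : Type*} [Field κ] [Algebra ℂ κ] {W : ProjVar N}
    {w : Fin (N + 1) → κ} (hw : w ∈ W.Pts κ) {w' : Fin (N' + 1) → κ} (hw' : w' ≠ 0)
    {p : Fin (N' + 1) → ℂ} (hp : p ∈ (locus w' hw').Pts ℂ)
    (𝓑 : Set (MvPolynomial (Fin (N + 1) ⊕ Fin (N' + 1)) ℂ))
    (h𝓑 : ∀ B ∈ 𝓑, ∀ a b : κ, a ≠ 0 → aeval (Sum.elim (a • w) (b • w')) B = 0) :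
    ∃ w₀ ∈ W.Pts ℂ, ∀ B ∈ 𝓑, aeval (Sum.elim w₀ p) B = 0 := by
  obtain ⟨j₀, hj₀⟩ := Function.ne_iff.1 hp.1
  rw [Pi.zero_apply] at hj₀
  have hw'j : w' j₀ ≠ 0 := by
    intro h
    have h1 : (X j₀ : MvPolynomial (Fin (N' + 1)) ℂ) ∈ (locus w' hw').I :=
      (mem_locus_of_homog (isHomogeneous_X ℂ j₀)).2 (by rw [aeval_X, h])
    have h2 := hp.2 _ h1
    rw [aeval_X] at h2
    exact hj₀ h2
  set s : κ := algebraMap ℂ κ (p j₀) / w' j₀ with hs
  have hs1 : s * w' j₀ = algebraMap ℂ κ (p j₀) := div_mul_cancel₀ _ hw'j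
  obtain ⟨R, θ, t, x, ζ, ht, hx, hζ, hθ, hθx⟩ := exists_place (s • w') p
    (aeval_eq_zero_of_locus hw' hp hj₀ hs1) w hw.1
  refine ⟨fun i => θ (x i), ⟨fun h => ?_, ?_⟩, ?_⟩
  · obtain ⟨i, hi⟩ := hθx
    exact hi (congrFun h i)
  · have h1 : W.OnCone (fun i => (x i : κ)) := by
      have : (fun i => (x i : κ)) = t • w := funext hx
      rw [this]
      exact ProjVar.OnCone.smul hw.2 t
    exact (ProjVar.OnCone.of_injective R.val Subtype.val_injective h1).map θ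
  · intro B hB
    have h1 := h𝓑 B hB t s ht
    have h2 : (Sum.elim (t • w) (s • w') : Fin (N + 1) ⊕ Fin (N' + 1) → κ) =
        fun i => R.val (Sum.elim x ζ i) := by
      funext i
      rcases i with i | i
      · exact (hx i).symm
      · exact (hζ i).symm
    have h3 := MvPolynomial.comp_aeval_apply (Sum.elim x ζ) R.val B
    rw [h2, ← h3] at h1
    have h4 : aeval (Sum.elim x ζ) B = 0 := Subtype.ext h1
    have h5 := MvPolynomial.comp_aeval_apply (Sum.elim x ζ) θ B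
    rw [h4, map_zero] at h5
    rw [h5]
    congr 2
    funext i
    rcases i with i | i
    · rfl
    · exact (hθ i).symm

/-- **Orbits and rational maps.** If `f` is compatible with the forms, and `T` is the
action of `f` on zero-cycles, then the orbits of the images have at least the same dimension. -/
theorem orbit_map {Y : ProjVar N} {Y' : ProjVar N'} (hY : Y.IsSmooth) {f : RatMap Y Y'}
    {σ : TwoForm Y} (hσ : σ.Nondegenerate) {σ' : TwoForm Y'} {c : ℂ} (hc : c ≠ 0)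
    {H : MvPolynomial (Fin (N + 1)) ℂ} {dH : ℕ} (hHd : H.IsHomogeneous dH) (hH : H ∉ Y.I)
    (hf : f.PullsBackOn H σ' c σ) {T : CH0 Y →ₗ[ℚ] CH0 Y'} (hT : f.Induces T) {d : ℕ}
    (x : Y.Pts ℂ) (hx : OrbitGE x d) : ∃ p : Y'.Pts ℂ, OrbitGE p d ∧ T (cls x) = cls p := by
  obtain ⟨W, hW, hWd, hWx⟩ := hx
  obtain ⟨κ, _, _, w, w', hw, hw', ⟨hw'0, hdim⟩, hB⟩ :=
    exists_limit hY hσ hc hHd hH hf hW hWd
  have hle : Y'.I ≤ (locus w' hw'0).I := le_locus hw'
  have key : ∀ p : Y'.Pts ℂ, p.1 ∈ (locus w' hw'0).Pts ℂ → T (cls x) = cls p := by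
    intro p hp
    obtain ⟨w₀, hw₀, hw₀B⟩ := exists_closed_preimage hw hw'0 hp
      {B | ∀ x ∈ Y.Pts ℂ, ∀ c : ℂ, aeval (Sum.elim x (c • f.app x)) B = 0}
      (fun B hB' a b ha => hB B hB' a b ha)
    have hw₀Y : w₀ ∈ Y.Pts ℂ := ⟨hw₀.1, fun F hF => hw₀.2 F (hW hF)⟩
    have h1 : f.GraphClosure ⟨w₀, hw₀Y⟩ p := fun B hB' => hw₀B B hB'
    rw [← hWx ⟨w₀, hw₀Y⟩ hw₀]
    exact hT _ _ h1
  obtain ⟨p, hp⟩ := (locus w' hw'0).exists_pt w' (mem_pts_locus w' hw'0)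
  have hpY : p ∈ Y'.Pts ℂ := ⟨hp.1, fun F hF => hp.2 F (hle hF)⟩
  refine ⟨⟨p, hpY⟩, ⟨locus w' hw'0, hle, hdim, fun q hq => ?_⟩, key _ hp⟩
  rw [← key q hq, key ⟨p, hpY⟩ hp]

/-- One inclusion. -/
theorem SBV_map_le {Y : ProjVar N} {Y' : ProjVar N'} (hY : Y.IsSmooth) {f : RatMap Y Y'}
    {σ : TwoForm Y} (hσ : σ.Nondegenerate) {σ' : TwoForm Y'} {c : ℂ} (hc : c ≠ 0)
    {H : MvPolynomial (Fin (N + 1)) ℂ} {dH : ℕ} (hHd : H.IsHomogeneous dH) (hH : H ∉ Y.I)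
    (hf : f.PullsBackOn H σ' c σ) {T : CH0 Y →ₗ[ℚ] CH0 Y'} (hT : f.Induces T) (n i : ℕ) :
    (SBV Y n i).map T ≤ SBV Y' n i := by
  rw [SBV, Submodule.map_span_le]
  rintro _ ⟨x, hx, rfl⟩
  obtain ⟨p, hp, hTp⟩ := orbit_map hY hσ hc hHd hH hf hT x hx
  rw [hTp]
  exact Submodule.subset_span ⟨p, hp, rfl⟩

end Pool.Agent.Helper397.HK
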