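import Pool.Agent.Helper397.HK.Limit

/-!
# Specialization with a prescribed value of one of the two points
-/

set_option autoImplicit false

open MvPolynomial

namespace Pool.Agent.Helper397.HK

variable {N N' : ℕ}

/-- **Places.** If the point `p` is a specialization of `z`, and `w ≠ 0` is another point, then
there is a place of the field of coordinates which specializes `z` to `p`, and a multiple of `w`
to a point. -/
theorem exists_place {κ : Type*} [Field κ] [Algebra ℂ κ] {n m : ℕ} (z : Fin n → κ)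
    (p : Fin n → ℂ) (hzp : ∀ F : MvPolynomial (Fin n) ℂ, aeval z F = 0 → aeval p F = 0)
    (w : Fin m → κ) (hw : w ≠ 0) :
    ∃ (R : Subalgebra ℂ κ) (θ : R →ₐ[ℂ] ℂ) (t : κ) (x : Fin m → R) (ζ : Fin n → R),
      t ≠ 0 ∧ (∀ i, (x i : κ) = t * w i) ∧ (∀ j, (ζ j : κ) = z j) ∧ (∀ j, θ (ζ j) = p j) ∧
      ∃ i, θ (x i) ≠ 0 := by
  classical
  -- the ring generated by `z` and the ideal of the point `p`
  let A : Subring κ := (aeval z : MvPolynomial (Fin n) ℂ →ₐ[ℂ] κ).toRingHom.range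
  let q : MvPolynomial (Fin n) ℂ →+* A := (aeval z : MvPolynomial (Fin n) ℂ →ₐ[ℂ] κ).toRingHom.rangeRestrict
  have hq : Function.Surjective q := RingHom.rangeRestrict_surjective _
  let I : Ideal A := Ideal.map q (RingHom.ker (aeval p : MvPolynomial (Fin n) ℂ →ₐ[ℂ] ℂ))
  have hI : I ≠ ⊤ := by
    intro h
    have h1 : (1 : A) ∈ I := by rw [h]; trivial
    obtain ⟨F, hF, hF1⟩ := (Ideal.mem_map_iff_of_surjective q hq).1 h1
    have h2 : aeval z F = 1 := congrArg Subtype.val hF1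
    have h3 : aeval z (F - 1) = 0 := by rw [map_sub, h2, map_one, sub_self]
    have h4 := hzp _ h3
    rw [map_sub, map_one] at h4
    have h5 : aeval p F = 0 := hF
    rw [h5] at h4
    norm_num at h4
  obtain ⟨V, hAV, hIV⟩ := Ideal.image_subset_nonunits_valuationSubring I hI
  have hC : ∀ c : ℂ, algebraMap ℂ κ c ∈ V := fun c => hAV ⟨C c, by simp⟩
  have hz : ∀ j, z j ∈ V := fun j => hAV ⟨X j, by simp⟩
  have hzI : ∀ j, z j - algebraMap ℂ κ (p j) ∈ V.nonunits := by
    intro j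
    apply hIV
    refine ⟨q (X j - C (p j)), Ideal.mem_map_of_mem q ?_, ?_⟩
    · rw [RingHom.mem_ker]
      simp
    · change (aeval z : MvPolynomial (Fin n) ℂ →ₐ[ℂ] κ) (X j - C (p j)) = _
      simp
  -- normalisation of `w`
  obtain ⟨i₁, hi₁⟩ := Function.ne_iff.1 hw
  have : Nonempty (Fin m) := ⟨i₁⟩
  obtain ⟨i₀, hi₀⟩ := Finite.exists_max (fun i => V.valuation (w i))
  have hwi₀ : w i₀ ≠ 0 := by
    intro h
    have h1 := hi₀ i₁
    simp only [h, map_zero, le_zero_iff] at h1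
    exact hi₁ ((map_eq_zero _).1 h1)
  have hx : ∀ i, (w i₀)⁻¹ * w i ∈ V := by
    intro i
    rw [← V.valuation_le_one_iff, map_mul, map_inv₀]
    have h1 : V.valuation (w i₀) ≠ 0 := (map_ne_zero _).2 hwi₀
    calc (V.valuation (w i₀))⁻¹ * V.valuation (w i)
        ≤ (V.valuation (w i₀))⁻¹ * V.valuation (w i₀) := by gcongr; exact hi₀ i
      _ = 1 := inv_mul_cancel₀ h1
  -- the residue field
  let ρ : ℂ →+* V := (algebraMap ℂ κ).codRestrict V.toSubring hC
  let k := IsLocalRing.ResidueField V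
  let _ : Algebra ℂ k := ((IsLocalRing.residue V).comp ρ).toAlgebra
  have hres : ∀ c : ℂ, algebraMap ℂ k c = IsLocalRing.residue V (ρ c) := fun c => rfl
  let x' : Fin m → V := fun i => ⟨(w i₀)⁻¹ * w i, hx i⟩
  let ζ' : Fin n → V := fun j => ⟨z j, hz j⟩
  have hx' : IsLocalRing.residue V (x' i₀) = 1 := by
    have : x' i₀ = 1 := Subtype.ext (inv_mul_cancel₀ hwi₀)
    rw [this, map_one]
  have hζ' : ∀ j, IsLocalRing.residue V (ζ' j) = algebraMap ℂ k (p j) := by
    intro j
    rw [hres, ← sub_eq_zero, ← map_sub, IsLocalRing.residue_eq_zero_iff]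
    have h1 := hzI j
    rw [ValuationSubring.mem_nonunits_iff_exists_mem_maximalIdeal] at h1
    obtain ⟨h2, h3⟩ := h1
    exact h3
  obtain ⟨B, ψ, hB, hψ⟩ := exists_spec (Set.range fun i => IsLocalRing.residue V (x' i))
    (Set.finite_range _)
  -- the subalgebra
  let R : Subalgebra ℂ κ :=
    { carrier := {a | ∃ h : a ∈ V, IsLocalRing.residue V ⟨a, h⟩ ∈ B}
      mul_mem' := by
        rintro a b ⟨ha, ha'⟩ ⟨hb, hb'⟩
        exact ⟨V.mul_mem _ _ ha hb, by
          have := B.mul_mem ha' hb'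
          rw [← map_mul] at this
          exact this⟩
      add_mem' := by
        rintro a b ⟨ha, ha'⟩ ⟨hb, hb'⟩
        exact ⟨V.add_mem _ _ ha hb, by
          have := B.add_mem ha' hb'
          rw [← map_add] at this
          exact this⟩
      algebraMap_mem' := by
        intro c
        refine ⟨hC c, ?_⟩
        have := B.algebraMap_mem c
        rw [hres] at this
        exact this }
  let π : R → B := fun a => ⟨IsLocalRing.residue V ⟨a.1, a.2.1⟩, a.2.2⟩
  let pr : R →ₐ[ℂ] B :=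
    { toFun := π
      map_one' := Subtype.ext (map_one (IsLocalRing.residue V))
      map_mul' := fun a b => Subtype.ext (map_mul (IsLocalRing.residue V) ⟨a.1, a.2.1⟩ ⟨b.1, b.2.1⟩)
      map_zero' := Subtype.ext (map_zero (IsLocalRing.residue V))
      map_add' := fun a b => Subtype.ext (map_add (IsLocalRing.residue V) ⟨a.1, a.2.1⟩ ⟨b.1, b.2.1⟩)
      commutes' := fun c => Subtype.ext rfl }
  have hζB : ∀ j, IsLocalRing.residue V (ζ' j) ∈ B := fun j => by
    rw [hζ']; exact B.algebraMap_mem _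
  refine ⟨R, ψ.comp pr, (w i₀)⁻¹, fun i => ⟨(w i₀)⁻¹ * w i, hx i, hB ⟨i, rfl⟩⟩,
    fun j => ⟨z j, hz j, hζB j⟩, inv_ne_zero hwi₀, fun i => rfl, fun j => rfl, ?_, i₀, ?_⟩
  · intro j
    change ψ ⟨IsLocalRing.residue V (ζ' j), _⟩ = p j
    have h1 : (⟨IsLocalRing.residue V (ζ' j), hζB j⟩ : B) = algebraMap ℂ B (p j) :=
      Subtype.ext (hζ' j)
    rw [h1, AlgHom.commutes]
    rfl
  · change ψ ⟨IsLocalRing.residue V (x' i₀), _⟩ ≠ 0
    apply hψ _ _ ⟨i₀, rfl⟩
    change IsLocalRing.residue V (x' i₀) ≠ 0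
    rw [hx']
    exact one_ne_zero

end Pool.Agent.Helper397.HK
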