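import Pool.Agent.Helper397.HK.Gram

/-!
# The limit of a generic arc under a rational map which is compatible with the forms
-/

set_option autoImplicit false

open MvPolynomial

namespace Pool.Agent.Helper397.HK

variable {N N' : ℕ}

section core

variable {κ : Type*} [Field κ] [Algebra ℂ κ] {Y : ProjVar N} {Y' : ProjVar N'}
  {ι : Type*} [Fintype ι] [DecidableEq ι]

/-- The value at `X = 0`. -/
noncomputable def ccHom (κ : Type*) [Field κ] [Algebra ℂ κ] : PowerSeries κ →ₐ[ℂ] κ :=
  { PowerSeries.constantCoeff with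
    commutes' := fun r => by
      change PowerSeries.constantCoeff (algebraMap ℂ (PowerSeries κ) r) = _
      rw [PowerSeries.algebraMap_apply, PowerSeries.constantCoeff_C] }

@[simp] lemma ccHom_apply (f : PowerSeries κ) : ccHom κ f = PowerSeries.constantCoeff f := rfl

/-- The arc is not contained in a hypersurface. -/
theorem arc_mem {γ : Fin (N + 1) → PowerSeries κ} (hγ : Y.OnCone γ)
    (hw : (fun i => ccHom κ (γ i)) ≠ 0) (δ : ι → Derivation ℂ κ κ)
    (β : ι → Fin (N + 1) → PowerSeries κ) (Δ : ι → PowerSeries κ) (hΔ : ∀ i, Δ i ≠ 0)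
    (hβ : ∀ i, (fun k => derCoeff (δ i) (γ k)) = Δ i • β i)
    (hli : LinearIndependent κ
      (fun o : Option ι => o.elim (fun k => ccHom κ (γ k)) (fun i k => ccHom κ (β i k))))
    (hfin : Module.finrank κ (Y.tanSub (fun i => ccHom κ (γ i))) ≤ Fintype.card ι + 1)
    {H : MvPolynomial (Fin (N + 1)) ℂ} {d : ℕ} (hH : H.IsHomogeneous d) (h0 : aeval γ H = 0) :
    H ∈ Y.I := by
  have hγ0 : γ ≠ 0 := by
    intro h
    apply hw
    funext i
    rw [h]
    simp
  have hpt : (fun i => toFrac (PowerSeries κ) (γ i)) ∈ Y.Pts _ :=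
    ⟨toFrac_ne_zero hγ0, hγ.map _⟩
  refine mem_of_generic Y (w := fun i => ccHom κ (γ i)) ⟨hw, hγ.map _⟩ hpt (ι := Option ι)
    (by rw [Fintype.card_option]; exact hfin)
    (fun o k => toFrac (PowerSeries κ) ((o.elim γ β : Fin (N + 1) → PowerSeries κ) k)) ?_ ?_ hH ?_
  · intro o
    cases o with
    | none => exact ProjVar.OnCone.self_mem_tan (mem_pts_locus _ hpt.1).2
    | some i =>
      intro F hF
      have h1 := (mem_pts_locus _ hpt.1).2 F hF
      rw [aeval_map] at h1
      have h2 : aeval γ F = 0 := toFrac_injective (by rw [h1, map_zero])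
      have h3 : derCoeff (δ i) (aeval γ F) = 0 := by rw [h2, map_zero]
      rw [der_aeval', hβ, dif_smul_right] at h3
      have h4 : dif F γ (β i) = 0 := (mul_eq_zero.1 h3).resolve_left (hΔ i)
      change dif F (fun k => toFrac (PowerSeries κ) (γ k)) (fun k => toFrac (PowerSeries κ) (β i k)) = 0
      rw [dif_map, h4, map_zero]
  · refine linInd_of_reduction (R := PowerSeries κ) (ccHom κ).toRingHom
      (toFrac (PowerSeries κ)).toRingHom toFrac_injective
      (fun o : Option ι => (o.elim γ β : Fin (N + 1) → PowerSeries κ)) ?_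
    convert hli using 2 with o
    cases o <;> rfl
  · rw [aeval_map, h0, map_zero]

/-- **The main estimate.** Let `γ` be an arc on `Y` and let `δ i` be derivations of the
coefficients, such that `δ i γ = Δ i β i`, where the values of `γ` and the `β i` at `X = 0` form a
basis of the tangent space of the cone over `Y`, and `∏ Δ i = X ^ e`. Let `f (γ) = X ^ k γ'`. Then
the locus of the value of `γ'` at `X = 0` has dimension at least `card ι - e`. -/
theorem dim_locus_limit {f : RatMap Y Y'} {σ : TwoForm Y} (hσ : σ.Nondegenerate)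
    {σ' : TwoForm Y'} {c : ℂ} (hc : c ≠ 0) {H : MvPolynomial (Fin (N + 1)) ℂ} {dH : ℕ}
    (hHd : H.IsHomogeneous dH) (hH : H ∉ Y.I) (hf : f.PullsBackOn H σ' c σ)
    {γ : Fin (N + 1) → PowerSeries κ} (hγ : Y.OnCone γ)
    (hw : (fun i => ccHom κ (γ i)) ≠ 0) (δ : ι → Derivation ℂ κ κ)
    (β : ι → Fin (N + 1) → PowerSeries κ) (Δ : ι → PowerSeries κ) (hΔ : ∀ i, Δ i ≠ 0)
    (hβ : ∀ i, (fun k => derCoeff (δ i) (γ k)) = Δ i • β i)
    (hli : LinearIndependent κ
      (fun o : Option ι => o.elim (fun k => ccHom κ (γ k)) (fun i k => ccHom κ (β i k))))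
    (hfin : Module.finrank κ (Y.tanSub (fun i => ccHom κ (γ i))) ≤ Fintype.card ι + 1)
    {e d : ℕ} (he : ∏ i, Δ i = (PowerSeries.X : PowerSeries κ) ^ e)
    (hed : d + e ≤ Fintype.card ι) :
    ∃ (k : ℕ) (γ' : Fin (N' + 1) → PowerSeries κ),
      f.app γ = (PowerSeries.X : PowerSeries κ) ^ k • γ' ∧
      ∃ hw' : (fun i => ccHom κ (γ' i)) ≠ 0, (locus (fun i => ccHom κ (γ' i)) hw').DimGE d := by
  classical
  have hγ0 : γ ≠ 0 := by
    intro h
    apply hw
    funext i
    rw [h]
    simp
  have hfγ : f.app γ ≠ 0 := by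
    intro h0
    obtain ⟨j, hj⟩ := f.nonzero
    exact hj (arc_mem hγ hw δ β Δ hΔ hβ hli hfin (f.homog j) (congrFun h0 j))
  obtain ⟨k, γ', hk, hw'⟩ := exists_primitive _ hfγ
  have hX : (PowerSeries.X : PowerSeries κ) ^ k ≠ 0 := pow_ne_zero _ PowerSeries.X_ne_zero
  have hγ' : Y'.OnCone γ' := ProjVar.OnCone.of_smul hX (by rw [← hk]; exact f.onCone hγ)
  have hw'' : (fun i => ccHom κ (γ' i)) ≠ 0 := hw'
  have hγ'0 : γ' ≠ 0 := by
    intro h
    apply hw''
    funext i
    rw [h]
    simp
  refine ⟨k, γ', hk, hw'', ?_⟩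
  set w : Fin (N + 1) → κ := fun i => ccHom κ (γ i) with hwdef
  set w' : Fin (N' + 1) → κ := fun i => ccHom κ (γ' i) with hw'def
  have hwp : w ∈ Y.Pts κ := ⟨hw, hγ.map _⟩
  have hwp' : w' ∈ Y'.Pts κ := ⟨hw'', hγ'.map _⟩
  obtain ⟨a, G, A, hloc, hG⟩ := σ.exists_isLocal_pt hwp
  obtain ⟨a', G', A', hloc', hG'⟩ := σ'.exists_isLocal_pt hwp'
  have hGγ : IsUnit (aeval γ G) := by
    rw [PowerSeries.isUnit_iff_constantCoeff, isUnit_iff_ne_zero]
    change ccHom κ (aeval γ G) ≠ 0
    rw [← aeval_map]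
    exact hG
  have hGγ' : IsUnit (aeval γ' G') := by
    rw [PowerSeries.isUnit_iff_constantCoeff, isUnit_iff_ne_zero]
    change ccHom κ (aeval γ' G') ≠ 0
    rw [← aeval_map]
    exact hG'
  -- the Gram matrices
  let S : Matrix ι ι (PowerSeries κ) := Matrix.of fun i j =>
    bil A γ (fun k => derCoeff (δ i) (γ k)) (fun k => derCoeff (δ j) (γ k))
  let S' : Matrix ι ι (PowerSeries κ) := Matrix.of fun i j =>
    bil A' γ' (fun k => derCoeff (δ i) (γ' k)) (fun k => derCoeff (δ j) (γ' k))
  let Q : Matrix ι ι (PowerSeries κ) := Matrix.of fun i j => bil A γ (β i) (β j)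
  have hSQ : ∀ i j, S i j = Δ i * Q i j * Δ j := by
    intro i j
    simp only [S, Q, Matrix.of_apply]
    rw [hβ, hβ, bil_smul_left, bil_smul_right]
    ring
  have hβtan : ∀ i, β i ∈ Y.Tan γ := fun i => ProjVar.tan_of_smul (hΔ i) (by
    rw [← hβ]; exact hγ.der_mem_tan _)
  have hQ : IsUnit Q.det := by
    rw [PowerSeries.isUnit_iff_constantCoeff, isUnit_iff_ne_zero]
    change (ccHom κ) Q.det ≠ 0
    rw [AlgHom.map_det]
    have h1 := hloc.gram_ne_zero hσ hwp hG (fun i k => ccHom κ (β i k))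
      (fun i => ProjVar.tan_map _ (hβtan i)) hli hfin
    convert h1 using 2
    ext i j
    simp only [Q, AlgHom.mapMatrix_apply, Matrix.map_apply, Matrix.of_apply]
    rw [← bil_map]
  have hdetS : S.det = (PowerSeries.X : PowerSeries κ) ^ (2 * e) * Q.det := by
    rw [det_scale S Q Δ hSQ, he, ← pow_mul, mul_comm e 2]
  have hcu : IsUnit (algebraMap ℂ (PowerSeries κ) c) := (isUnit_iff_ne_zero.2 hc).map _
  have hcomp : ∀ i j, aeval γ G * S' i j = algebraMap ℂ (PowerSeries κ) c * aeval γ' G' * S i j := by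
    intro i j
    have hder : ∀ i, derCoeff (δ i) ((PowerSeries.X : PowerSeries κ) ^ k) = 0 := by
      intro i
      have := derCoeff_X_pow_mul (δ i) k 1
      rw [mul_one, Derivation.map_one_eq_zero, mul_zero] at this
      exact this
    exact hf.compare hloc hloc' hγ hγ0
      (fun h0 => hH (arc_mem hγ hw δ β Δ hΔ hβ hli hfin hHd h0)) hGγ.ne_zero hX hγ'0 hk hGγ'.ne_zero _ _ (hder i) (hder j)
  have hdetS' : aeval γ G ^ Fintype.card ι * S'.det =
      (algebraMap ℂ (PowerSeries κ) c * aeval γ' G') ^ Fintype.card ι * S.det := by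
    rw [← Matrix.det_smul, ← Matrix.det_smul]
    congr 1
    ext i j : 1
    exact hcomp i j
  -- the combinations of the derivations which do not move the point `w'`
  let M : (ι → κ) →ₗ[κ] (Fin (N' + 1) → κ) :=
    Fintype.linearCombination κ (fun i k => δ i (w' k))
  let ℓ : (ι → κ) →ₗ[κ] ((Fin (N' + 1) → κ) ⧸ Submodule.span κ {w'}) :=
    (Submodule.mkQ (Submodule.span κ {w'})).comp M
  let U : Submodule κ (ι → κ) := LinearMap.ker ℓ
  have hM : ∀ u, M u = ∑ i, u i • (fun k => δ i (w' k)) := fun u =>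
    Fintype.linearCombination_apply κ _ u
  have hU : ∀ u ∈ U, ∃ s : κ, s • w' = M u := by
    intro u hu
    have h1 : Submodule.mkQ (Submodule.span κ {w'}) (M u) = 0 := hu
    rw [Submodule.mkQ_apply, Submodule.Quotient.mk_eq_zero] at h1
    exact Submodule.mem_span_singleton.1 h1
  let θ : (ι → κ) → Fin (N' + 1) → PowerSeries κ := fun u =>
    ∑ i, PowerSeries.C (u i) • fun k => derCoeff (δ i) (γ' k)
  have hθtan : ∀ u, θ u ∈ Y'.tanSub γ' := fun u =>
    Submodule.sum_mem _ fun i _ => Submodule.smul_mem _ _ (hγ'.der_mem_tan _)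
  have hθ : ∀ u ∈ U, ∃ (s : κ) (θ' : Fin (N' + 1) → PowerSeries κ), θ' ∈ Y'.Tan γ' ∧
      θ u = PowerSeries.C s • γ' + (PowerSeries.X : PowerSeries κ) • θ' := by
    intro u hu
    obtain ⟨s, hs⟩ := hU u hu
    have h1 : ∀ k, ∃ y, θ u k - PowerSeries.C s * γ' k = PowerSeries.X * y := by
      intro k
      apply PowerSeries.X_dvd_iff.2
      have h2 := congrFun hs k
      rw [hM, Finset.sum_apply] at h2
      simp only [θ, Finset.sum_apply, Pi.smul_apply, smul_eq_mul, map_sub, map_sum, map_mul,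
        PowerSeries.constantCoeff_C, constantCoeff_derCoeff]
      rw [sub_eq_zero]
      simp only [Pi.smul_apply, smul_eq_mul] at h2
      exact h2.symm
    choose y hy using h1
    have h3 : θ u = PowerSeries.C s • γ' + (PowerSeries.X : PowerSeries κ) • y := by
      funext k
      simp only [Pi.add_apply, Pi.smul_apply, smul_eq_mul]
      rw [← hy k]
      ring
    refine ⟨s, y, ?_, h3⟩
    apply ProjVar.tan_of_smul (c := (PowerSeries.X : PowerSeries κ)) PowerSeries.X_ne_zero
    have h4 : (PowerSeries.X : PowerSeries κ) • y = θ u - PowerSeries.C s • γ' := by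
      rw [h3]; abel
    rw [h4]
    exact (Y'.tanSub γ').sub_mem (hθtan u) ((Y'.tanSub γ').smul_mem _ hγ'.self_mem_tan)
  have hsum : ∀ u v : ι → κ, ∑ i, ∑ j, PowerSeries.C (u i) * S' i j * PowerSeries.C (v j) =
      bil A' γ' (θ u) (θ v) := by
    intro u v
    rw [← bilMap_apply, Finset.sum_comm]
    simp only [θ, map_sum, LinearMap.sum_apply, map_smul, LinearMap.smul_apply, bilMap_apply,
      smul_eq_mul, S', Matrix.of_apply]
    refine Finset.sum_congr rfl fun i _ => ?_
    rw [Finset.mul_sum]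
    refine Finset.sum_congr rfl fun j _ => ?_
    ring
  have hE : ∀ v ∈ Y'.Tan γ', bil A' γ' γ' v = 0 := fun v hv =>
    hloc'.euler_domain hγ' hGγ'.ne_zero hγ'0 hv
  have hE' : ∀ v ∈ Y'.Tan γ', bil A' γ' v γ' = 0 := fun v hv =>
    hloc'.euler_right_domain hγ' hGγ'.ne_zero hγ'0 hv
  have hdvd : (PowerSeries.X : PowerSeries κ) ^ (2 * Module.finrank κ U) ∣ S'.det := by
    apply X_pow_dvd_det S' U
    · intro u hu v
      obtain ⟨s, θ', ht, h1⟩ := hθ u hu
      rw [hsum, h1, bil_add_left, bil_smul_left, bil_smul_left, hE _ (hθtan v), mul_zero, zero_add]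
      exact Dvd.intro _ rfl
    · intro u hu v
      obtain ⟨s, θ', ht, h1⟩ := hθ u hu
      rw [hsum, h1, bil_add_right, bil_smul_right, bil_smul_right, hE' _ (hθtan v), mul_zero,
        zero_add]
      exact Dvd.intro _ rfl
    · intro u hu v hv
      obtain ⟨s, θ', ht, h1⟩ := hθ u hu
      obtain ⟨s', θ'', ht', h1'⟩ := hθ v hv
      rw [hsum, h1, h1']
      simp only [bil_add_left, bil_add_right, bil_smul_left, bil_smul_right]
      rw [hE _ hγ'.self_mem_tan, hE _ ht', hE' _ ht]
      refine ⟨bil A' γ' θ' θ'', ?_⟩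
      ring
  have hUe : Module.finrank κ U ≤ e := by
    have h1 : (PowerSeries.X : PowerSeries κ) ^ (2 * Module.finrank κ U) ∣
        aeval γ G ^ Fintype.card ι * S'.det := hdvd.mul_left _
    rw [hdetS', hdetS, mul_comm _ Q.det, ← mul_assoc] at h1
    have h2 : IsUnit ((algebraMap ℂ (PowerSeries κ) c * aeval γ' G') ^ Fintype.card ι * Q.det) :=
      ((hcu.mul hGγ').pow _).mul hQ
    have h3 := (h2.dvd_mul_left).1 h1
    have h4 := (pow_dvd_pow_iff PowerSeries.X_ne_zero PowerSeries.X_prime.not_isUnit).1 h3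
    omega
  -- the count of dimensions
  let T : Submodule κ (Fin (N' + 1) → κ) := (locus w' hw'').tanSub w'
  have hw'T : w' ∈ T := ProjVar.OnCone.self_mem_tan (mem_pts_locus w' hw'').2
  have hMT : ∀ u, M u ∈ T := by
    intro u
    rw [hM]
    exact Submodule.sum_mem _ fun i _ => Submodule.smul_mem _ _ (der_mem_locus hw'' (δ i))
  have h5 := LinearMap.finrank_range_add_finrank_ker ℓ
  rw [Module.finrank_pi] at h5
  have h6 : Module.finrank κ (LinearMap.range ℓ) + 1 ≤ Module.finrank κ T := by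
    let m := (Submodule.mkQ (Submodule.span κ {w'})).domRestrict T
    have h7 := LinearMap.finrank_range_add_finrank_ker m
    have h8 : LinearMap.range ℓ ≤ LinearMap.range m := by
      rintro _ ⟨u, rfl⟩
      exact ⟨⟨M u, hMT u⟩, rfl⟩
    have h9 := Submodule.finrank_mono h8
    have h10 : 1 ≤ Module.finrank κ (LinearMap.ker m) := by
      rw [Submodule.one_le_finrank_iff]
      intro h
      have h11 : (⟨w', hw'T⟩ : T) ∈ LinearMap.ker m := by
        rw [LinearMap.mem_ker]
        change Submodule.mkQ (Submodule.span κ {w'}) w' = 0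
        rw [Submodule.mkQ_apply, Submodule.Quotient.mk_eq_zero]
        exact Submodule.mem_span_singleton_self w'
      rw [h, Submodule.mem_bot] at h11
      exact hw'' (congrArg Subtype.val h11)
    omega
  have hq : d + 1 ≤ Module.finrank κ T := by
    have : Module.finrank κ (LinearMap.ker ℓ) ≤ e := hUe
    omega
  let b := Module.finBasis κ T
  have hbli : LinearIndependent κ (fun i => (b i : Fin (N' + 1) → κ)) :=
    b.linearIndependent.map' T.subtype (Submodule.ker_subtype T)
  obtain ⟨j, hj⟩ := exists_minor _ hbli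
  have h11 := algInd_of_tangent (locus w' hw'') (mem_pts_locus w' hw'').2
    (fun d F hF h => (mem_locus_of_homog hF).2 h) (fun i => (b i : Fin (N' + 1) → κ))
    (fun i => (b i).2) j hj
  have := (locus w' hw'').prime
  have h12 := h11.cardinalMk_le_trdeg
  rw [Cardinal.mk_fin] at h12
  refine le_trans ?_ h12
  exact_mod_cast hq

end core

end Pool.Agent.Helper397.HK
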