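import Pool.Agent.Helper397.HK.Defs

/-!
# Curves through a given point which meet a given open set
-/

set_option autoImplicit false

open MvPolynomial

namespace Pool.Agent.Helper397.HK

/-- Function fields of curves. -/
structure CurveField (K : Type*) [Field K] [Algebra ℂ K] : Prop where
  ess : Algebra.EssFiniteType ℂ K
  trdeg : Algebra.trdeg ℂ K ≤ 1

/-- The function field of a curve is finite over the subfield generated by a transcendental
element. -/
theorem CurveField.finite {K : Type*} [Field K] [Algebra ℂ K] (hK : CurveField K) {u : K}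
    (hu : Transcendental ℂ u) : FiniteDimensional (IntermediateField.adjoin ℂ {u}) K := by
  have := hK.ess
  have h1 : AlgebraicIndependent ℂ (fun _ : Unit => u) :=
    algebraicIndependent_unique_type_iff.2 hu
  have h2 : IsTranscendenceBasis ℂ (fun _ : Unit => u) :=
    h1.isTranscendenceBasis_of_lift_trdeg_le_of_finite (by simpa using hK.trdeg)
  have h3 := h2.isAlgebraic_field
  have h4 : Set.range (fun _ : Unit => u) = {u} := Set.range_const
  rw [h4] at h3
  have h5 : Algebra.EssFiniteType (IntermediateField.adjoin ℂ {u}) K :=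
    Algebra.EssFiniteType.of_comp ℂ _ K
  exact Algebra.finite_of_essFiniteType_of_isAlgebraic

lemma val_le_of_isIntegral {K : Type*} [Field K] (V : ValuationSubring K) (R : Type*) [CommRing R]
    [Algebra R K] (hR : ∀ r : R, algebraMap R K r ∈ V) {x : K} (hx : IsIntegral R x) : x ∈ V := by
  let φ : R →+* V := (algebraMap R K).codRestrict V.toSubring hR
  have h1 : IsIntegral V x := by
    obtain ⟨p, hp, he⟩ := hx
    refine ⟨p.map φ, hp.map φ, ?_⟩
    rw [Polynomial.eval₂_map]
    exact he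
  obtain ⟨y, hy⟩ := IsIntegrallyClosed.isIntegral_iff.1 h1
  rw [← hy]
  exact y.2

/-- **Curves.** Let `A` be a finitely generated domain over `ℂ` which is not algebraic, `ev` a point of
`Spec A` and `h ≠ 0` an element. There is a curve through `ev` on which `h` is not zero. -/
theorem exists_curve {A : Type} [CommRing A] [IsDomain A] [Algebra ℂ A] [Algebra.FiniteType ℂ A]
    (ev : A →ₐ[ℂ] ℂ) {h : A} (hh : h ≠ 0) (hA : ∃ a : A, Transcendental ℂ a) :
    ∃ (K : Type) (_ : Field K) (_ : Algebra ℂ K) (s : K) (ρ : A →ₐ[ℂ] K)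
      (V : ValuationSubring K),
      Transcendental ℂ s ∧ CurveField K ∧ ρ h ≠ 0 ∧
      (∀ a, IsIntegral (Algebra.adjoin ℂ {s}) (ρ a)) ∧ s ∈ V.nonunits ∧ (∀ a, ρ a ∈ V) ∧
      (∀ a, ρ a - algebraMap ℂ K (ev a) ∈ V.nonunits) := by
  classical
  obtain ⟨r, g, hginj, hgfin⟩ := exists_finite_inj_algHom_of_fg ℂ A
  let _ : Algebra (MvPolynomial (Fin r) ℂ) A := g.toRingHom.toAlgebra
  have hgmap : ∀ p, algebraMap (MvPolynomial (Fin r) ℂ) A p = g p := fun p => rfl
  have hfin : Module.Finite (MvPolynomial (Fin r) ℂ) A := hgfin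
  have hint : Algebra.IsIntegral (MvPolynomial (Fin r) ℂ) A := inferInstance
  have hfaith : FaithfulSMul (MvPolynomial (Fin r) ℂ) A :=
    (faithfulSMul_iff_algebraMap_injective _ _).2 hginj
  let a : Fin r → ℂ := fun i => ev (g (X i))
  have hevg : ∀ p, ev (g p) = aeval a p := fun p =>
    (aeval_unique (ev.comp g)) ▸ rfl
  -- a polynomial which is divisible by `h`
  obtain ⟨n, hn0, hn⟩ := (Algebra.IsAlgebraic.isAlgebraic (R := MvPolynomial (Fin r) ℂ)
    h).exists_nonzero_dvd (mem_nonZeroDivisors_of_ne_zero hh)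
  -- `r` is positive
  obtain ⟨i₀⟩ : Nonempty (Fin r) := by
    by_contra hempty
    rw [not_nonempty_iff] at hempty
    obtain ⟨b, hb⟩ := hA
    apply hb
    have h1 : Algebra.IsIntegral ℂ (MvPolynomial (Fin r) ℂ) := by
      refine ⟨fun p => ?_⟩
      rw [MvPolynomial.eq_C_of_isEmpty p]
      exact isIntegral_algebraMap
    have h2 : IsIntegral (MvPolynomial (Fin r) ℂ) b := Algebra.IsIntegral.isIntegral b
    have : IsScalarTower ℂ (MvPolynomial (Fin r) ℂ) A := IsScalarTower.of_algebraMap_eq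
      (fun c => (g.commutes c).symm)
    exact (isIntegral_trans (R := ℂ) b h2).isAlgebraic
  -- a second point
  obtain ⟨q, hq⟩ : ∃ q : Fin r → ℂ, eval q (n * (X i₀ - C (a i₀))) ≠ 0 := by
    by_contra hcon
    push Not at hcon
    have h1 : n * (X i₀ - C (a i₀)) = 0 := MvPolynomial.funext fun q => by
      rw [hcon q, map_zero]
    rcases mul_eq_zero.1 h1 with h2 | h2
    · exact hn0 h2
    · have h3 := congrArg (eval (fun _ => a i₀ + 1)) h2
      simp at h3
  rw [map_mul] at hq
  have hqn : eval q n ≠ 0 := left_ne_zero_of_mul hq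
  have hqa : q i₀ - a i₀ ≠ 0 := by
    have := right_ne_zero_of_mul hq
    simpa using this
  -- the line through the two points
  let l : MvPolynomial (Fin r) ℂ →ₐ[ℂ] Polynomial ℂ :=
    aeval (fun i => Polynomial.C (a i) + Polynomial.C (q i - a i) * Polynomial.X)
  have hl0 : ∀ p, (l p).eval 0 = aeval a p := by
    intro p
    have h1 := MvPolynomial.comp_aeval_apply
      (fun i => Polynomial.C (a i) + Polynomial.C (q i - a i) * Polynomial.X)
      (Polynomial.aeval (0 : ℂ) : Polynomial ℂ →ₐ[ℂ] ℂ) p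
    rw [Polynomial.coe_aeval_eq_eval] at h1
    rw [show l p = _ from rfl, h1]
    congr 2
    funext i
    simp
  have hl1 : ∀ p, (l p).eval 1 = eval q p := by
    intro p
    have h1 := MvPolynomial.comp_aeval_apply
      (fun i => Polynomial.C (a i) + Polynomial.C (q i - a i) * Polynomial.X)
      (Polynomial.aeval (1 : ℂ) : Polynomial ℂ →ₐ[ℂ] ℂ) p
    rw [Polynomial.coe_aeval_eq_eval] at h1
    have h2 : (fun i => Polynomial.eval 1 (Polynomial.C (a i) +
        Polynomial.C (q i - a i) * Polynomial.X)) = q := by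
      funext i
      simp
    rw [show l p = _ from rfl, h1, h2]
    rfl
  let s₀ : MvPolynomial (Fin r) ℂ := C (q i₀ - a i₀)⁻¹ * (X i₀ - C (a i₀))
  have hls₀ : l s₀ = Polynomial.X := by
    simp only [s₀, l, map_mul, map_sub, aeval_X, algHom_C, Polynomial.algebraMap_eq]
    rw [add_sub_cancel_left, ← mul_assoc, ← Polynomial.C_sub, ← Polynomial.C_mul,
      inv_mul_cancel₀ hqa, Polynomial.C_1, one_mul]
  have hls : ∀ p : Polynomial ℂ, l (Polynomial.aeval s₀ p) = p := by
    intro p
    rw [← Polynomial.aeval_algHom_apply, hls₀, Polynomial.aeval_X_left_apply]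
  let Q : Ideal (MvPolynomial (Fin r) ℂ) := RingHom.ker l
  have hQprime : Q.IsPrime := RingHom.ker_isPrime _
  let M : Ideal A := RingHom.ker ev
  have hMprime : M.IsPrime := RingHom.ker_isPrime _
  have hle : Q ≤ M.under (MvPolynomial (Fin r) ℂ) := by
    intro p hp
    rw [Ideal.under_def, Ideal.mem_comap, hgmap]
    change ev (g p) = 0
    rw [hevg, ← hl0]
    have : l p = 0 := hp
    rw [this, Polynomial.eval_zero]
  obtain ⟨p, hpM, hp, hpQ⟩ := Ideal.exists_ideal_le_liesOver_of_le (p := Q)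
    (q := M.under (MvPolynomial (Fin r) ℂ)) M hle
  have hpQ' : ∀ x, g x ∈ p ↔ l x = 0 := by
    intro x
    have h1 := hpQ.over
    have h2 : x ∈ Q ↔ algebraMap _ A x ∈ p := by
      rw [h1]; rfl
    rw [hgmap] at h2
    exact h2.symm.trans Iff.rfl
  -- the function field
  let K := FractionRing (A ⧸ p)
  let ρ : A →ₐ[ℂ] K := (IsScalarTower.toAlgHom ℂ (A ⧸ p) K).comp (Ideal.Quotient.mkₐ ℂ p)
  have hρ : ∀ x, ρ x = 0 ↔ x ∈ p := by
    intro x
    rw [← Ideal.Quotient.eq_zero_iff_mem]
    exact (IsFractionRing.injective (A ⧸ p) K).eq_iff' (map_zero _)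
  let s : K := ρ (g s₀)
  have hs : Transcendental ℂ s := by
    rw [transcendental_iff]
    intro F hF
    have h1 : Polynomial.aeval s F = ρ (g (Polynomial.aeval s₀ F)) := by
      rw [← Polynomial.aeval_algHom_apply, ← Polynomial.aeval_algHom_apply]
    rw [h1, hρ, hpQ', hls] at hF
    exact hF
  have hint : ∀ x, IsIntegral (Algebra.adjoin ℂ {s}) (ρ x) := by
    intro x
    have h1 : IsIntegral (MvPolynomial (Fin r) ℂ) x := Algebra.IsIntegral.isIntegral x
    obtain ⟨P, hP, he⟩ := h1
    have h2 : ∀ y, ρ (g y) = Polynomial.aeval s (l y) := by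
      intro y
      have h3 : Polynomial.aeval s (l y) = ρ (g (Polynomial.aeval s₀ (l y))) := by
        rw [← Polynomial.aeval_algHom_apply, ← Polynomial.aeval_algHom_apply]
      rw [h3, ← sub_eq_zero, ← map_sub, hρ, ← map_sub, hpQ', map_sub, hls, sub_self]
    let φ : MvPolynomial (Fin r) ℂ →+* Algebra.adjoin ℂ {s} :=
      (ρ.toRingHom.comp g.toRingHom).codRestrict (Algebra.adjoin ℂ {s}).toSubring (fun y => by
        change ρ (g y) ∈ Algebra.adjoin ℂ {s}
        rw [h2, Algebra.adjoin_singleton_eq_range_aeval]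
        exact ⟨l y, rfl⟩)
    refine ⟨P.map φ, hP.map φ, ?_⟩
    rw [Polynomial.eval₂_map]
    have h4 := congrArg ρ he
    rw [map_zero] at h4
    rw [← h4]
    change _ = ρ.toRingHom (Polynomial.eval₂ (algebraMap (MvPolynomial (Fin r) ℂ) A) x P)
    rw [Polynomial.hom_eval₂]
    rfl
  -- the place
  let D : Subring K := ρ.toRingHom.range
  let qD : A →+* D := ρ.toRingHom.rangeRestrict
  have hqD : Function.Surjective qD := RingHom.rangeRestrict_surjective _
  let I : Ideal D := Ideal.map qD M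
  have hI : I ≠ ⊤ := by
    intro h
    have h1 : (1 : D) ∈ I := by rw [h]; trivial
    obtain ⟨x, hx, hx1⟩ := (Ideal.mem_map_iff_of_surjective qD hqD).1 h1
    have h2 : ρ x = 1 := congrArg Subtype.val hx1
    have h3 : ρ (x - 1) = 0 := by rw [map_sub, h2, map_one, sub_self]
    have h4 := hpM ((hρ _).1 h3)
    have h5 : (1 : A) ∈ M := by
      have := M.sub_mem hx h4
      simpa using this
    exact hMprime.ne_top ((Ideal.eq_top_iff_one _).2 h5)
  obtain ⟨V, hDV, hIV⟩ := Ideal.image_subset_nonunits_valuationSubring I hI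
  have hV : ∀ x, ρ x - algebraMap ℂ K (ev x) ∈ V.nonunits := by
    intro x
    apply hIV
    refine ⟨qD (x - algebraMap ℂ A (ev x)), Ideal.mem_map_of_mem qD ?_, ?_⟩
    · change ev (x - algebraMap ℂ A (ev x)) = 0
      rw [map_sub, AlgHom.commutes]
      simp
    · change ρ (x - algebraMap ℂ A (ev x)) = _
      rw [map_sub, AlgHom.commutes]
  have hsV : s ∈ V.nonunits := by
    have h1 := hV (g s₀)
    have h2 : ev (g s₀) = 0 := by
      rw [hevg, ← hl0, hls₀, Polynomial.eval_X]
    rw [h2, map_zero, sub_zero] at h1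
    exact h1
  have hess : Algebra.EssFiniteType ℂ K := Algebra.EssFiniteType.comp ℂ (A ⧸ p) K
  have htr : Algebra.trdeg ℂ K ≤ 1 := by
    have h1 : Algebra.IsAlgebraic (Algebra.adjoin ℂ {s}) K := by
      refine ⟨fun x => ?_⟩
      obtain ⟨y, z, hz, rfl⟩ := IsFractionRing.div_surjective (A := A ⧸ p) x
      obtain ⟨y, rfl⟩ := Ideal.Quotient.mk_surjective y
      obtain ⟨z, rfl⟩ := Ideal.Quotient.mk_surjective z
      exact (hint y).isAlgebraic.mul (hint z).isAlgebraic.inv
    have h2 := Algebra.IsAlgebraic.trdeg_le_cardinalMk ℂ ({s} : Set K)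
    simpa using h2
  exact ⟨K, inferInstance, inferInstance, s, ρ, V, hs, ⟨hess, htr⟩, fun h0 => by
    have h1 : h ∈ p := (hρ h).1 h0
    obtain ⟨y, hy⟩ := hn
    have h2 : g n ∈ p := by
      rw [← hgmap, hy]
      exact p.mul_mem_right y h1
    rw [hpQ'] at h2
    apply hqn
    rw [← hl1, h2, Polynomial.eval_zero], hint, hsV, fun a => hDV ⟨a, rfl⟩, hV⟩

end Pool.Agent.Helper397.HK
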