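import Pool.Agent.Helper397.HK.Locus2
import Pool.Agent.Helper397.HK.Arc

/-!
# The comparison of the Gram determinants of the two forms along an arc
-/

set_option autoImplicit false

open MvPolynomial

namespace Pool.Agent.Helper397.HK

variable {N N' : ℕ}

section prep

variable {K : Type*} [Field K] [Algebra ℂ K]

/-- A form has a local expression at every point. -/
lemma TwoForm.exists_isLocal_pt {Y : ProjVar N} (σ : TwoForm Y) {w : Fin (N + 1) → K}
    (hw : w ∈ Y.Pts K) : ∃ a G A, σ.IsLocal a G A ∧ aeval w G ≠ 0 := by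
  obtain ⟨B, ψ, hB, hψ⟩ := exists_spec (Set.range w) (Set.finite_range w)
  let w' : Fin (N + 1) → B := fun i => ⟨w i, hB ⟨i, rfl⟩⟩
  obtain ⟨i, hi⟩ := Function.ne_iff.1 hw.1
  have p1 : (fun i => ψ (w' i)) ∈ Y.Pts ℂ :=
    ProjVar.spec_pt ψ (x := w') hw ⟨i, hψ _ _ ⟨i, rfl⟩ hi⟩
  obtain ⟨a, G, A, h1, h2⟩ := σ.exists_isLocal p1
  refine ⟨a, G, A, h1, fun h0 => h2 ?_⟩
  have e1 : ((aeval w' G : B) : K) = aeval w G := aeval_val B w _ G
  have e2 : aeval w' G = 0 := Subtype.ext (by rw [e1, h0]; rfl)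
  rw [aeval_spec, e2, map_zero]

/-- Cancellation of a factor. -/
lemma ProjVar.OnCone.of_smul {R : Type*} [CommRing R] [IsDomain R] [Algebra ℂ R] {Y : ProjVar N}
    {c : R} (hc : c ≠ 0) {x : Fin (N + 1) → R} (h : Y.OnCone (c • x)) : Y.OnCone x := by
  intro F hF
  rw [← sum_homogeneousComponent F, map_sum]
  refine Finset.sum_eq_zero fun d _ => ?_
  have h1 := h _ (Y.homog F hF d)
  rw [aeval_smul_of_homog (homogeneousComponent_isHomogeneous d F)] at h1
  exact (mul_eq_zero.1 h1).resolve_left (pow_ne_zero _ hc)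

omit [Algebra ℂ K] in
/-- A vector of power series which is not zero is a power of `X` times a vector which does not
vanish at `X = 0`. -/
lemma exists_primitive {m : ℕ} (x : Fin m → PowerSeries K) (hx : x ≠ 0) :
    ∃ (k : ℕ) (x' : Fin m → PowerSeries K), x = (PowerSeries.X : PowerSeries K) ^ k • x' ∧
      (fun j => PowerSeries.constantCoeff (x' j)) ≠ 0 := by
  obtain ⟨i, hi⟩ := Function.ne_iff.1 hx
  obtain ⟨n, hn⟩ : ∃ n, PowerSeries.coeff n (x i) ≠ 0 := by
    by_contra h
    push Not at h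
    exact hi (PowerSeries.ext h)
  clear hi hx
  induction n generalizing x with
  | zero =>
    refine ⟨0, x, by simp, fun h => hn ?_⟩
    rw [PowerSeries.coeff_zero_eq_constantCoeff_apply]
    exact congrFun h i
  | succ n ih =>
    by_cases h : (fun j => PowerSeries.constantCoeff (x j)) = 0
    · have h1 : ∀ j, ∃ y, x j = PowerSeries.X * y := fun j =>
        PowerSeries.X_dvd_iff.2 (congrFun h j)
      choose y hy using h1
      obtain ⟨k, x', h2, h3⟩ := ih y (by
        rw [hy i, PowerSeries.coeff_succ_X_mul] at hn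
        exact hn)
      refine ⟨k + 1, x', ?_, h3⟩
      funext j
      rw [hy j, h2]
      simp only [Pi.smul_apply, smul_eq_mul]
      ring
    · exact ⟨0, x, by simp, h⟩

end prep

section domain

variable {R : Type*} [CommRing R] [IsDomain R] [Algebra ℂ R] {Y : ProjVar N} {Y' : ProjVar N'}

/-- The embedding of a domain in its field of fractions. -/
noncomputable def toFrac (R : Type*) [CommRing R] [IsDomain R] [Algebra ℂ R] :
    R →ₐ[ℂ] FractionRing R := IsScalarTower.toAlgHom ℂ R (FractionRing R)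

lemma toFrac_injective : Function.Injective (toFrac R) := IsFractionRing.injective R (FractionRing R)

lemma toFrac_ne_zero {m : ℕ} {x : Fin m → R} (hx : x ≠ 0) : (fun i => toFrac R (x i)) ≠ 0 := by
  intro h
  apply hx
  funext i
  exact toFrac_injective (by rw [Pi.zero_apply, map_zero]; exact congrFun h i)

omit [IsDomain R] in
lemma aeval_map {ι : Type*} {S : Type*} [CommRing S] [Algebra ℂ S] (φ : R →ₐ[ℂ] S) (x : ι → R)
    (F : MvPolynomial ι ℂ) : aeval (fun i => φ (x i)) F = φ (aeval x F) :=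
  (MvPolynomial.comp_aeval_apply x φ F).symm

/-- The form vanishes on the Euler vector, for points with coordinates in a domain. -/
theorem TwoForm.IsLocal.euler_domain {σ : TwoForm Y} {a : ℕ}
    {G : MvPolynomial (Fin (N + 1)) ℂ} {A : Fin (N + 1) → Fin (N + 1) → MvPolynomial (Fin (N + 1)) ℂ}
    (h : σ.IsLocal a G A) {x u : Fin (N + 1) → R} (hx : Y.OnCone x) (hG : aeval x G ≠ 0)
    (hx0 : x ≠ 0) (hu : u ∈ Y.Tan x) : bil A x x u = 0 := by
  apply toFrac_injective
  rw [← bil_map, map_zero]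
  refine h.euler ⟨toFrac_ne_zero hx0, hx.map (toFrac R)⟩ ?_ (ProjVar.tan_map _ hu)
  rw [aeval_map]
  intro h0
  exact hG (toFrac_injective (by rw [h0, map_zero]))

theorem TwoForm.IsLocal.euler_right_domain {σ : TwoForm Y} {a : ℕ}
    {G : MvPolynomial (Fin (N + 1)) ℂ} {A : Fin (N + 1) → Fin (N + 1) → MvPolynomial (Fin (N + 1)) ℂ}
    (h : σ.IsLocal a G A) {x u : Fin (N + 1) → R} (hx : Y.OnCone x) (hG : aeval x G ≠ 0)
    (hx0 : x ≠ 0) (hu : u ∈ Y.Tan x) : bil A x u x = 0 := by
  apply toFrac_injective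
  rw [← bil_map, map_zero]
  refine h.euler_right ⟨toFrac_ne_zero hx0, hx.map (toFrac R)⟩ ?_ (ProjVar.tan_map _ hu)
  rw [aeval_map]
  intro h0
  exact hG (toFrac_injective (by rw [h0, map_zero]))

theorem RatMap.PullsBackOn.transfer_domain {f : RatMap Y Y'} {H : MvPolynomial (Fin (N + 1)) ℂ}
    {σ' : TwoForm Y'} {c : ℂ} {σ : TwoForm Y} (hf : f.PullsBackOn H σ' c σ) {a : ℕ}
    {G : MvPolynomial (Fin (N + 1)) ℂ} {A : Fin (N + 1) → Fin (N + 1) → MvPolynomial (Fin (N + 1)) ℂ}
    (h : σ.IsLocal a G A) {a' : ℕ} {G' : MvPolynomial (Fin (N' + 1)) ℂ}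
    {A' : Fin (N' + 1) → Fin (N' + 1) → MvPolynomial (Fin (N' + 1)) ℂ} (h' : σ'.IsLocal a' G' A')
    {x u v : Fin (N + 1) → R} (hx : Y.OnCone x) (hx0 : x ≠ 0) (hH : aeval x H ≠ 0)
    (hG : aeval x G ≠ 0) (hfx : f.app x ≠ 0)
    (hG' : aeval (f.app x) G' ≠ 0) (hu : u ∈ Y.Tan x) (hv : v ∈ Y.Tan x) :
    aeval x G * bil A' (f.app x) (f.dapp x u) (f.dapp x v) =
      algebraMap ℂ R c * aeval (f.app x) G' * bil A x u v := by
  have e0 := f.app_map (toFrac R) x
  have eu := f.dapp_map (toFrac R) x u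
  have ev := f.dapp_map (toFrac R) x v
  have h1 := hf.transfer h h' (x := fun i => toFrac R (x i)) (u := fun i => toFrac R (u i))
    (v := fun i => toFrac R (v i)) ⟨toFrac_ne_zero hx0, hx.map (toFrac R)⟩
    (by
      rw [aeval_map]
      intro h0
      exact hH (toFrac_injective (by rw [h0, map_zero])))
    (by
      rw [aeval_map]
      intro h0
      exact hG (toFrac_injective (by rw [h0, map_zero])))
    (by
      rw [e0]
      exact toFrac_ne_zero hfx)
    (by
      rw [e0, aeval_map]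
      intro h0
      exact hG' (toFrac_injective (by rw [h0, map_zero])))
    (ProjVar.tan_map _ hu) (ProjVar.tan_map _ hv)
  rw [e0, eu, ev, aeval_map, aeval_map, bil_map, bil_map, ← map_mul] at h1
  apply toFrac_injective
  rw [h1, map_mul, map_mul, AlgHom.commutes]

/-- The comparison of the values of the forms on the derivatives of `x` and of `x'`, if
`f (x) = g x'`. -/
theorem RatMap.PullsBackOn.compare {f : RatMap Y Y'} {H : MvPolynomial (Fin (N + 1)) ℂ}
    {σ' : TwoForm Y'} {c : ℂ} {σ : TwoForm Y} (hf : f.PullsBackOn H σ' c σ) {a : ℕ}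
    {G : MvPolynomial (Fin (N + 1)) ℂ} {A : Fin (N + 1) → Fin (N + 1) → MvPolynomial (Fin (N + 1)) ℂ}
    (h : σ.IsLocal a G A) {a' : ℕ} {G' : MvPolynomial (Fin (N' + 1)) ℂ}
    {A' : Fin (N' + 1) → Fin (N' + 1) → MvPolynomial (Fin (N' + 1)) ℂ} (h' : σ'.IsLocal a' G' A')
    {x : Fin (N + 1) → R} (hx : Y.OnCone x) (hx0 : x ≠ 0) (hH : aeval x H ≠ 0)
    (hG : aeval x G ≠ 0) {g : R}
    (hg : g ≠ 0) {x' : Fin (N' + 1) → R} (hx'0 : x' ≠ 0) (hfx : f.app x = g • x')
    (hG' : aeval x' G' ≠ 0) (δ₁ δ₂ : Derivation ℂ R R) (h₁ : δ₁ g = 0) (h₂ : δ₂ g = 0) :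
    aeval x G * bil A' x' (fun i => δ₁ (x' i)) (fun i => δ₂ (x' i)) =
      algebraMap ℂ R c * aeval x' G' * bil A x (fun i => δ₁ (x i)) (fun i => δ₂ (x i)) := by
  have e1 : ∀ δ : Derivation ℂ R R, δ g = 0 →
      f.dapp x (fun i => δ (x i)) = g • fun i => δ (x' i) := by
    intro δ hδ
    rw [f.dapp_der, hfx]
    funext j
    simp only [Pi.smul_apply, smul_eq_mul, Derivation.leibniz, hδ, mul_zero, add_zero]
  have h1 := hf.transfer_domain h h' hx hx0 hH hG
    (by
      rw [hfx]
      intro h0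
      rcases smul_eq_zero.1 h0 with h3 | h3
      · exact hg h3
      · exact hx'0 h3)
    (by
      rw [hfx, aeval_smul_of_homog h'.hG]
      exact mul_ne_zero (pow_ne_zero _ hg) hG')
    (hx.der_mem_tan δ₁) (hx.der_mem_tan δ₂)
  rw [e1 δ₁ h₁, e1 δ₂ h₂, hfx, aeval_smul_of_homog h'.hG, bil_smul_point A' h'.hA,
    bil_smul_left, bil_smul_right] at h1
  have h3 : g ^ (a' + 2) ≠ 0 := pow_ne_zero _ hg
  apply mul_left_cancel₀ h3
  linear_combination h1

end domain

section gram

variable {κ : Type*} [Field κ] [Algebra ℂ κ] {Y : ProjVar N} {ι : Type*} [Fintype ι]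
  [DecidableEq ι]

/-- The Gram determinant of a nondegenerate form on a basis is not zero. -/
theorem TwoForm.IsLocal.gram_ne_zero {σ : TwoForm Y} (hσ : σ.Nondegenerate) {a : ℕ}
    {G : MvPolynomial (Fin (N + 1)) ℂ} {A : Fin (N + 1) → Fin (N + 1) → MvPolynomial (Fin (N + 1)) ℂ}
    (h : σ.IsLocal a G A) {w : Fin (N + 1) → κ} (hw : w ∈ Y.Pts κ) (hG : aeval w G ≠ 0)
    (b : ι → Fin (N + 1) → κ) (hb : ∀ i, b i ∈ Y.Tan w)
    (hli : LinearIndependent κ (fun o : Option ι => o.elim w b))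
    (hfin : Module.finrank κ (Y.tanSub w) ≤ Fintype.card ι + 1) :
    (Matrix.of fun i j => bil A w (b i) (b j)).det ≠ 0 := by
  intro hdet
  obtain ⟨c, hc0, hc⟩ := Matrix.exists_mulVec_eq_zero_iff.2 hdet
  set u : Fin (N + 1) → κ := ∑ j, c j • b j with hu
  have hu1 : u ∈ Y.tanSub w := Submodule.sum_mem _ fun j _ => Submodule.smul_mem _ _ (hb j)
  have hu2 : ∀ i, bil A w (b i) u = 0 := by
    intro i
    have := congrFun hc i
    rw [Matrix.mulVec, Pi.zero_apply] at this
    rw [← this, hu, ← bilMap_apply, map_sum]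
    refine Finset.sum_congr rfl fun j _ => ?_
    rw [map_smul, bilMap_apply, smul_eq_mul, mul_comm]
    rfl
  -- the basis spans
  have hspan : Y.tanSub w ≤ Submodule.span κ (Set.range fun o : Option ι => o.elim w b) := by
    have h1 : Submodule.span κ (Set.range fun o : Option ι => o.elim w b) ≤ Y.tanSub w := by
      rw [Submodule.span_le]
      rintro _ ⟨o, rfl⟩
      cases o with
      | none => exact ProjVar.OnCone.self_mem_tan hw.2
      | some i => exact hb i
    have h2 := finrank_span_eq_card hli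
    rw [Fintype.card_option] at h2
    exact (Submodule.eq_of_le_of_finrank_le h1 (by rw [h2]; exact hfin)).ge
  have hu3 : ∀ v ∈ Y.Tan w, bil A w u v = 0 := by
    intro v hv
    rw [h.skew hw hG hu1 hv, neg_eq_zero]
    have hv' := hspan hv
    refine Submodule.span_induction (p := fun v _ => bil A w v u = 0) ?_ ?_ ?_ ?_ hv'
    · rintro _ ⟨o, rfl⟩
      cases o with
      | none => exact h.euler hw hG hu1
      | some i => exact hu2 i
    · exact LinearMap.map_zero₂ (bilMap A w) u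
    · intro x y _ _ h1 h2
      rw [bil_add_left, h1, h2, add_zero]
    · intro t x _ h1
      rw [bil_smul_left, h1, mul_zero]
  obtain ⟨s, hs⟩ := h.nondeg hσ hw hG hu1 hu3
  have h4 := Fintype.linearIndependent_iff.1 hli (fun o => o.elim (-s) c) (by
    rw [Fintype.sum_option]
    simp only [Option.elim_none, Option.elim_some]
    rw [← hu, hs]
    simp)
  exact hc0 (funext fun i => h4 (some i))

end gram

end Pool.Agent.Helper397.HK
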