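import Pool.Agent.Helper397.HK.Basic

/-!
# Specialization of points with coordinates in extensions of `ℂ`
-/

set_option autoImplicit false

open MvPolynomial

namespace Pool.Agent.Helper397.HK

variable {N N' : ℕ}

/-- A finitely generated algebra over `ℂ` which is not zero has a homomorphism to `ℂ`. -/
theorem exists_hom_of_finiteType (A : Type*) [CommRing A] [Algebra ℂ A] [Nontrivial A]
    [Algebra.FiniteType ℂ A] : Nonempty (A →ₐ[ℂ] ℂ) := by
  obtain ⟨m, hm⟩ := Ideal.exists_maximal A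
  let _ := Ideal.Quotient.field m
  have : Algebra.FiniteType ℂ (A ⧸ m) := inferInstance
  have := finite_of_finite_type_of_isJacobsonRing ℂ (A ⧸ m)
  have : Algebra.IsAlgebraic ℂ (A ⧸ m) := Algebra.IsAlgebraic.of_finite ℂ _
  have hb : Function.Bijective (algebraMap ℂ (A ⧸ m)) :=
    IsAlgClosed.algebraMap_bijective_of_isIntegral
  let e : ℂ ≃ₐ[ℂ] (A ⧸ m) := AlgEquiv.ofBijective (Algebra.ofId ℂ (A ⧸ m)) hb
  exact ⟨e.symm.toAlgHom.comp (Ideal.Quotient.mkₐ ℂ m)⟩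

/-- **Specialization.** Finitely many elements of an extension of `ℂ` can be specialized to
complex numbers, such that the nonzero elements of a finite set do not become zero. -/
theorem exists_spec {K : Type*} [Field K] [Algebra ℂ K] (S : Set K) (hS : S.Finite) :
    ∃ (A : Subalgebra ℂ K) (ψ : A →ₐ[ℂ] ℂ), S ⊆ A ∧ ∀ (s : K) (hs : s ∈ A), s ∈ S → s ≠ 0 →
      ψ ⟨s, hs⟩ ≠ 0 := by
  classical
  let T : Set K := S ∪ (fun s => s⁻¹) '' S
  have hT : T.Finite := hS.union (hS.image _)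
  have : Algebra.FiniteType ℂ (Algebra.adjoin ℂ T) :=
    (Subalgebra.fg_iff_finiteType _).1 ⟨hT.toFinset, by simp⟩
  obtain ⟨ψ⟩ := exists_hom_of_finiteType (Algebra.adjoin ℂ T)
  refine ⟨Algebra.adjoin ℂ T, ψ, fun s hs => Algebra.subset_adjoin (Or.inl hs), ?_⟩
  intro s hs hsS hs0 h
  have h1 : s⁻¹ ∈ Algebra.adjoin ℂ T := Algebra.subset_adjoin (Or.inr ⟨s, hsS, rfl⟩)
  have h2 : (⟨s, hs⟩ : Algebra.adjoin ℂ T) * ⟨s⁻¹, h1⟩ = 1 := Subtype.ext (mul_inv_cancel₀ hs0)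
  have h3 := congrArg ψ h2
  rw [map_mul, h, zero_mul, map_one] at h3
  exact zero_ne_one h3

/-- A point of `Y` over a field has a specialization. -/
theorem ProjVar.exists_pt (Y : ProjVar N) {K : Type*} [Field K] [Algebra ℂ K]
    (x : Fin (N + 1) → K) (hx : x ∈ Y.Pts K) : ∃ p, p ∈ Y.Pts ℂ := by
  obtain ⟨A, ψ, hA, hψ⟩ := exists_spec (Set.range x) (Set.finite_range x)
  let y : Fin (N + 1) → A := fun i => ⟨x i, hA ⟨i, rfl⟩⟩
  have hy : Y.OnCone y := ProjVar.OnCone.of_injective A.val Subtype.val_injective hx.2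
  refine ⟨fun i => ψ (y i), ?_, hy.map ψ⟩
  obtain ⟨i, hi⟩ := Function.ne_iff.1 hx.1
  intro h
  exact hψ (x i) (hA ⟨i, rfl⟩) ⟨i, rfl⟩ hi (congrFun h i)

end Pool.Agent.Helper397.HK
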