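import Pool.Agent.Helper397.HK.CurveA
import Pool.Agent.Helper397.HK.Spec
import Pool.Agent.Helper397.HK.Gram

/-!
# Places of function fields of curves, zeros of functions and values of points
-/

set_option autoImplicit false

open MvPolynomial

namespace Pool.Agent.Helper397.HK

variable {N N' : ℕ}

/-- The values of points on the cone are on the cone. -/
lemma onCone_of_residue {B : Type*} [CommRing B] [Algebra ℂ B] (P : Ideal B) (hP : P ≠ ⊤)
    {Y : ProjVar N} {z : Fin (N + 1) → B} (hz : Y.OnCone z) {p : Fin (N + 1) → ℂ}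
    (hp : ∀ i, z i - algebraMap ℂ B (p i) ∈ P) : Y.OnCone p := by
  intro F hF
  have h4 := MvPolynomial.comp_aeval_apply z (Ideal.Quotient.mkₐ ℂ P) F
  rw [hz F hF, map_zero] at h4
  have h5 : (fun i => Ideal.Quotient.mkₐ ℂ P (z i)) = fun i => algebraMap ℂ (B ⧸ P) (p i) := by
    funext i
    exact Ideal.Quotient.eq.2 (hp i)
  rw [h5] at h4
  have h6 := MvPolynomial.comp_aeval_apply p (Algebra.ofId ℂ (B ⧸ P)) F
  have h7 : algebraMap ℂ (B ⧸ P) (aeval p F) = 0 := by
    rw [h4]
    exact h6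
  have hnt : Nontrivial (B ⧸ P) := Ideal.Quotient.nontrivial_iff.2 hP
  exact (algebraMap ℂ (B ⧸ P)).injective (by rw [h7, map_zero])

lemma dvr_cond {R : Type*} [CommRing R] [IsDomain R] [IsDiscreteValuationRing R] (a b : R) :
    ∃ c, a * c = b ∨ b * c = a := ValuationRing.cond a b

section aff

variable {K : Type} [Field K] [Algebra ℂ K]

lemma isPrincipal_adjoin (u : K) : IsPrincipalIdealRing (Algebra.adjoin ℂ {u}) := by
  let φ : Polynomial ℂ →+* Algebra.adjoin ℂ {u} :=
    (Polynomial.aeval u : Polynomial ℂ →ₐ[ℂ] K).toRingHom.codRestrict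
      (Algebra.adjoin ℂ {u}).toSubring (fun p => by
        change Polynomial.aeval u p ∈ Algebra.adjoin ℂ {u}
        rw [Algebra.adjoin_singleton_eq_range_aeval]
        exact ⟨p, rfl⟩)
  apply IsPrincipalIdealRing.of_surjective φ
  rintro ⟨x, hx⟩
  have hx' := hx
  rw [Algebra.adjoin_singleton_eq_range_aeval] at hx'
  obtain ⟨p, hp⟩ := hx'
  exact ⟨p, Subtype.ext hp⟩

open scoped IntermediateField.algebraAdjoinAdjoin in
/-- The ring of functions with poles at the poles of `u` is a Dedekind domain. -/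
theorem isDedekind_aff (hK : CurveField K) {u : K} (hu : Transcendental ℂ u) :
    IsDedekindDomain (Aff u) ∧ Module.Finite (Algebra.adjoin ℂ {u}) (Aff u) ∧
      IsFractionRing (Aff u) K := by
  have h1 := isPrincipal_adjoin u
  have h2 := hK.finite hu
  have hchar : CharZero (IntermediateField.adjoin ℂ {u}) :=
    charZero_of_injective_algebraMap (algebraMap ℂ (IntermediateField.adjoin ℂ {u})).injective
  have h3 : IsDedekindDomain (Aff u) :=
    integralClosure.isDedekindDomain (Algebra.adjoin ℂ {u}) (IntermediateField.adjoin ℂ {u}) K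
  have h4 : Module.Finite (Algebra.adjoin ℂ {u}) (Aff u) :=
    IsIntegralClosure.finite (Algebra.adjoin ℂ {u}) (IntermediateField.adjoin ℂ {u}) K (Aff u)
  have h5 : IsFractionRing (Aff u) K :=
    integralClosure.isFractionRing_of_finite_extension (IntermediateField.adjoin ℂ {u}) K
  exact ⟨h3, h4, h5⟩

/-- The residue fields are `ℂ`. -/
theorem exists_residue (hK : CurveField K) {u : K} (hu : Transcendental ℂ u)
    (P : Ideal (Aff u)) [hP : P.IsMaximal] (b : Aff u) :
    ∃ c : ℂ, b - algebraMap ℂ (Aff u) c ∈ P := by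
  obtain ⟨-, h2, -⟩ := isDedekind_aff hK hu
  have h1 : Algebra.FiniteType ℂ (Algebra.adjoin ℂ {u}) :=
    (Subalgebra.fg_iff_finiteType _).1 ⟨{u}, by simp⟩
  have h3 : Algebra.FiniteType ℂ (Aff u) :=
    Algebra.FiniteType.trans (S := Algebra.adjoin ℂ {u}) h1 inferInstance
  let _ := Ideal.Quotient.field P
  have : Algebra.FiniteType ℂ (Aff u ⧸ P) := inferInstance
  have := finite_of_finite_type_of_isJacobsonRing ℂ (Aff u ⧸ P)
  have : Algebra.IsAlgebraic ℂ (Aff u ⧸ P) := Algebra.IsAlgebraic.of_finite ℂ _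
  have hb : Function.Bijective (algebraMap ℂ (Aff u ⧸ P)) :=
    IsAlgClosed.algebraMap_bijective_of_isIntegral
  obtain ⟨c, hc⟩ := hb.2 (Ideal.Quotient.mk P b)
  exact ⟨c, Ideal.Quotient.eq.1 (by rw [← hc]; rfl)⟩

/-- The ideal of the valuation ring `V` in the subring `B`. -/
def centre {S : Type*} [SetLike S K] [SubringClass S K] (B : S) (V : ValuationSubring K)
    (hB : ∀ b : B, (b : K) ∈ V) : Ideal B where
  carrier := {b | (b : K) ∈ V.nonunits}
  add_mem' := by
    intro a b ha hb
    change ((a + b : B) : K) ∈ V.nonunits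
    exact V.nonunits.add_mem ha hb
  zero_mem' := V.nonunits.zero_mem
  smul_mem' := by
    intro c x hx
    change ((c * x : B) : K) ∈ V.nonunits
    have hx' : (x : K) ∈ V.nonunits := hx
    rw [ValuationSubring.mem_nonunits_iff] at hx' ⊢
    have h1 : ((c * x : B) : K) = (c : K) * (x : K) := rfl
    rw [h1, map_mul]
    have h2 : V.valuation (c : K) ≤ 1 := (V.valuation_le_one_iff _).2 (hB c)
    exact lt_of_le_of_lt (mul_le_of_le_one_left' h2) hx'

omit [Algebra ℂ K] in
lemma mem_centre {S : Type*} [SetLike S K] [SubringClass S K] {B : S} {V : ValuationSubring K}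
    {hB : ∀ b : B, (b : K) ∈ V} {b : B} : b ∈ centre B V hB ↔ (b : K) ∈ V.nonunits := Iff.rfl

omit [Algebra ℂ K] in
lemma nonunits_mul {V : ValuationSubring K} {x y : K} (hx : x ∈ V) (hy : y ∈ V.nonunits) :
    x * y ∈ V.nonunits := by
  rw [ValuationSubring.mem_nonunits_iff] at hy ⊢
  rw [map_mul]
  exact lt_of_le_of_lt (mul_le_of_le_one_left' ((V.valuation_le_one_iff _).2 hx)) hy

omit [Algebra ℂ K] in
lemma nonunits_prime {V : ValuationSubring K} {x y : K} (hx : x ∈ V) (hy : y ∈ V)
    (h : x * y ∈ V.nonunits) : x ∈ V.nonunits ∨ y ∈ V.nonunits := by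
  rw [← V.valuation_le_one_iff] at hx hy
  simp only [ValuationSubring.mem_nonunits_iff] at h ⊢
  by_contra hcon
  push Not at hcon
  have h1 : V.valuation x = 1 := le_antisymm hx hcon.1
  have h2 : V.valuation y = 1 := le_antisymm hy hcon.2
  rw [map_mul, h1, h2, one_mul] at h
  exact lt_irrefl _ h

omit [Algebra ℂ K] in
lemma one_notMem_nonunits (V : ValuationSubring K) : (1 : K) ∉ V.nonunits := by
  rw [ValuationSubring.mem_nonunits_iff, map_one]
  exact lt_irrefl _

omit [Algebra ℂ K] in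
lemma nonunits_le {V : ValuationSubring K} {x : K} (hx : x ∈ V.nonunits) : x ∈ V := by
  rw [ValuationSubring.mem_nonunits_iff] at hx
  exact (V.valuation_le_one_iff _).1 hx.le

omit [Algebra ℂ K] in
lemma inv_mem_of_notMem {V : ValuationSubring K} {x : K} (hx : x ∉ V) : x⁻¹ ∈ V.nonunits := by
  have hx0 : x ≠ 0 := by
    rintro rfl
    exact hx V.zero_mem
  rw [ValuationSubring.mem_nonunits_iff, map_inv₀]
  rw [← V.valuation_le_one_iff, not_le] at hx
  exact inv_lt_one_of_one_lt₀ hx

omit [Algebra ℂ K] in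
lemma inv_mem_of_notMem_nonunits {V : ValuationSubring K} {x : K} (hx : x ∉ V.nonunits) :
    x⁻¹ ∈ V := by
  rw [ValuationSubring.mem_nonunits_iff, not_lt] at hx
  rw [← V.valuation_le_one_iff, map_inv₀]
  exact inv_le_one_of_one_le₀ hx

omit [Algebra ℂ K] in
lemma centre_isPrime {S : Type*} [SetLike S K] [SubringClass S K] (B : S)
    (V : ValuationSubring K) (hB : ∀ b : B, (b : K) ∈ V) : (centre B V hB).IsPrime := by
  refine ⟨fun h => ?_, fun {a b} hab => ?_⟩
  · have h1 : (1 : B) ∈ centre B V hB := by rw [h]; trivial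
    exact one_notMem_nonunits V h1
  · exact nonunits_prime (hB a) (hB b) hab

lemma C_mem_of_aff {u : K} {V : ValuationSubring K} (hB : ∀ b : Aff u, (b : K) ∈ V) (c : ℂ) :
    algebraMap ℂ K c ∈ V := hB (algebraMap ℂ (Aff u) c)

lemma C_notMem_nonunits {V : ValuationSubring K} (hC : ∀ c : ℂ, algebraMap ℂ K c ∈ V) {c : ℂ}
    (hc : algebraMap ℂ K c ∈ V.nonunits) : c = 0 := by
  by_contra h0
  have h1 := nonunits_mul (hC c⁻¹) hc
  rw [← map_mul, inv_mul_cancel₀ h0, map_one] at h1
  exact one_notMem_nonunits V h1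

/-- The elements of a place are quotients, with a denominator which is not zero at the place. -/
theorem exists_quotient (hK : CurveField K) {u : K} (hu : Transcendental ℂ u)
    {V : ValuationSubring K} (hB : ∀ b : Aff u, (b : K) ∈ V) (hV : centre (Aff u) V hB ≠ ⊥)
    {x : K} (hx : x ∈ V) :
    ∃ β δ : Aff u, (δ : K) ∉ V.nonunits ∧ x * δ = β := by
  obtain ⟨h1, -, h3⟩ := isDedekind_aff hK hu
  have hprime := centre_isPrime (Aff u) V hB
  set P := centre (Aff u) V hB with hP
  obtain ⟨a, b, hb, rfl⟩ := IsFractionRing.div_surjective (A := Aff u) x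
  have hb0 : (b : Aff u) ≠ 0 := nonZeroDivisors.ne_zero hb
  have hbK : ((b : Aff u) : K) ≠ 0 := fun h => hb0 (Subtype.ext h)
  have hdvr : IsDiscreteValuationRing (Localization.AtPrime P) :=
    IsLocalization.AtPrime.isDiscreteValuationRing_of_dedekind_domain (Aff u) hV _
  have hdom : IsDomain (Localization.AtPrime P) :=
    IsLocalization.isDomain_localization P.primeCompl_le_nonZeroDivisors
  have hinj : Function.Injective (algebraMap (Aff u) (Localization.AtPrime P)) :=
    IsLocalization.injective (Localization.AtPrime P) P.primeCompl_le_nonZeroDivisors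
  change ((a : Aff u) : K) / (b : K) ∈ V at hx
  change ∃ β δ : Aff u, (δ : K) ∉ V.nonunits ∧ (a : K) / (b : K) * δ = β
  have hcase : ∀ a b : Aff u, (∃ c : Localization.AtPrime P,
      algebraMap _ _ a * c = algebraMap _ _ b) → ∃ γ δ : Aff u, δ ∉ P ∧ a * γ = b * δ := by
    rintro a b ⟨c, hc⟩
    obtain ⟨γ, δ, rfl⟩ := IsLocalization.exists_mk'_eq P.primeCompl c
    refine ⟨γ, δ, δ.2, hinj ?_⟩
    rw [map_mul, map_mul, ← hc, mul_assoc, IsLocalization.mk'_spec]
  obtain ⟨c, h | h⟩ := dvr_cond (R := Localization.AtPrime P)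
    (algebraMap (Aff u) (Localization.AtPrime P) a)
    (algebraMap (Aff u) (Localization.AtPrime P) b)
  · obtain ⟨γ, δ, hδ, hγδ⟩ := hcase a b ⟨c, h⟩
    by_cases hγ : γ ∈ P
    · exfalso
      -- `b δ = a γ`
      have h4 : (δ : K) = (a : K) / (b : K) * (γ : K) := by
        have h5 : (a : K) * (γ : K) = (b : K) * (δ : K) := congrArg Subtype.val hγδ
        field_simp
        linear_combination -h5
      apply hδ
      change (δ : K) ∈ V.nonunits
      rw [h4]
      exact nonunits_mul hx hγ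
    · refine ⟨δ, γ, hγ, ?_⟩
      have h5 : (a : K) * (γ : K) = (b : K) * (δ : K) := congrArg Subtype.val hγδ
      field_simp
      linear_combination h5
  · obtain ⟨γ, δ, hδ, hγδ⟩ := hcase b a ⟨c, h⟩
    refine ⟨γ, δ, hδ, ?_⟩
    have h5 : (b : K) * (γ : K) = (a : K) * (δ : K) := congrArg Subtype.val hγδ
    field_simp
    linear_combination -h5

/-- Two places with the same centre are equal. -/
theorem le_of_centre (hK : CurveField K) {u : K} (hu : Transcendental ℂ u)
    {V V' : ValuationSubring K} (hB : ∀ b : Aff u, (b : K) ∈ V) (hB' : ∀ b : Aff u, (b : K) ∈ V')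
    (hV : centre (Aff u) V hB ≠ ⊥) (h : ∀ b : Aff u, (b : K) ∈ V'.nonunits → (b : K) ∈ V.nonunits) :
    V ≤ V' := by
  intro x hx
  obtain ⟨β, δ, hδ, hx'⟩ := exists_quotient hK hu hB hV hx
  have h1 : (δ : K) ∉ V'.nonunits := fun h0 => hδ (h δ h0)
  have h2 : (δ : K) ≠ 0 := by
    intro h0
    apply h1
    rw [h0]
    exact V'.nonunits.zero_mem
  have h3 : x = (β : K) * (δ : K)⁻¹ := by
    rw [← hx', mul_assoc, mul_inv_cancel₀ h2, mul_one]
  rw [h3]
  exact V'.mul_mem _ _ (hB' β) (inv_mem_of_notMem_nonunits h1)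

/-- Normalization of a vector at a place. -/
theorem exists_normal (hK : CurveField K) {u : K} (hu : Transcendental ℂ u)
    {V : ValuationSubring K} (hB : ∀ b : Aff u, (b : K) ∈ V) (hV : centre (Aff u) V hB ≠ ⊥)
    {m : ℕ} (y : Fin m → K) (hy : y ≠ 0) :
    ∃ (c : K) (z : Fin m → Aff u), c ≠ 0 ∧ (∀ i, (z i : K) = c * y i) ∧
      ∃ i, (z i : K) ∉ V.nonunits := by
  classical
  obtain ⟨i₁, hi₁⟩ := Function.ne_iff.1 hy
  have : Nonempty (Fin m) := ⟨i₁⟩
  obtain ⟨i₀, hi₀⟩ := Finite.exists_max (fun i => V.valuation (y i))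
  have hyi₀ : y i₀ ≠ 0 := by
    intro h
    have h1 := hi₀ i₁
    simp only [h, map_zero, le_zero_iff] at h1
    exact hi₁ ((map_eq_zero _).1 h1)
  have hx : ∀ i, y i / y i₀ ∈ V := by
    intro i
    rw [← V.valuation_le_one_iff, map_div₀]
    have h1 : V.valuation (y i₀) ≠ 0 := (map_ne_zero _).2 hyi₀
    rw [div_le_one₀ (zero_lt_iff.2 h1)]
    exact hi₀ i
  choose β δ hδ hβ using fun i => exists_quotient hK hu hB hV (hx i)
  have hprod : ((∏ i, δ i : Aff u) : K) ∉ V.nonunits := by
    have hprime := centre_isPrime (Aff u) V hB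
    intro h
    have h1 : (∏ i, δ i) ∈ centre (Aff u) V hB := h
    obtain ⟨i, -, hi⟩ := (hprime.prod_mem_iff).1 h1
    exact hδ i hi
  have hprod0 : ((∏ i, δ i : Aff u) : K) ≠ 0 := by
    intro h0
    apply hprod
    rw [h0]
    exact V.nonunits.zero_mem
  have hz : ∀ i, ((β i * ∏ l ∈ Finset.univ.erase i, δ l : Aff u) : K) =
      ((∏ i, δ i : Aff u) : K) / y i₀ * y i := by
    intro i
    have h1 : (∏ i, δ i : Aff u) = δ i * ∏ l ∈ Finset.univ.erase i, δ l :=
      (Finset.mul_prod_erase _ _ (Finset.mem_univ i)).symm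
    rw [h1]
    change (β i : K) * ((∏ l ∈ Finset.univ.erase i, δ l : Aff u) : K) =
      ((δ i : K) * ((∏ l ∈ Finset.univ.erase i, δ l : Aff u) : K)) / y i₀ * y i
    rw [← hβ i]
    field_simp
  refine ⟨((∏ i, δ i : Aff u) : K) / y i₀, fun i => β i * ∏ l ∈ Finset.univ.erase i, δ l,
    div_ne_zero hprod0 hyi₀, hz, i₀, ?_⟩
  rw [hz, div_mul_cancel₀ _ hyi₀]
  exact hprod

/-- The place with a given centre. -/
theorem exists_place_of_maximal {u : K} (P : Ideal (Aff u)) (hP : P.IsMaximal) :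
    ∃ (V : ValuationSubring K) (hB : ∀ b : Aff u, (b : K) ∈ V), centre (Aff u) V hB = P := by
  let P' : Ideal (Aff u).toSubring := P
  have hP' : P' ≠ ⊤ := hP.ne_top
  obtain ⟨V, hV, hVP⟩ := Ideal.image_subset_nonunits_valuationSubring P' hP'
  have hB : ∀ b : Aff u, (b : K) ∈ V := fun b => hV b.2
  refine ⟨V, hB, ?_⟩
  refine (hP.eq_of_le (centre_isPrime (Aff u) V hB).ne_top ?_).symm
  intro b hb
  exact hVP ⟨b, hb, rfl⟩

/-- Values of points at the places. -/
theorem exists_value (hK : CurveField K) {u : K} (hu : Transcendental ℂ u) (P : Ideal (Aff u))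
    (hP : P.IsMaximal) (hP0 : P ≠ ⊥) {Y : ProjVar N} {y : Fin (N + 1) → K} (hy : y ∈ Y.Pts K) :
    ∃ p : Y.Pts ℂ, ValueAt u y P p.1 := by
  obtain ⟨V, hB, hV⟩ := exists_place_of_maximal P hP
  obtain ⟨c, z, hc, hz, i, hi⟩ := exists_normal hK hu hB (by rw [hV]; exact hP0) y hy.1
  choose p hp using fun i => exists_residue hK hu P (z i)
  refine ⟨⟨p, ?_, ?_⟩, c, z, hc, hz, hp⟩
  · intro h0
    apply hi
    have h1 := hp i
    rw [h0, Pi.zero_apply, map_zero, sub_zero, ← hV] at h1
    exact h1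
  · intro F hF
    have h1 : Y.OnCone z := by
      intro G hG
      apply Subtype.val_injective
      have h2 : ((aeval z G : Aff u) : K) = aeval (fun i => (z i : K)) G := by
        have := MvPolynomial.comp_aeval_apply z ((Aff u).val.restrictScalars ℂ) G
        exact this
      rw [h2]
      have h3 : (fun i => (z i : K)) = c • y := funext hz
      rw [h3]
      exact ProjVar.OnCone.smul hy.2 c G hG
    exact onCone_of_residue P hP.ne_top h1 hp F hF

/-- The factorization of the ideal of zeros. -/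
theorem exists_factors (hK : CurveField K) {u : K} (hu : Transcendental ℂ u) :
    ∃ (r : ℕ) (P : Fin r → Ideal (Aff u)), (∀ j, (P j).IsMaximal) ∧ (∀ j, P j ≠ ⊥) ∧
      ∏ j, P j = Ideal.span {b : Aff u | (b : K) = u} := by
  classical
  obtain ⟨h1, -, -⟩ := isDedekind_aff hK hu
  have hmem : u ∈ Aff u := by
    have h2 : u ∈ Algebra.adjoin ℂ {u} := Algebra.self_mem_adjoin_singleton ℂ u
    exact (Aff u).algebraMap_mem (⟨u, h2⟩ : Algebra.adjoin ℂ {u})
  have hne : Ideal.span {b : Aff u | (b : K) = u} ≠ ⊥ := by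
    intro h
    have h2 : (⟨u, hmem⟩ : Aff u) ∈ Ideal.span {b : Aff u | (b : K) = u} :=
      Ideal.subset_span rfl
    rw [h, Ideal.mem_bot] at h2
    have h3 : u = 0 := congrArg Subtype.val h2
    exact hu (by rw [h3]; exact isAlgebraic_zero)
  obtain ⟨f, hf, hfp⟩ := UniqueFactorizationMonoid.exists_prime_factors _ hne
  have hfp' : f.prod = Ideal.span {b : Aff u | (b : K) = u} := associated_iff_eq.1 hfp
  let L := f.toList
  have hL : ∀ j : Fin L.length, Prime (L.get j) := fun j =>
    hf _ (Multiset.mem_toList.1 (List.get_mem L j))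
  have hL0 : ∀ j : Fin L.length, L.get j ≠ ⊥ := fun j => (hL j).ne_zero
  refine ⟨L.length, fun j => L.get j, fun j => ?_, hL0, ?_⟩
  · have h3 : (L.get j).IsPrime := Ideal.isPrime_of_prime (hL j)
    exact h3.isMaximal (hL0 j)
  · rw [← hfp', ← Multiset.prod_toList, ← List.prod_ofFn]
    congr 1
    exact List.ofFn_get L

end aff

end Pool.Agent.Helper397.HK
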