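import Pool.Agent.Helper397.HK.CurveB

/-!
# A function with prescribed zeros on a curve
-/

set_option autoImplicit false

open MvPolynomial

namespace Pool.Agent.Helper397.HK

variable {N N' : ℕ}

section move

variable {K : Type} [Field K] [Algebra ℂ K]

lemma self_mem_aff (u : K) : u ∈ Aff u :=
  (Aff u).algebraMap_mem (⟨u, Algebra.self_mem_adjoin_singleton ℂ u⟩ : Algebra.adjoin ℂ {u})

lemma aff_le {u : K} {V : ValuationSubring K} (hC : ∀ c : ℂ, algebraMap ℂ K c ∈ V) (hu : u ∈ V)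
    (b : Aff u) : (b : K) ∈ V := by
  refine val_le_of_isIntegral V (Algebra.adjoin ℂ {u}) ?_ b.2
  intro r
  have h1 : Algebra.adjoin ℂ {u} ≤
      { V.toSubring with algebraMap_mem' := hC } := Algebra.adjoin_le (by
        rintro _ rfl
        exact hu)
  exact h1 r.2

lemma aeval_mem {u : K} {V : ValuationSubring K} (hC : ∀ c : ℂ, algebraMap ℂ K c ∈ V) (hu : u ∈ V)
    (p : Polynomial ℂ) : Polynomial.aeval u p ∈ V :=
  aff_le hC hu ⟨Polynomial.aeval u p, (Aff u).algebraMap_mem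
    (⟨Polynomial.aeval u p, Polynomial.aeval_mem_adjoin_singleton ℂ u⟩ : Algebra.adjoin ℂ {u})⟩

/-- Evaluation of polynomials at places. -/
lemma aeval_sub_mem {u : K} {V : ValuationSubring K} (hC : ∀ c : ℂ, algebraMap ℂ K c ∈ V)
    (hu : u ∈ V) {c : ℂ} (hc : u - algebraMap ℂ K c ∈ V.nonunits) (p : Polynomial ℂ) :
    Polynomial.aeval u p - algebraMap ℂ K (p.eval c) ∈ V.nonunits := by
  obtain ⟨q, hq⟩ := Polynomial.X_sub_C_dvd_sub_C_eval (a := c) (p := p)
  have h1 := congrArg (Polynomial.aeval u) hq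
  rw [map_sub, Polynomial.aeval_C, map_mul, map_sub, Polynomial.aeval_X, Polynomial.aeval_C] at h1
  rw [h1, mul_comm]
  exact nonunits_mul (aeval_mem hC hu q) hc

lemma notMem_nonunits_of_sub {V : ValuationSubring K} (hC : ∀ c : ℂ, algebraMap ℂ K c ∈ V) {x : K}
    {c : ℂ} (hc : c ≠ 0) (hx : x - algebraMap ℂ K c ∈ V.nonunits) : x ∉ V.nonunits := by
  intro h
  have h1 := V.nonunits.sub_mem h hx
  rw [sub_sub_cancel] at h1
  exact hc (C_notMem_nonunits hC h1)

/-- **Moving.** There is a function `u` with a zero at `V₀`, such that all the other zeros and all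
the poles of `u` are good places. Here a place is good if `s` has no pole and `π (s)` no
zero there. -/
theorem exists_mover (hK : CurveField K) {s₀ : K} (hs₀ : Transcendental ℂ s₀)
    {V₀ : ValuationSubring K} (hC₀ : ∀ c : ℂ, algebraMap ℂ K c ∈ V₀) (hsV₀ : s₀ ∈ V₀.nonunits)
    {π : Polynomial ℂ} (hπ : π ≠ 0) :
    ∃ u : K, Transcendental ℂ u ∧ u ∈ V₀.nonunits ∧
      (∀ V : ValuationSubring K, (∀ c : ℂ, algebraMap ℂ K c ∈ V) → u ∈ V.nonunits →
        (s₀ ∈ V ∧ Polynomial.aeval s₀ π ∉ V.nonunits) ∨ V = V₀) ∧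
      (∀ V : ValuationSubring K, (∀ c : ℂ, algebraMap ℂ K c ∈ V) → u⁻¹ ∈ V.nonunits →
        (s₀ ∈ V ∧ Polynomial.aeval s₀ π ∉ V.nonunits)) := by
  classical
  -- the change of coordinates
  obtain ⟨c₀, hc₀, hπc⟩ : ∃ c₀ : ℂ, c₀ ≠ 0 ∧ π.eval c₀⁻¹ ≠ 0 := by
    by_contra hcon
    push Not at hcon
    have h1 : (Polynomial.X * π) = 0 := by
      apply Polynomial.funext
      intro x
      rw [Polynomial.eval_mul, Polynomial.eval_X, Polynomial.eval_zero]
      by_cases hx : x = 0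
      · rw [hx, zero_mul]
      · have := hcon x⁻¹ (inv_ne_zero hx)
        rw [inv_inv] at this
        rw [this, mul_zero]
    rcases mul_eq_zero.1 h1 with h2 | h2
    · exact Polynomial.X_ne_zero h2
    · exact hπ h2
  have htr : ∀ p : Polynomial ℂ, p ≠ 0 → Polynomial.aeval s₀ p ≠ 0 := fun p hp h =>
    hp ((transcendental_iff.1 hs₀) p h)
  have hs₀0 : s₀ ≠ 0 := by
    have := htr Polynomial.X Polynomial.X_ne_zero
    rwa [Polynomial.aeval_X] at this
  set γ : K := algebraMap ℂ K c₀ with hγ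
  have hγ0 : γ ≠ 0 := (map_ne_zero _).2 hc₀
  have hden : 1 - γ * s₀ ≠ 0 := by
    have h1 : (1 - Polynomial.C c₀ * Polynomial.X : Polynomial ℂ) ≠ 0 := by
      intro h
      have := congrArg (Polynomial.eval 0) h
      simp at this
    have h2 := htr _ h1
    simpa using h2
  set s : K := s₀ / (1 - γ * s₀) with hs
  have hs1 : 1 + γ * s = 1 / (1 - γ * s₀) := by
    rw [hs]
    field_simp
    ring
  have hs1' : 1 + γ * s ≠ 0 := by
    rw [hs1]
    exact one_div_ne_zero hden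
  have hs₀s : s₀ = s / (1 + γ * s) := by
    rw [hs1, one_div, div_inv_eq_mul, hs, div_mul_cancel₀ _ hden]
  have hstr : Transcendental ℂ s := by
    intro hs'
    apply hs₀
    rw [hs₀s]
    have h1 := hs'.mul (((isAlgebraic_algebraMap (1 : ℂ)).add
      ((isAlgebraic_algebraMap c₀).mul hs')).inv)
    simpa [div_eq_mul_inv] using h1
  -- (i) the poles of `s` are good
  have hi : ∀ V : ValuationSubring K, (∀ c : ℂ, algebraMap ℂ K c ∈ V) → s ∉ V →
      (s₀ ∈ V ∧ Polynomial.aeval s₀ π ∉ V.nonunits) := by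
    intro V hC hsV
    have h1 := inv_mem_of_notMem hsV
    have h2 : s₀⁻¹ = s⁻¹ + γ := by
      rw [hs]
      field_simp
      ring
    have h3 : s₀⁻¹ - algebraMap ℂ K c₀ ∈ V.nonunits := by
      rw [h2, ← hγ, add_sub_cancel_right]
      exact h1
    have h4 := notMem_nonunits_of_sub hC hc₀ h3
    have h5 : s₀ ∈ V := by
      have := inv_mem_of_notMem_nonunits h4
      rwa [inv_inv] at this
    have h6 : s₀ - algebraMap ℂ K c₀⁻¹ ∈ V.nonunits := by
      have h7 : s₀ - algebraMap ℂ K c₀⁻¹ = (-(s₀ * algebraMap ℂ K c₀⁻¹)) * (s₀⁻¹ - algebraMap ℂ K c₀) := by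
        rw [map_inv₀, ← hγ]
        field_simp
        ring
      rw [h7]
      exact nonunits_mul (V.neg_mem _ (V.mul_mem _ _ h5 (hC _))) h3
    refine ⟨h5, notMem_nonunits_of_sub hC hπc (aeval_sub_mem hC h5 h6 π)⟩
  -- (ii) the zeros of `b₁`
  let e := π.natDegree
  let q₁ : Polynomial ℂ := ∑ i ∈ Finset.range (e + 1),
    Polynomial.C (π.coeff i) * Polynomial.X ^ i * (1 + Polynomial.C c₀ * Polynomial.X) ^ (e - i)
  have hq₁ : Polynomial.aeval s q₁ = (1 + γ * s) ^ e * Polynomial.aeval s₀ π := by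
    rw [Polynomial.aeval_eq_sum_range (p := π) s₀, Finset.mul_sum]
    simp only [q₁, map_sum, map_mul, map_pow, map_add, map_one, Polynomial.aeval_C,
      Polynomial.aeval_X]
    refine Finset.sum_congr rfl fun i hi => ?_
    have hie : i + (e - i) = e := by
      have := Finset.mem_range.1 hi
      omega
    rw [Algebra.smul_def, ← hγ]
    have h1 : (1 + γ * s) ^ e = (1 + γ * s) ^ i * (1 + γ * s) ^ (e - i) := by
      rw [← pow_add, hie]
    have h2 : (1 + γ * s) * s₀ = s := by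
      rw [hs1, one_div, hs, div_eq_mul_inv, mul_comm]
    have h3 : (1 + γ * s) ^ i * s₀ ^ i = s ^ i := by
      rw [← mul_pow, h2]
    rw [h1]
    linear_combination (-(algebraMap ℂ K (π.coeff i)) * (1 + γ * s) ^ (e - i)) * h3
  let p₁ : Polynomial ℂ := (1 + Polynomial.C c₀ * Polynomial.X) * q₁
  have hp₁ : Polynomial.aeval s p₁ = (1 + γ * s) * Polynomial.aeval s q₁ := by
    simp only [p₁, map_mul, map_add, map_one, Polynomial.aeval_C, Polynomial.aeval_X]
    rfl
  let b₁ : Aff s := ⟨Polynomial.aeval s p₁, (Aff s).algebraMap_mem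
    (⟨Polynomial.aeval s p₁, Polynomial.aeval_mem_adjoin_singleton ℂ s⟩ : Algebra.adjoin ℂ {s})⟩
  have hb₁K : (b₁ : K) ≠ 0 := by
    change Polynomial.aeval s p₁ ≠ 0
    rw [hp₁, hq₁]
    exact mul_ne_zero hs1' (mul_ne_zero (pow_ne_zero _ hs1') (htr π hπ))
  have hb₁ : b₁ ≠ 0 := fun h => hb₁K (congrArg Subtype.val h)
  have hii : ∀ V : ValuationSubring K, (∀ c : ℂ, algebraMap ℂ K c ∈ V) → s ∈ V →
      (b₁ : K) ∉ V.nonunits → (s₀ ∈ V ∧ Polynomial.aeval s₀ π ∉ V.nonunits) := by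
    intro V hC hsV hbV
    have h1 : (b₁ : K) = (1 + γ * s) * Polynomial.aeval s q₁ := hp₁
    have h2 : 1 + γ * s ∈ V := V.add_mem _ _ V.one_mem (V.mul_mem _ _ (hC _) hsV)
    have h3 : Polynomial.aeval s q₁ ∈ V := aeval_mem hC hsV q₁
    rw [h1] at hbV
    have h4 : 1 + γ * s ∉ V.nonunits := fun h => hbV (by
      rw [mul_comm]; exact nonunits_mul h3 h)
    have h5 : Polynomial.aeval s q₁ ∉ V.nonunits := fun h => hbV (nonunits_mul h2 h)
    have h6 : s₀ ∈ V := by
      rw [hs₀s, div_eq_mul_inv]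
      exact V.mul_mem _ _ hsV (inv_mem_of_notMem_nonunits h4)
    refine ⟨h6, fun h => h5 ?_⟩
    rw [hq₁]
    exact nonunits_mul (pow_mem (show 1 + γ * s ∈ V from h2) e) h
  -- the Dedekind domain
  obtain ⟨hded, -, -⟩ := isDedekind_aff hK hstr
  have hsV₀' : s ∈ V₀.nonunits := by
    have h1 : 1 - γ * s₀ ∉ V₀.nonunits := by
      apply notMem_nonunits_of_sub hC₀ (c := 1) one_ne_zero
      rw [map_one, sub_sub_cancel_left]
      exact V₀.nonunits.neg_mem (nonunits_mul (hC₀ _) hsV₀)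
    rw [hs, div_eq_mul_inv, mul_comm]
    exact nonunits_mul (inv_mem_of_notMem_nonunits h1) hsV₀
  have hBV₀ : ∀ b : Aff s, (b : K) ∈ V₀ := aff_le hC₀ (nonunits_le hsV₀')
  set P₀ : Ideal (Aff s) := centre (Aff s) V₀ hBV₀ with hP₀
  have hP₀p : P₀.IsPrime := centre_isPrime _ _ _
  have hs0 : s ≠ 0 := fun h => hstr (by rw [h]; exact isAlgebraic_zero)
  let sB : Aff s := ⟨s, self_mem_aff s⟩
  have hsB : sB ∈ P₀ := hsV₀'
  have hsB0 : sB ≠ 0 := fun h => hs0 (congrArg Subtype.val h)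
  have hP₀b : P₀ ≠ ⊥ := fun h => hsB0 (by rw [h] at hsB; exact hsB)
  have hP₀m : P₀.IsMaximal := hP₀p.isMaximal hP₀b
  obtain ⟨L, hL, hLp⟩ := UniqueFactorizationMonoid.exists_prime_factors (Ideal.span {b₁})
    (by rw [Ne, Ideal.zero_eq_bot, Ideal.span_singleton_eq_bot]; exact hb₁)
  rw [associated_iff_eq] at hLp
  have hLm : ∀ Q ∈ L, Q.IsMaximal := fun Q hQ =>
    (Ideal.isPrime_of_prime (hL Q hQ)).isMaximal (hL Q hQ).ne_zero
  have hLQ : ∀ Q : Ideal (Aff s), Q.IsPrime → b₁ ∈ Q → Q ∈ L := by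
    intro Q hQ hb
    have h1 : L.prod ≤ Q := by
      rw [hLp, Ideal.span_singleton_le_iff_mem]
      exact hb
    obtain ⟨Q', hQ', hle⟩ := (hQ.multiset_prod_le).1 h1
    rw [← (hLm Q' hQ').eq_of_le hQ.ne_top hle]
    exact hQ'
  -- the function `h`
  let J : Ideal (Aff s) := (L.filter (fun Q => Q ≠ P₀)).prod
  have hJ : P₀ ⊔ J = ⊤ := by
    apply Ideal.sup_multiset_prod_eq_top
    intro Q hQ
    rw [Multiset.mem_filter] at hQ
    exact Ideal.IsMaximal.coprime_of_ne hP₀m (hLm Q hQ.1) (Ne.symm hQ.2)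
  have hJQ : ∀ Q ∈ L, Q ≠ P₀ → J ≤ Q := by
    intro Q hQ hne
    apply Ideal.le_of_dvd
    exact Multiset.dvd_prod (Multiset.mem_filter.2 ⟨hQ, hne⟩)
  obtain ⟨h, hhP, hh0, hhQ⟩ : ∃ h ∈ P₀, h ≠ 0 ∧ ∀ Q : Ideal (Aff s), Q.IsPrime → J ≤ Q → h ∉ Q := by
    obtain ⟨h, hh, q, hq, hhq⟩ := Submodule.mem_sup.1 ((Ideal.eq_top_iff_one _).1 hJ)
    by_cases h0 : h = 0
    · refine ⟨sB, hsB, hsB0, fun Q hQ hJQ' _ => hQ.ne_top ?_⟩
      rw [Ideal.eq_top_iff_one, ← hhq, h0, zero_add]
      exact hJQ' hq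
    · refine ⟨h, hh, h0, fun Q hQ hJQ' hhQ' => hQ.ne_top ?_⟩
      rw [Ideal.eq_top_iff_one, ← hhq]
      exact Q.add_mem hhQ' (hJQ' hq)
  -- the constant `t`
  obtain ⟨t, ht0, htQ⟩ : ∃ t : ℂ, t ≠ 0 ∧ ∀ Q ∈ L, h - algebraMap ℂ (Aff s) t ∉ Q := by
    have hfin : (⋃ Q ∈ L.toFinset, {t : ℂ | h - algebraMap ℂ (Aff s) t ∈ Q}).Finite := by
      apply Set.Finite.biUnion (Finset.finite_toSet _)
      intro Q hQ
      have hQm := hLm Q (Multiset.mem_toFinset.1 hQ)
      apply Set.Subsingleton.finite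
      intro t ht t' ht'
      have h1 := Q.sub_mem ht ht'
      rw [sub_sub_sub_cancel_left, ← map_sub] at h1
      by_contra hne
      apply hQm.ne_top
      rw [Ideal.eq_top_iff_one]
      have h2 := Q.mul_mem_left (algebraMap ℂ (Aff s) (t' - t)⁻¹) h1
      rwa [← map_mul, inv_mul_cancel₀ (sub_ne_zero.2 (Ne.symm hne)), map_one] at h2
    obtain ⟨t, ht⟩ := ((hfin.union (Set.finite_singleton 0)).infinite_compl).nonempty
    rw [Set.mem_compl_iff, Set.mem_union, not_or] at ht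
    refine ⟨t, ht.2, fun Q hQ hcon => ht.1 ?_⟩
    exact Set.mem_biUnion (Multiset.mem_toFinset.2 hQ) hcon
  set τ : K := algebraMap ℂ K t with hτ
  have hτ0 : τ ≠ 0 := (map_ne_zero _).2 ht0
  have hhK : (h : K) ≠ 0 := fun h1 => hh0 (Subtype.ext h1)
  have hhV₀ : (h : K) ∈ V₀.nonunits := hhP
  have hhτ : (h : K) - τ ∉ V₀.nonunits := by
    apply notMem_nonunits_of_sub hC₀ (c := -t) (neg_ne_zero.2 ht0)
    rw [map_neg, sub_neg_eq_add, ← hτ, sub_add_cancel]
    exact hhV₀
  have hhτ0 : (h : K) - τ ≠ 0 := fun h1 => hhτ (by rw [h1]; exact V₀.nonunits.zero_mem)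
  have huV₀ : (h : K) / ((h : K) - τ) ∈ V₀.nonunits := by
    rw [div_eq_mul_inv, mul_comm]
    exact nonunits_mul (inv_mem_of_notMem_nonunits hhτ) hhV₀
  refine ⟨(h : K) / ((h : K) - τ), ?_, huV₀, ?_, ?_⟩
  · intro halg
    have hint : IsIntegral ℂ ((h : K) / ((h : K) - τ)) := halg.isIntegral
    obtain ⟨c, hc⟩ := minpoly.mem_range_of_degree_eq_one ℂ _
      (IsAlgClosed.degree_eq_one_of_irreducible ℂ (minpoly.irreducible hint))
    have hc0 : c = 0 := C_notMem_nonunits hC₀ (by rw [hc]; exact huV₀)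
    rw [hc0, map_zero] at hc
    exact (div_ne_zero hhK hhτ0) hc.symm
  · intro V hC hu
    have h1 : (h : K) ∈ V.nonunits := by
      have h2 : (h : K) / ((h : K) - τ) - 1 ∉ V.nonunits := by
        intro h3
        have h4 := V.nonunits.sub_mem hu h3
        rw [sub_sub_cancel] at h4
        exact one_notMem_nonunits V h4
      have h5 : (h : K) = τ * ((h : K) / ((h : K) - τ) - 1)⁻¹ * ((h : K) / ((h : K) - τ)) := by
        have h6 : (h : K) / ((h : K) - τ) - 1 = τ / ((h : K) - τ) := by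
          field_simp
          ring
        rw [h6]
        field_simp
      rw [h5]
      exact nonunits_mul (V.mul_mem _ _ (hC _) (inv_mem_of_notMem_nonunits h2)) hu
    by_cases hsV : s ∈ V
    · by_cases hbV : (b₁ : K) ∈ V.nonunits
      · right
        have hBV : ∀ b : Aff s, (b : K) ∈ V := aff_le hC hsV
        have hcen := centre_isPrime (Aff s) V hBV
        have h2 : centre (Aff s) V hBV ∈ L := hLQ _ hcen hbV
        have h3 : centre (Aff s) V hBV = P₀ := by
          by_contra hne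
          exact hhQ _ hcen (hJQ _ h2 hne) h1
        apply le_antisymm
        · exact le_of_centre hK hstr hBV hBV₀ (by rw [h3]; exact hP₀b) (fun b hb => by
            have : b ∈ centre (Aff s) V hBV := by rw [h3]; exact hb
            exact this)
        · exact le_of_centre hK hstr hBV₀ hBV hP₀b (fun b hb => by
            have : b ∈ P₀ := by rw [← h3]; exact hb
            exact this)
      · exact Or.inl (hii V hC hsV hbV)
    · exact Or.inl (hi V hC hsV)
  · intro V hC hu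
    have h1 : (h : K) - τ ∈ V.nonunits := by
      have h2 : ((h : K) / ((h : K) - τ))⁻¹ - 1 ∉ V.nonunits := by
        intro h3
        have h4 := V.nonunits.sub_mem hu h3
        rw [sub_sub_cancel] at h4
        exact one_notMem_nonunits V h4
      have h5 : (h : K) - τ = -(τ * (((h : K) / ((h : K) - τ))⁻¹ - 1)⁻¹) *
          ((h : K) / ((h : K) - τ))⁻¹ := by
        have h6 : ((h : K) / ((h : K) - τ))⁻¹ - 1 = -(τ / (h : K)) := by
          field_simp
          ring
        rw [h6]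
        field_simp
      rw [h5]
      exact nonunits_mul (V.neg_mem _ (V.mul_mem _ _ (hC _) (inv_mem_of_notMem_nonunits h2))) hu
    by_cases hsV : s ∈ V
    · by_cases hbV : (b₁ : K) ∈ V.nonunits
      · exfalso
        have hBV : ∀ b : Aff s, (b : K) ∈ V := aff_le hC hsV
        have hcen := centre_isPrime (Aff s) V hBV
        have h2 : centre (Aff s) V hBV ∈ L := hLQ _ hcen hbV
        exact htQ _ h2 h1
      · exact hii V hC hsV hbV
    · exact hi V hC hsV

end move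

end Pool.Agent.Helper397.HK
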