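import Pool.Agent.Helper397.HK.Birational

/-!
# The inverse of a birational map
-/

set_option autoImplicit false

open MvPolynomial

namespace Pool.Agent.Helper397.HK

variable {N N' : ℕ}

/-- The Nullstellensatz for `Y`. -/
theorem ProjVar.mem_of_forall (Y : ProjVar N) (F : MvPolynomial (Fin (N + 1)) ℂ)
    (h : ∀ x ∈ Y.Pts ℂ, aeval x F = 0) : F ∈ Y.I := by
  have hprime := Y.prime
  rw [← Y.aeval_gen_eq_zero]
  by_contra hne
  obtain ⟨B, ψ, hB, hψ⟩ := exists_spec (Set.range Y.gen ∪ {aeval Y.gen F})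
    ((Set.finite_range _).union (Set.toFinite _))
  let x' : Fin (N + 1) → B := fun i => ⟨Y.gen i, hB (Or.inl ⟨i, rfl⟩)⟩
  obtain ⟨i, hi⟩ := Function.ne_iff.1 Y.gen_mem.1
  have p1 : (fun i => ψ (x' i)) ∈ Y.Pts ℂ :=
    ProjVar.spec_pt ψ (x := x') Y.gen_mem ⟨i, hψ _ _ (Or.inl ⟨i, rfl⟩) hi⟩
  have e1 : ((aeval x' F : B) : _) = aeval Y.gen F := aeval_val B Y.gen _ F
  have p2 := h _ p1
  rw [aeval_spec] at p2
  exact hψ _ (aeval x' F).2 (by rw [e1]; simp) (by rw [e1]; exact hne) p2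

/-- Values of the forms do not depend on the choice of homogeneous coordinates. -/
theorem TwoForm.val_smul {Y : ProjVar N} (σ : TwoForm Y) {x u v : Fin (N + 1) → ℂ}
    (hx : x ∈ Y.Pts ℂ) (hu : u ∈ Y.Tan x) (hv : v ∈ Y.Tan x) {l : ℂ} (hl : l ≠ 0) (μ μ' : ℂ) :
    σ.val (l • x) (l • u + μ • x) (l • v + μ' • x) = σ.val x u v := by
  obtain ⟨a, G, A, hloc, hG⟩ := σ.exists_isLocal hx
  have hxl : l • x ∈ Y.Pts ℂ := by
    refine ⟨fun h => ?_, ProjVar.OnCone.smul hx.2 l⟩
    rcases smul_eq_zero.1 h with h1 | h1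
    · exact hl h1
    · exact hx.1 h1
  have hxt : x ∈ Y.Tan x := ProjVar.OnCone.self_mem_tan hx.2
  have hGl : aeval (l • x) G ≠ 0 := by
    rw [aeval_smul_of_homog hloc.hG]
    exact mul_ne_zero (pow_ne_zero _ hl) hG
  have h1 := hloc.eq (l • x) hxl hGl (l • u + μ • x)
    (ProjVar.tan_smul l ((Y.tanSub x).add_mem ((Y.tanSub x).smul_mem l hu)
      ((Y.tanSub x).smul_mem μ hxt))) (l • v + μ' • x)
    (ProjVar.tan_smul l ((Y.tanSub x).add_mem ((Y.tanSub x).smul_mem l hv)
      ((Y.tanSub x).smul_mem μ' hxt)))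
  have h2 := hloc.eq x hx hG u hu v hv
  rw [bil_smul_point A hloc.hA] at h1
  simp only [bil_add_left, bil_add_right, bil_smul_left, bil_smul_right] at h1
  rw [hloc.euler hx hG hv, hloc.euler_right hx hG hu, hloc.euler hx hG hxt, ← h2,
    aeval_smul_of_homog hloc.hG] at h1
  have h3 : l ^ (a + 2) * aeval x G ≠ 0 := mul_ne_zero (pow_ne_zero _ hl) hG
  apply mul_left_cancel₀ h3
  linear_combination h1

section inv

variable {Y : ProjVar N} {Y' : ProjVar N'} {f : RatMap Y Y'} {g : RatMap Y' Y}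

/-- `f (g (x'))` is proportional to `x'`. -/
lemma RatMap.LeftInv.app (hfg : f.LeftInv g) {x' : Fin (N' + 1) → ℂ} (hx' : x' ∈ Y'.Pts ℂ)
    {i : Fin (N' + 1)} (hi : aeval x' (bind₁ g.Φ (f.Φ i)) ≠ 0) :
    ∃ l : ℂ, l ≠ 0 ∧ f.app (g.app x') = l • x' := by
  have h1 : ∀ j, aeval x' (bind₁ g.Φ (f.Φ j)) = f.app (g.app x') j := fun j => by
    rw [aeval_bind]; rfl
  have h2 : ∀ a b, x' a * f.app (g.app x') b = x' b * f.app (g.app x') a := by
    intro a b
    have h3 := hx'.2 _ (hfg.2 a b)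
    rw [map_sub, map_mul, map_mul, aeval_X, aeval_X, h1, h1, sub_eq_zero] at h3
    exact h3
  obtain ⟨j, hj⟩ := Function.ne_iff.1 hx'.1
  rw [Pi.zero_apply] at hj
  rw [h1] at hi
  have hj' : f.app (g.app x') j ≠ 0 := by
    intro h0
    have h3 := h2 i j
    rw [h0, mul_zero] at h3
    rcases mul_eq_zero.1 h3.symm with h4 | h4
    · exact hj h4
    · exact hi h4
  refine ⟨f.app (g.app x') j / x' j, div_ne_zero hj' hj, ?_⟩
  funext a
  rw [Pi.smul_apply, smul_eq_mul, div_mul_eq_mul_div, eq_div_iff hj]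
  have := h2 a j
  linear_combination -this

/-- The derivative of `f ∘ g`. -/
lemma RatMap.LeftInv.dapp (hfg : f.LeftInv g) {x' u : Fin (N' + 1) → ℂ} (hx' : x' ∈ Y'.Pts ℂ)
    (hu : u ∈ Y'.Tan x') {l : ℂ} (hl : f.app (g.app x') = l • x') :
    ∃ μ : ℂ, f.dapp (g.app x') (g.dapp x' u) = l • u + μ • x' := by
  have h0 : ∀ j, dif (bind₁ g.Φ (f.Φ j)) x' u = f.dapp (g.app x') (g.dapp x' u) j := fun j => by
    rw [dif_bind]; rfl
  have h1 : ∀ j, aeval x' (bind₁ g.Φ (f.Φ j)) = l * x' j := fun j => by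
    rw [aeval_bind]; exact congrFun hl j
  set ζ := f.dapp (g.app x') (g.dapp x' u) with hζ
  have h2 : ∀ a b, x' a * (ζ b - l * u b) = x' b * (ζ a - l * u a) := by
    intro a b
    have h3 := hu _ (hfg.2 a b)
    rw [sub_eq_add_neg, dif_add, ← neg_one_mul, ← C_1, ← C_neg, dif_mul, dif_mul, dif_C, dif_mul,
      dif_X, dif_X, h0, h0, h1, h1, aeval_X, aeval_X] at h3
    simp only [aeval_C] at h3
    have h4 : algebraMap ℂ ℂ (-1) = -1 := rfl
    rw [h4] at h3
    linear_combination h3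
  obtain ⟨j, hj⟩ := Function.ne_iff.1 hx'.1
  rw [Pi.zero_apply] at hj
  refine ⟨(ζ j - l * u j) / x' j, ?_⟩
  funext a
  simp only [Pi.add_apply, Pi.smul_apply, smul_eq_mul]
  have h5 := h2 a j
  field_simp
  linear_combination -h5

/-- The inverse of a map which is compatible with the forms is compatible with the forms. -/
theorem RatMap.PullsBack.inv (hfg : f.LeftInv g) {σ : TwoForm Y} {σ' : TwoForm Y'} {c : ℂ}
    (hc : c ≠ 0) (hf : f.PullsBack σ' c σ) :
    ∃ (H : MvPolynomial (Fin (N' + 1)) ℂ) (dH : ℕ), H.IsHomogeneous dH ∧ H ∉ Y'.I ∧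
      g.PullsBackOn H σ c⁻¹ σ' := by
  obtain ⟨i, hi⟩ := hfg.1
  refine ⟨bind₁ g.Φ (f.Φ i), g.deg * f.deg, ?_, hi, ?_⟩
  · have := (f.homog i).aeval g.Φ g.homog
    exact this
  · intro x' hx' hH hgx u hu v hv
    obtain ⟨l, hl, hfl⟩ := hfg.app hx' hH
    obtain ⟨μ, hμ⟩ := hfg.dapp hx' hu hfl
    obtain ⟨μ', hμ'⟩ := hfg.dapp hx' hv hfl
    have hgY : g.app x' ∈ Y.Pts ℂ := ⟨hgx, g.onCone hx'.2⟩
    have h1 : f.app (g.app x') ≠ 0 := by
      rw [hfl]
      intro h
      rcases smul_eq_zero.1 h with h2 | h2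
      · exact hl h2
      · exact hx'.1 h2
    have h2 := hf _ hgY h1 _ (g.dapp_mem hu) _ (g.dapp_mem hv)
    rw [hfl, hμ, hμ', σ'.val_smul hx' hu hv hl μ μ'] at h2
    rw [h2, inv_mul_cancel_left₀ hc]

/-- The closure of the graph of the inverse. -/
theorem RatMap.GraphClosure.swap (hfg : f.LeftInv g) {w : Y.Pts ℂ} {w' : Y'.Pts ℂ}
    (h : g.GraphClosure w' w) : f.GraphClosure w w' := by
  have hprime := Y'.prime
  intro B hB
  -- the equation holds on the graph of `g`
  have key : ∀ x' ∈ Y'.Pts ℂ, ∀ c : ℂ, aeval (Sum.elim (c • g.app x') x') B = 0 := by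
    obtain ⟨i, hi⟩ := hfg.1
    obtain ⟨j, hj⟩ := g.nonzero
    have h1 : ∀ x' ∈ Y'.Pts ℂ, aeval x' (bind₁ g.Φ (f.Φ i)) ≠ 0 → aeval x' (g.Φ j) ≠ 0 →
        ∀ c : ℂ, aeval (Sum.elim (c • g.app x') x') B = 0 := by
      intro x' hx' hi' hj'
      obtain ⟨l, hl, hfl⟩ := hfg.app hx' hi'
      have hgx : g.app x' ≠ 0 := fun h0 => hj' (congrFun h0 j)
      have h2 : ∀ c : ℂ, c ≠ 0 → aeval (Sum.elim (c • g.app x') x') B = 0 := by
        intro c hc
        have hx : c • g.app x' ∈ Y.Pts ℂ := by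
          refine ⟨fun h0 => ?_, ProjVar.OnCone.smul (g.onCone hx'.2) c⟩
          rcases smul_eq_zero.1 h0 with h3 | h3
          · exact hc h3
          · exact hgx h3
        have h3 := hB _ hx (c ^ f.deg * l)⁻¹
        have h5 : (c ^ f.deg * l)⁻¹ * c ^ f.deg * l = 1 := by
          rw [mul_assoc]
          exact inv_mul_cancel₀ (mul_ne_zero (pow_ne_zero _ hc) hl)
        rw [f.app_smul, hfl, smul_smul, smul_smul, h5, one_smul] at h3
        exact h3
      let P : Polynomial ℂ := aeval (Sum.elim (fun i => Polynomial.X * Polynomial.C (g.app x' i))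
        (fun j => Polynomial.C (x' j))) B
      have h3 : ∀ c : ℂ, P.eval c = aeval (Sum.elim (c • g.app x') x') B := by
        intro c
        have h4 := MvPolynomial.comp_aeval_apply (Sum.elim
          (fun i => Polynomial.X * Polynomial.C (g.app x' i)) (fun j => Polynomial.C (x' j)))
          (Polynomial.aeval c : Polynomial ℂ →ₐ[ℂ] ℂ) B
        change (Polynomial.aeval c) P = _ at h4
        rw [Polynomial.coe_aeval_eq_eval] at h4
        rw [h4]
        congr 2
        funext s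
        rcases s with s | s
        · simp only [Sum.elim_inl, Polynomial.eval_mul, Polynomial.eval_X, Polynomial.eval_C,
            Pi.smul_apply, smul_eq_mul]
        · simp only [Sum.elim_inr, Polynomial.eval_C]
      have h4 : P = 0 := by
        apply Polynomial.eq_zero_of_infinite_isRoot
        refine Set.Infinite.mono (s := {c : ℂ | c ≠ 0}) ?_ ?_
        · intro c hc
          change P.eval c = 0
          rw [h3, h2 c hc]
        · exact (Set.finite_singleton (0 : ℂ)).infinite_compl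
      intro c
      rw [← h3, h4, Polynomial.eval_zero]
    intro x' hx' c
    let Q : MvPolynomial (Fin (N' + 1)) ℂ :=
      aeval (Sum.elim (fun i => C c * g.Φ i) (fun j => X j)) B
    have hQ : ∀ y : Fin (N' + 1) → ℂ, aeval y Q = aeval (Sum.elim (c • g.app y) y) B := by
      intro y
      have h4 := MvPolynomial.comp_aeval_apply (Sum.elim (fun i => C c * g.Φ i) (fun j => X j))
        (aeval y : MvPolynomial (Fin (N' + 1)) ℂ →ₐ[ℂ] ℂ) B
      change aeval y Q = _ at h4
      rw [h4]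
      congr 2
      funext s
      rcases s with s | s
      · simp [RatMap.app]
      · simp
    have h5 : bind₁ g.Φ (f.Φ i) * g.Φ j * Q ∈ Y'.I := by
      apply Y'.mem_of_forall
      intro y hy
      rw [map_mul, map_mul]
      by_cases ha : aeval y (bind₁ g.Φ (f.Φ i)) = 0
      · rw [ha, zero_mul, zero_mul]
      by_cases hb : aeval y (g.Φ j) = 0
      · rw [hb, mul_zero, zero_mul]
      rw [hQ, h1 y hy ha hb c, mul_zero]
    have h6 : Q ∈ Y'.I := by
      rcases hprime.mem_or_mem h5 with h7 | h7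
      · rcases hprime.mem_or_mem h7 with h8 | h8
        · exact absurd h8 hi
        · exact absurd h8 hj
      · exact h7
    rw [← hQ]
    exact hx'.2 _ h6
  have h7 := h (rename Sum.swap B) (by
    intro x' hx' c
    rw [aeval_rename]
    have : (Sum.elim x' (c • g.app x') ∘ Sum.swap : Fin (N + 1) ⊕ Fin (N' + 1) → ℂ) =
        Sum.elim (c • g.app x') x' := by
      funext s
      rcases s with s | s <;> rfl
    rw [this]
    exact key x' hx' c)
  rw [aeval_rename] at h7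
  have : (Sum.elim w'.1 w.1 ∘ Sum.swap : Fin (N + 1) ⊕ Fin (N' + 1) → ℂ) = Sum.elim w.1 w'.1 := by
    funext s
    rcases s with s | s <;> rfl
  rw [this] at h7
  exact h7

end inv

/-- **The filtration of Voisin is preserved by birational maps.** -/
theorem SBV_birational {Y : ProjVar N} {Y' : ProjVar N'} (hY : Y.IsSmooth) (hY' : Y'.IsSmooth)
    {σ : TwoForm Y} (hσ : σ.Nondegenerate) {σ' : TwoForm Y'} (hσ' : σ'.Nondegenerate)
    {f : RatMap Y Y'} {g : RatMap Y' Y} (hfg : f.LeftInv g) {c : ℂ} (hc : c ≠ 0)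
    (hf : f.PullsBack σ' c σ) (T : CH0 Y ≃ₗ[ℚ] CH0 Y') (hT : f.Induces T.toLinearMap) (n i : ℕ) :
    (SBV Y n i).map T.toLinearMap = SBV Y' n i := by
  apply le_antisymm
  · exact SBV_map_le hY hσ hc (isHomogeneous_one _ _) (fun h => Y.prime.ne_top
      ((Ideal.eq_top_iff_one _).2 h)) (hf.on 1) hT n i
  · obtain ⟨H, dH, hHd, hH, hg⟩ := hf.inv hfg hc
    have hTg : g.Induces T.symm.toLinearMap := by
      intro w' w h
      have h1 := hT w w' (h.swap hfg)
      change T.symm (cls w') = cls w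
      rw [LinearEquiv.symm_apply_eq]
      exact h1.symm
    have h2 := SBV_map_le hY' hσ' (inv_ne_zero hc) hHd hH hg hTg n i
    intro x hx
    have h3 : T.symm x ∈ SBV Y n i := h2 ⟨x, hx, rfl⟩
    exact ⟨T.symm x, h3, T.apply_symm_apply x⟩

end Pool.Agent.Helper397.HK
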