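import Pool.Agent.Helper397.HK.CurveC
import Pool.Agent.Helper397.HK.Inverse

/-!
# The action of a rational map on zero-cycles is determined on its domain of definition
-/

set_option autoImplicit false

open MvPolynomial

namespace Pool.Agent.Helper397.HK

variable {N N' : ℕ}

section cls

variable {Y : ProjVar N}

lemma cls_eq_of_smul {x x' : Y.Pts ℂ} {c : ℂ} (h : x'.1 = c • x.1) : cls x = cls x' := by
  rw [cls, cls, Submodule.Quotient.eq]
  exact Submodule.subset_span (Or.inl ⟨x, x', c, h, rfl⟩)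

lemma cls_eq_of_prop {x x' : Y.Pts ℂ} (h : ∀ a b, x'.1 a * x.1 b = x'.1 b * x.1 a) :
    cls x = cls x' := by
  obtain ⟨b, hb⟩ := Function.ne_iff.1 x.2.1
  rw [Pi.zero_apply] at hb
  refine cls_eq_of_smul (c := x'.1 b / x.1 b) ?_
  funext a
  rw [Pi.smul_apply, smul_eq_mul, div_mul_eq_mul_div, eq_div_iff hb, h a b]

end cls

section values

variable {K : Type} [Field K] [Algebra ℂ K] {V : ValuationSubring K}

lemma mem_of_sub (hC : ∀ c : ℂ, algebraMap ℂ K c ∈ V) {x : K} {c : ℂ}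
    (hx : x - algebraMap ℂ K c ∈ V.nonunits) : x ∈ V := by
  have := V.add_mem _ _ (nonunits_le hx) (hC c)
  rwa [sub_add_cancel] at this

lemma aeval_mv_mem (hC : ∀ c : ℂ, algebraMap ℂ K c ∈ V) {ι : Type*} {z : ι → K}
    (hz : ∀ i, z i ∈ V) (F : MvPolynomial ι ℂ) : aeval z F ∈ V := by
  induction F using MvPolynomial.induction_on with
  | C a => rw [algHom_C]; exact hC a
  | add F G hF hG => rw [map_add]; exact V.add_mem _ _ hF hG
  | mul_X F i hF => rw [map_mul, aeval_X]; exact V.mul_mem _ _ hF (hz i)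

/-- Values of polynomials at places. -/
lemma aeval_mv_sub_mem (hC : ∀ c : ℂ, algebraMap ℂ K c ∈ V) {ι : Type*} {z : ι → K} {p : ι → ℂ}
    (hz : ∀ i, z i - algebraMap ℂ K (p i) ∈ V.nonunits) (F : MvPolynomial ι ℂ) :
    aeval z F - algebraMap ℂ K (aeval p F) ∈ V.nonunits := by
  induction F using MvPolynomial.induction_on with
  | C a =>
    simp only [algHom_C]
    rw [show algebraMap ℂ ℂ a = a from rfl, sub_self]
    exact V.nonunits.zero_mem
  | add F G hF hG =>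
    have := V.nonunits.add_mem hF hG
    rw [map_add, map_add, map_add]
    convert this using 1
    ring
  | mul_X F i hF =>
    rw [map_mul, map_mul, aeval_X, aeval_X, map_mul]
    have h1 := nonunits_mul (mem_of_sub hC (hz i)) hF
    have h2 := nonunits_mul (hC (aeval p F)) (hz i)
    have := V.nonunits.add_mem h1 h2
    convert this using 1
    ring

lemma value_prop (hC : ∀ c : ℂ, algebraMap ℂ K c ∈ V) {m : ℕ} {z y : Fin m → K} {p w : Fin m → ℂ}
    (hz : ∀ i, z i - algebraMap ℂ K (p i) ∈ V.nonunits)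
    (hy : ∀ i, y i - algebraMap ℂ K (w i) ∈ V.nonunits) (h : ∀ a b, z a * y b = z b * y a)
    (a b : Fin m) : p a * w b = p b * w a := by
  rw [← sub_eq_zero]
  apply C_notMem_nonunits hC
  have h1 := nonunits_mul (mem_of_sub hC (hy b)) (hz a)
  have h2 := nonunits_mul (hC (p a)) (hy b)
  have h3 := nonunits_mul (mem_of_sub hC (hy a)) (hz b)
  have h4 := nonunits_mul (hC (p b)) (hy a)
  have h5 := V.nonunits.sub_mem (V.nonunits.add_mem h3 h4) (V.nonunits.add_mem h1 h2)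
  convert h5 using 1
  rw [map_sub, map_mul, map_mul]
  have := h a b
  linear_combination this

end values

section good

variable {K : Type} [Field K] [Algebra ℂ K] {V : ValuationSubring K} {Y : ProjVar N}
  {Y' : ProjVar N'}

/-- The action at the good places. -/
lemma RatMap.ActsBy.good {f : RatMap Y Y'} {T : CH0 Y →ₗ[ℚ] CH0 Y'} (hT : f.ActsBy T)
    (hC : ∀ c : ℂ, algebraMap ℂ K c ∈ V) {y : Fin (N + 1) → K} {y' : Fin (N' + 1) → K}
    (hyV : ∀ i, y i ∈ V) (hrel : ∀ a b, y' a * f.app y b = y' b * f.app y a)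
    {i₀ : Fin (N + 1)} (hi₀ : y i₀ ∉ V.nonunits) {j₀ : Fin (N' + 1)}
    (hj₀ : f.app y j₀ ∉ V.nonunits) {p : Y.Pts ℂ} {p' : Y'.Pts ℂ} {c c' : K}
    (hp : ∀ i, c * y i - algebraMap ℂ K (p.1 i) ∈ V.nonunits)
    (hp' : ∀ i, c' * y' i - algebraMap ℂ K (p'.1 i) ∈ V.nonunits) : T (cls p) = cls p' := by
  have hzV : ∀ i, c * y i ∈ V := fun i => mem_of_sub hC (hp i)
  have hi₀0 : y i₀ ≠ 0 := fun h => hi₀ (by rw [h]; exact V.nonunits.zero_mem)
  have hcV : c ∈ V := by
    have h1 : c = c * y i₀ * (y i₀)⁻¹ := by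
      rw [mul_assoc, mul_inv_cancel₀ hi₀0, mul_one]
    rw [h1]
    exact V.mul_mem _ _ (hzV i₀) (inv_mem_of_notMem_nonunits hi₀)
  have hcn : c ∉ V.nonunits := by
    intro hc
    obtain ⟨i, hi⟩ := Function.ne_iff.1 p.2.1
    apply notMem_nonunits_of_sub hC hi (hp i)
    rw [mul_comm]
    exact nonunits_mul (hyV i) hc
  have hcd : ∀ d : ℕ, c ^ d ∉ V.nonunits := by
    intro d
    induction d with
    | zero => rw [pow_zero]; exact one_notMem_nonunits V
    | succ d ih =>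
      rw [pow_succ]
      intro h
      rcases nonunits_prime (pow_mem (show c ∈ V from hcV) d) hcV h with h1 | h1
      · exact ih h1
      · exact hcn h1
  have hsm : (fun i => c * y i) = c • y := rfl
  have happ : ∀ j, f.app (fun i => c * y i) j = c ^ f.deg * f.app y j := by
    intro j
    rw [hsm, f.app_smul]
    rfl
  have hval : ∀ j, f.app (fun i => c * y i) j - algebraMap ℂ K (f.app p.1 j) ∈ V.nonunits :=
    fun j => aeval_mv_sub_mem hC hp (f.Φ j)
  have hfyV : ∀ j, f.app y j ∈ V := fun j => aeval_mv_mem hC hyV (f.Φ j)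
  have hne : f.app p.1 j₀ ≠ 0 := by
    intro h0
    have h1 := hval j₀
    rw [h0, map_zero, sub_zero, happ] at h1
    rcases nonunits_prime (pow_mem (show c ∈ V from hcV) _) (hfyV j₀) h1 with h2 | h2
    · exact hcd _ h2
    · exact hj₀ h2
  have hpt : f.app p.1 ∈ Y'.Pts ℂ := ⟨fun h => hne (congrFun h j₀), f.onCone p.2.2⟩
  rw [hT p ⟨f.app p.1, hpt⟩ rfl]
  apply cls_eq_of_prop
  intro a b
  refine value_prop hC hp' hval ?_ a b
  intro a b
  rw [happ, happ]
  linear_combination (c' * c ^ f.deg) * hrel a b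

end good

section graph

variable {Y : ProjVar N} {Y' : ProjVar N'}

/-- The parametrization of the cone over the graph. -/
noncomputable def RatMap.graphHom (f : RatMap Y Y') :
    MvPolynomial (Fin (N + 1) ⊕ Fin (N' + 1)) ℂ →ₐ[ℂ]
      Polynomial (MvPolynomial (Fin (N + 1)) ℂ ⧸ Y.I) :=
  aeval (Sum.elim (fun i => Polynomial.C (Ideal.Quotient.mk Y.I (X i)))
    (fun j => Polynomial.X * Polynomial.C (Ideal.Quotient.mk Y.I (f.Φ j))))

/-- Evaluation of functions at a point. -/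
noncomputable def ProjVar.evAt (Y : ProjVar N) (x : Y.Pts ℂ) :
    (MvPolynomial (Fin (N + 1)) ℂ ⧸ Y.I) →ₐ[ℂ] ℂ :=
  Ideal.Quotient.liftₐ Y.I (aeval x.1) (fun F hF => x.2.2 F hF)

lemma ProjVar.evAt_mk (Y : ProjVar N) (x : Y.Pts ℂ) (F : MvPolynomial (Fin (N + 1)) ℂ) :
    Y.evAt x (Ideal.Quotient.mk Y.I F) = aeval x.1 F := rfl

lemma RatMap.mapAlgHom_graphHom (f : RatMap Y Y') (x : Y.Pts ℂ)
    (B : MvPolynomial (Fin (N + 1) ⊕ Fin (N' + 1)) ℂ) :
    Polynomial.mapAlgHom (Y.evAt x) (f.graphHom B) =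
      aeval (Sum.elim (fun i => Polynomial.C (x.1 i))
        (fun j => Polynomial.X * Polynomial.C (f.app x.1 j))) B := by
  induction B using MvPolynomial.induction_on with
  | C a => simp
  | add F G hF hG => rw [map_add, map_add, map_add, hF, hG]
  | mul_X F s hF =>
    rw [map_mul, map_mul, map_mul, hF, aeval_X]
    congr 1
    rw [RatMap.graphHom, aeval_X]
    rcases s with s | s
    · simp only [Sum.elim_inl, Polynomial.coe_mapAlgHom, Polynomial.map_C]
      congr 1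
      change Y.evAt x (Ideal.Quotient.mk Y.I (X s)) = _
      rw [Y.evAt_mk, aeval_X]
    · simp only [Sum.elim_inr, Polynomial.coe_mapAlgHom, Polynomial.map_mul, Polynomial.map_X,
        Polynomial.map_C]
      rfl

lemma RatMap.graphHom_vanish (f : RatMap Y Y') {B : MvPolynomial (Fin (N + 1) ⊕ Fin (N' + 1)) ℂ}
    (hB : f.graphHom B = 0) (x : Fin (N + 1) → ℂ) (hx : x ∈ Y.Pts ℂ) (c : ℂ) :
    aeval (Sum.elim x (c • f.app x)) B = 0 := by
  have h1 := f.mapAlgHom_graphHom ⟨x, hx⟩ B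
  rw [hB, map_zero] at h1
  have h2 := congrArg (Polynomial.aeval c) h1
  rw [map_zero, MvPolynomial.comp_aeval_apply] at h2
  rw [h2]
  congr 2
  funext s
  rcases s with s | s
  · simp
  · simp only [Sum.elim_inr, map_mul, Polynomial.aeval_X, Polynomial.aeval_C, Pi.smul_apply,
      smul_eq_mul]
    rfl

/-- The zeros of a function, and the values of two points there. -/
theorem exists_zeros {K : Type} [Field K] [Algebra ℂ K] (hK : CurveField K) {u : K}
    (hu : Transcendental ℂ u) {y : Fin (N + 1) → K} (hy : y ∈ Y.Pts K) {y' : Fin (N' + 1) → K}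
    (hy' : y' ∈ Y'.Pts K) :
    ∃ (r : ℕ) (P : Fin r → Ideal (Aff u)) (p : Fin r → Y.Pts ℂ) (p' : Fin r → Y'.Pts ℂ),
      (∀ j, (P j).IsMaximal) ∧ ∏ j, P j = Ideal.span {b : Aff u | (b : K) = u} ∧
      (∀ j, ValueAt u y (P j) (p j).1) ∧ (∀ j, ValueAt u y' (P j) (p' j).1) := by
  obtain ⟨r, P, hP, hP0, hPp⟩ := exists_factors hK hu
  choose p hp using fun j => exists_value hK hu (P j) (hP j) (hP0 j) hy
  choose p' hp' using fun j => exists_value hK hu (P j) (hP j) (hP0 j) hy'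
  exact ⟨r, P, p, p', hP, hPp, hp, hp'⟩

/-- Values at a place with the centre `P`. -/
lemma ValueAt.sub_mem {K : Type} [Field K] [Algebra ℂ K] {u : K} {y : Fin (N + 1) → K}
    {P : Ideal (Aff u)} {p : Fin (N + 1) → ℂ} (h : ValueAt u y P p) {V : ValuationSubring K}
    (hV : ∀ b ∈ P, (b : K) ∈ V.nonunits) :
    ∃ c : K, ∀ i, c * y i - algebraMap ℂ K (p i) ∈ V.nonunits := by
  obtain ⟨c, z, -, hz, hzp⟩ := h
  refine ⟨c, fun i => ?_⟩
  have := hV _ (hzp i)
  rw [← hz]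
  exact this

/-- The relation given by a function on a curve. -/
lemma cls_relation {K : Type} [Field K] [Algebra ℂ K] (hK : CurveField K) {u : K}
    (hu : Transcendental ℂ u) {y : Fin (N + 1) → K} (hy : y ∈ Y.Pts K) {r r' : ℕ}
    {P : Fin r → Ideal (Aff u)} {p : Fin r → Y.Pts ℂ} (hP : ∀ j, (P j).IsMaximal)
    (hPp : ∏ j, P j = Ideal.span {b : Aff u | (b : K) = u}) (hp : ∀ j, ValueAt u y (P j) (p j).1)
    {Q : Fin r' → Ideal (Aff u⁻¹)} {q : Fin r' → Y.Pts ℂ} (hQ : ∀ j, (Q j).IsMaximal)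
    (hQq : ∏ j, Q j = Ideal.span {b : Aff u⁻¹ | (b : K) = u⁻¹})
    (hq : ∀ j, ValueAt u⁻¹ y (Q j) (q j).1) : ∑ j, cls (p j) = ∑ j, cls (q j) := by
  have h1 : (∑ j, Finsupp.single (p j) (1 : ℚ)) - ∑ j, Finsupp.single (q j) (1 : ℚ) ∈
      ratZero Y := by
    apply Submodule.subset_span
    refine Or.inr ⟨⟨K, u, hu, hK.finite hu, y, hy⟩, _, _, ⟨r, P, p, hP, hPp, hp, rfl⟩,
      ⟨r', Q, q, hQ, hQq, hq, rfl⟩, rfl⟩
  have h2 := (Submodule.Quotient.eq (ratZero Y)).2 h1
  simpa only [cls, ← Submodule.mkQ_apply, map_sum] using h2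

/-- **Moving.** If `T` is the action of `f` at the points at which `f` is defined, then `T` is the
action of the closure of the graph of `f`. -/
theorem RatMap.ActsBy.induces {f : RatMap Y Y'} {T : CH0 Y →ₗ[ℚ] CH0 Y'} (hT : f.ActsBy T) :
    f.Induces T := by
  classical
  intro w w' hww'
  have hYp := Y.prime
  obtain ⟨j₀, hj₀⟩ := f.nonzero
  -- the coordinate ring of the cone over the graph
  let 𝔤 : Ideal (MvPolynomial (Fin (N + 1) ⊕ Fin (N' + 1)) ℂ) := RingHom.ker f.graphHom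
  have hprime : 𝔤.IsPrime := RingHom.ker_isPrime _
  have hev : ∀ B ∈ 𝔤, aeval (Sum.elim w.1 w'.1) B = 0 := fun B hB =>
    hww' B (fun x hx c => f.graphHom_vanish hB x hx c)
  let ev : (MvPolynomial (Fin (N + 1) ⊕ Fin (N' + 1)) ℂ ⧸ 𝔤) →ₐ[ℂ] ℂ :=
    Ideal.Quotient.liftₐ 𝔤 (aeval (Sum.elim w.1 w'.1)) hev
  have hevmk : ∀ B, ev (Ideal.Quotient.mk 𝔤 B) = aeval (Sum.elim w.1 w'.1) B := fun B => rfl
  have hgX : ∀ F : MvPolynomial (Fin (N + 1)) ℂ, f.graphHom (rename Sum.inl F) =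
      Polynomial.C (Ideal.Quotient.mk Y.I F) := by
    intro F
    induction F using MvPolynomial.induction_on with
    | C a =>
      rw [rename_C, algHom_C]
      rfl
    | add F G hF hG => rw [map_add, map_add, map_add, map_add, hF, hG]
    | mul_X F s hF =>
      rw [map_mul, map_mul, map_mul, map_mul, hF]
      congr 1
      rw [rename_X, RatMap.graphHom, aeval_X]
      rfl
  let h : MvPolynomial (Fin (N + 1) ⊕ Fin (N' + 1)) ℂ ⧸ 𝔤 :=
    Ideal.Quotient.mk 𝔤 (rename Sum.inl (f.Φ j₀))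
  have hh : h ≠ 0 := by
    intro h0
    have h1 : rename Sum.inl (f.Φ j₀) ∈ 𝔤 := Ideal.Quotient.eq_zero_iff_mem.1 h0
    have h2 : f.graphHom (rename Sum.inl (f.Φ j₀)) = 0 := h1
    rw [hgX, Polynomial.C_eq_zero] at h2
    exact hj₀ (Ideal.Quotient.eq_zero_iff_mem.1 h2)
  have htrans : ∃ a : MvPolynomial (Fin (N + 1) ⊕ Fin (N' + 1)) ℂ ⧸ 𝔤, Transcendental ℂ a := by
    refine ⟨Ideal.Quotient.mk 𝔤 (X (Sum.inr j₀)), fun halg => ?_⟩
    obtain ⟨x, hx⟩ : ∃ x : Y.Pts ℂ, aeval x.1 (f.Φ j₀) ≠ 0 := by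
      by_contra hcon
      push Not at hcon
      exact hj₀ (Y.mem_of_forall _ fun x hx => hcon ⟨x, hx⟩)
    let lift : (MvPolynomial (Fin (N + 1) ⊕ Fin (N' + 1)) ℂ ⧸ 𝔤) →ₐ[ℂ]
        Polynomial (MvPolynomial (Fin (N + 1)) ℂ ⧸ Y.I) :=
      Ideal.Quotient.liftₐ 𝔤 f.graphHom (fun B hB => hB)
    have h1 := halg.algHom ((Polynomial.mapAlgHom (Y.evAt x)).comp lift)
    have h2 : ((Polynomial.mapAlgHom (Y.evAt x)).comp lift)
        (Ideal.Quotient.mk 𝔤 (X (Sum.inr j₀))) = Polynomial.X * Polynomial.C (f.app x.1 j₀) := by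
      change Polynomial.mapAlgHom (Y.evAt x) (f.graphHom (X (Sum.inr j₀))) = _
      rw [f.mapAlgHom_graphHom, aeval_X]
      rfl
    rw [h2] at h1
    have h3 : IsAlgebraic ℂ (Polynomial.X * Polynomial.C (f.app x.1 j₀) *
        algebraMap ℂ (Polynomial ℂ) (f.app x.1 j₀)⁻¹) := h1.mul (isAlgebraic_algebraMap _)
    have h4 : Polynomial.X * Polynomial.C (f.app x.1 j₀) *
        algebraMap ℂ (Polynomial ℂ) (f.app x.1 j₀)⁻¹ = Polynomial.X := by
      rw [Polynomial.algebraMap_eq, mul_assoc, ← Polynomial.C_mul]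
      have h5 : f.app x.1 j₀ ≠ 0 := hx
      rw [mul_inv_cancel₀ h5, Polynomial.C_1, mul_one]
    rw [h4] at h3
    exact Polynomial.transcendental_X ℂ h3
  obtain ⟨K, _, _, s₀, ρ, V₀, hs₀, hK, hρh, hint, hsV₀, hρV, hρV₀⟩ := exists_curve ev hh htrans
  let y : Fin (N + 1) → K := fun i => ρ (Ideal.Quotient.mk 𝔤 (X (Sum.inl i)))
  let y' : Fin (N' + 1) → K := fun j => ρ (Ideal.Quotient.mk 𝔤 (X (Sum.inr j)))
  have hρmk : ∀ B, ρ (Ideal.Quotient.mk 𝔤 B) = aeval (Sum.elim y y') B := by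
    intro B
    induction B using MvPolynomial.induction_on with
    | C a =>
      rw [algHom_C]
      exact ρ.commutes a
    | add F G hF hG => rw [map_add, map_add, map_add, hF, hG]
    | mul_X F s hF =>
      rw [map_mul, map_mul, map_mul, hF, aeval_X]
      rcases s with s | s <;> rfl
  have hC₀ : ∀ c : ℂ, algebraMap ℂ K c ∈ V₀ := fun c => by
    rw [← ρ.commutes c]
    exact hρV _
  have hyV₀ : ∀ i, y i - algebraMap ℂ K (w.1 i) ∈ V₀.nonunits := by
    intro i
    have h1 := hρV₀ (Ideal.Quotient.mk 𝔤 (X (Sum.inl i)))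
    rw [hevmk, aeval_X] at h1
    exact h1
  have hy'V₀ : ∀ i, y' i - algebraMap ℂ K (w'.1 i) ∈ V₀.nonunits := by
    intro i
    have h1 := hρV₀ (Ideal.Quotient.mk 𝔤 (X (Sum.inr i)))
    rw [hevmk, aeval_X] at h1
    exact h1
  have hy : y ∈ Y.Pts K := by
    constructor
    · obtain ⟨i, hi⟩ := Function.ne_iff.1 w.2.1
      intro h0
      apply notMem_nonunits_of_sub hC₀ hi (hyV₀ i)
      rw [congrFun h0 i]
      exact V₀.nonunits.zero_mem
    · intro F hF
      have h1 : Ideal.Quotient.mk 𝔤 (rename Sum.inl F) = 0 := by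
        rw [Ideal.Quotient.eq_zero_iff_mem]
        change f.graphHom (rename Sum.inl F) = 0
        rw [hgX, Ideal.Quotient.eq_zero_iff_mem.2 hF, map_zero]
      have h2 := hρmk (rename Sum.inl F)
      rw [h1, map_zero, aeval_rename] at h2
      exact h2.symm
  have hy' : y' ∈ Y'.Pts K := by
    constructor
    · obtain ⟨i, hi⟩ := Function.ne_iff.1 w'.2.1
      intro h0
      apply notMem_nonunits_of_sub hC₀ hi (hy'V₀ i)
      rw [congrFun h0 i]
      exact V₀.nonunits.zero_mem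
    · intro F hF
      have h1 : Ideal.Quotient.mk 𝔤 (rename Sum.inr F) = 0 := by
        rw [Ideal.Quotient.eq_zero_iff_mem]
        change f.graphHom (rename Sum.inr F) = 0
        rw [RatMap.graphHom, aeval_rename]
        have h3 : Y'.OnCone (fun j => Polynomial.C (Ideal.Quotient.mk Y.I (f.Φ j))) := by
          intro G hG
          have h4 := hgX (bind₁ f.Φ G)
          rw [Ideal.Quotient.eq_zero_iff_mem.2 (f.maps G hG), map_zero] at h4
          rw [← h4, rename_bind₁, RatMap.graphHom, aeval_bind₁]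
          congr 2
          funext j
          have h5 := hgX (f.Φ j)
          rw [RatMap.graphHom] at h5
          exact h5.symm
        exact h3.smul Polynomial.X F hF
      have h2 := hρmk (rename Sum.inr F)
      rw [h1, map_zero, aeval_rename] at h2
      exact h2.symm
  have happ : ∀ j, ρ (Ideal.Quotient.mk 𝔤 (rename Sum.inl (f.Φ j))) = f.app y j := by
    intro j
    rw [hρmk, aeval_rename]
    rfl
  have hrel : ∀ a b, y' a * f.app y b = y' b * f.app y a := by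
    intro a b
    rw [← happ, ← happ]
    change ρ _ * ρ _ = ρ _ * ρ _
    rw [← map_mul, ← map_mul, ← map_mul, ← map_mul]
    congr 1
    apply Ideal.Quotient.eq.2
    change f.graphHom _ = 0
    have h1 : ∀ j, f.graphHom (X (Sum.inr j)) =
        Polynomial.X * Polynomial.C (Ideal.Quotient.mk Y.I (f.Φ j)) := by
      intro j
      rw [RatMap.graphHom, aeval_X]
      rfl
    rw [map_sub, map_mul, map_mul, hgX, hgX, h1, h1]
    ring
  obtain ⟨i₀, hi₀⟩ := Function.ne_iff.1 w.2.1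
  have hyi₀ : y i₀ ≠ 0 := by
    intro h0
    apply notMem_nonunits_of_sub hC₀ hi₀ (hyV₀ i₀)
    rw [h0]
    exact V₀.nonunits.zero_mem
  have hfy : f.app y j₀ ≠ 0 := by
    rw [← happ]
    exact hρh
  -- the polynomial `π`
  have hbint : ∀ x : MvPolynomial (Fin (N + 1) ⊕ Fin (N' + 1)) ℂ ⧸ 𝔤, ρ x ∈ Aff s₀ := hint
  let b : Aff s₀ := ⟨y i₀ * f.app y j₀, (Aff s₀).mul_mem (hbint _) (by
    rw [← happ]; exact hbint _)⟩
  have hb : b ≠ 0 := fun h0 => (mul_ne_zero hyi₀ hfy) (congrArg Subtype.val h0)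
  obtain ⟨⟨r, hr⟩, hr0, ⟨q, hq⟩⟩ := (Algebra.IsIntegral.isIntegral (R := Algebra.adjoin ℂ {s₀})
    b).isAlgebraic.exists_nonzero_dvd (mem_nonZeroDivisors_of_ne_zero hb)
  have hr' := hr
  rw [Algebra.adjoin_singleton_eq_range_aeval] at hr'
  obtain ⟨π, hπ⟩ := hr'
  have hπr : Polynomial.aeval s₀ π = r := hπ
  have hπ0 : π ≠ 0 := by
    rintro rfl
    apply hr0
    apply Subtype.ext
    change r = 0
    rw [← hπr, map_zero]
  have hπb : Polynomial.aeval s₀ π = (y i₀ * f.app y j₀) * (q : K) := by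
    rw [hπr]
    exact congrArg Subtype.val hq
  obtain ⟨u, hu, huV₀, hu1, hu2⟩ := exists_mover hK hs₀ hC₀ hsV₀ hπ0
  -- the good places
  have hgood : ∀ V : ValuationSubring K, (∀ c : ℂ, algebraMap ℂ K c ∈ V) →
      (s₀ ∈ V ∧ Polynomial.aeval s₀ π ∉ V.nonunits) → ∀ (p : Y.Pts ℂ) (p' : Y'.Pts ℂ),
      (∃ c : K, ∀ i, c * y i - algebraMap ℂ K (p.1 i) ∈ V.nonunits) →
      (∃ c : K, ∀ i, c * y' i - algebraMap ℂ K (p'.1 i) ∈ V.nonunits) → T (cls p) = cls p' := by
    rintro V hC ⟨hsV, hπV⟩ p p' ⟨c, hc⟩ ⟨c', hc'⟩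
    have hBV : ∀ x : Aff s₀, (x : K) ∈ V := aff_le hC hsV
    have hyV : ∀ i, y i ∈ V := fun i => hBV ⟨y i, hbint _⟩
    have hfV : f.app y j₀ ∈ V := by
      rw [← happ]
      exact hBV ⟨_, hbint _⟩
    refine hT.good hC hyV hrel (i₀ := i₀) ?_ (j₀ := j₀) ?_ hc hc'
    · intro h1
      apply hπV
      rw [hπb, mul_assoc, mul_comm]
      exact nonunits_mul (V.mul_mem _ _ hfV (hBV q)) h1
    · intro h1
      apply hπV
      rw [hπb, mul_comm (y i₀), mul_assoc, mul_comm]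
      exact nonunits_mul (V.mul_mem _ _ (hyV i₀) (hBV q)) h1
  -- the place `V₀`
  have hV₀ : ∀ (p : Y.Pts ℂ) (p' : Y'.Pts ℂ),
      (∃ c : K, ∀ i, c * y i - algebraMap ℂ K (p.1 i) ∈ V₀.nonunits) →
      (∃ c : K, ∀ i, c * y' i - algebraMap ℂ K (p'.1 i) ∈ V₀.nonunits) →
      cls w = cls p ∧ cls w' = cls p' := by
    rintro p p' ⟨c, hc⟩ ⟨c', hc'⟩
    constructor
    · apply cls_eq_of_prop
      intro a b
      exact value_prop hC₀ hc hyV₀ (fun a b => by ring) a b
    · apply cls_eq_of_prop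
      intro a b
      exact value_prop hC₀ hc' hy'V₀ (fun a b => by ring) a b
  -- the zeros and the poles of `u`
  have hu' : Transcendental ℂ u⁻¹ := fun h0 => hu (by
    have := h0.inv
    rwa [inv_inv] at this)
  obtain ⟨r₁, P, p, p', hP, hPp, hp, hp'⟩ := exists_zeros hK hu hy hy'
  obtain ⟨r₂, Q, q₁, q₁', hQ, hQq, hq₁, hq₁'⟩ := exists_zeros hK hu' hy hy'
  have rel := cls_relation hK hu hy hP hPp hp hQ hQq hq₁
  have rel' := cls_relation hK hu hy' hP hPp hp' hQ hQq hq₁'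
  have hmem : ∀ {v : K} {r : ℕ} {P : Fin r → Ideal (Aff v)},
      ∏ j, P j = Ideal.span {b : Aff v | (b : K) = v} → ∀ j, (⟨v, self_mem_aff v⟩ : Aff v) ∈ P j := by
    intro v r P hPp j
    have h1 : (⟨v, self_mem_aff v⟩ : Aff v) ∈ ∏ j, P j := by
      rw [hPp]
      exact Ideal.subset_span rfl
    exact (Ideal.prod_le_inf.trans (Finset.inf_le (Finset.mem_univ j))) h1
  have hCV : ∀ {v : K} {V : ValuationSubring K} (_ : ∀ b : Aff v, (b : K) ∈ V) (c : ℂ),
      algebraMap ℂ K c ∈ V := fun h c => C_mem_of_aff h c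
  have key₂ : ∀ j, T (cls (q₁ j)) = cls (q₁' j) := by
    intro j
    obtain ⟨V, hB, hV⟩ := exists_place_of_maximal (Q j) (hQ j)
    have hV' : ∀ b ∈ Q j, (b : K) ∈ V.nonunits := fun b hb => by
      rw [← hV] at hb; exact hb
    exact hgood V (hCV hB) (hu2 V (hCV hB) (hV' _ (hmem hQq j))) _ _ ((hq₁ j).sub_mem hV')
      ((hq₁' j).sub_mem hV')
  have key₁ : ∀ j, T (cls (p j)) - cls (p' j) = 0 ∨
      T (cls (p j)) - cls (p' j) = T (cls w) - cls w' := by
    intro j
    obtain ⟨V, hB, hV⟩ := exists_place_of_maximal (P j) (hP j)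
    have hV' : ∀ b ∈ P j, (b : K) ∈ V.nonunits := fun b hb => by
      rw [← hV] at hb; exact hb
    rcases hu1 V (hCV hB) (hV' _ (hmem hPp j)) with h1 | h1
    · left
      rw [hgood V (hCV hB) h1 _ _ ((hp j).sub_mem hV') ((hp' j).sub_mem hV'), sub_self]
    · right
      subst h1
      obtain ⟨h2, h3⟩ := hV₀ _ _ ((hp j).sub_mem hV') ((hp' j).sub_mem hV')
      rw [h2, h3]
  obtain ⟨j₁, hj₁⟩ : ∃ j, T (cls (p j)) - cls (p' j) = T (cls w) - cls w' := by
    have hB : ∀ b : Aff u, (b : K) ∈ V₀ := aff_le hC₀ (nonunits_le huV₀)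
    have hcen := centre_isPrime (Aff u) V₀ hB
    have h1 : ∏ j, P j ≤ centre (Aff u) V₀ hB := by
      rw [hPp, Ideal.span_le]
      intro x hx
      change (x : K) ∈ V₀.nonunits
      have hx' : (x : K) = u := hx
      rw [hx']
      exact huV₀
    obtain ⟨j, -, hj⟩ := (hcen.prod_le).1 h1
    have hV' : ∀ b ∈ P j, (b : K) ∈ V₀.nonunits := fun b hb => hj hb
    obtain ⟨h2, h3⟩ := hV₀ _ _ ((hp j).sub_mem hV') ((hp' j).sub_mem hV')
    exact ⟨j, by rw [h2, h3]⟩
  have hsum : ∑ j, (T (cls (p j)) - cls (p' j)) = 0 := by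
    rw [Finset.sum_sub_distrib, ← map_sum, rel, rel', map_sum, Finset.sum_congr rfl
      (fun j _ => key₂ j), sub_self]
  have hsum' : ∑ j, (T (cls (p j)) - cls (p' j)) =
      (Finset.univ.filter fun j => T (cls (p j)) - cls (p' j) ≠ 0).card •
        (T (cls w) - cls w') := by
    rw [← Finset.sum_filter_ne_zero, ← Finset.sum_const]
    refine Finset.sum_congr rfl fun j hj => ?_
    rcases key₁ j with h1 | h1
    · exact absurd h1 (Finset.mem_filter.1 hj).2
    · exact h1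
  by_contra hne
  have hne' : T (cls w) - cls w' ≠ 0 := sub_ne_zero.2 hne
  rw [hsum'] at hsum
  have h1 : (Finset.univ.filter fun j => T (cls (p j)) - cls (p' j) ≠ 0).card ≠ 0 := by
    rw [Finset.card_ne_zero]
    exact ⟨j₁, by rw [Finset.mem_filter, hj₁]; exact ⟨Finset.mem_univ _, hne'⟩⟩
  rw [← Nat.cast_smul_eq_nsmul ℚ] at hsum
  rcases smul_eq_zero.1 hsum with h2 | h2
  · exact h1 (by exact_mod_cast h2)
  · exact hne' h2

/-- **The filtration of Voisin and rational maps.** -/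
theorem SBV_rational (hY : Y.IsSmooth) {σ : TwoForm Y} (hσ : σ.Nondegenerate) {σ' : TwoForm Y'}
    {f : RatMap Y Y'} {c : ℂ} (hc : c ≠ 0) (hf : f.PullsBack σ' c σ) (T : CH0 Y →ₗ[ℚ] CH0 Y')
    (hT : f.ActsBy T) (n i : ℕ) :
    (SBV Y n i).map T ≤ SBV Y' n i ∧
      ((∃ g : RatMap Y' Y, f.LeftInv g) → Y'.IsSmooth → σ'.Nondegenerate → Function.Bijective T →
        (SBV Y n i).map T = SBV Y' n i) := by
  refine ⟨SBV_map_le hY hσ hc (isHomogeneous_one _ _) (fun h => Y.prime.ne_top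
      ((Ideal.eq_top_iff_one _).2 h)) (hf.on 1) hT.induces n i, ?_⟩
  rintro ⟨g, hfg⟩ hY' hσ' hbij
  exact SBV_birational hY hY' hσ hσ' hfg hc hf (LinearEquiv.ofBijective T hbij) hT.induces n i

end graph

end Pool.Agent.Helper397.HK
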