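import Mathlib

/-!
# Projective varieties, zero-cycles, orbits, and the filtration of Voisin: definitions

All varieties are closed irreducible subvarieties of projective spaces over `ℂ`, given by their
homogeneous prime ideals. Points are given by homogeneous coordinates.
-/

set_option autoImplicit false

open MvPolynomial

namespace Pool.Agent.Helper397.HK

/-- A closed irreducible subvariety of `ℙ^N` over `ℂ`: a homogeneous prime ideal `I` of
`ℂ[x_0, ..., x_N]` which does not contain all the variables. -/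
structure ProjVar (N : ℕ) where
  /-- the ideal -/
  I : Ideal (MvPolynomial (Fin (N + 1)) ℂ)
  prime : I.IsPrime
  homog : ∀ F ∈ I, ∀ d : ℕ, homogeneousComponent d F ∈ I
  relevant : ∃ i, X i ∉ I

variable {N N' : ℕ}

/-- The homogeneous coordinates `x ≠ 0` of the points of `Y` with coordinates in the field `K`. -/
def ProjVar.Pts (Y : ProjVar N) (K : Type*) [Field K] [Algebra ℂ K] : Set (Fin (N + 1) → K) :=
  {x | x ≠ 0 ∧ ∀ F ∈ Y.I, aeval x F = 0}

/-- `dim Y ≥ d`: the homogeneous coordinate ring has transcendence degree at least `d + 1`. -/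
def ProjVar.DimGE (Y : ProjVar N) (d : ℕ) : Prop :=
  ((d + 1 : ℕ) : Cardinal) ≤ Algebra.trdeg ℂ (MvPolynomial (Fin (N + 1)) ℂ ⧸ Y.I)

/-- `dim Y = d`: the homogeneous coordinate ring has transcendence degree `d + 1`. -/
def ProjVar.HasDim (Y : ProjVar N) (d : ℕ) : Prop :=
  Algebra.trdeg ℂ (MvPolynomial (Fin (N + 1)) ℂ ⧸ Y.I) = ((d + 1 : ℕ) : Cardinal)

/-- `Y` is smooth: the affine cone over `Y` without its vertex, which is covered by the affine
schemes `Spec (ℂ[x] / I)[1 / x_i]`, is smooth over `ℂ`. -/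
def ProjVar.IsSmooth (Y : ProjVar N) : Prop :=
  ∀ i, Algebra.Smooth ℂ (Localization.Away (Ideal.Quotient.mk Y.I (X i)))

/-! ### Zero-cycles -/

/-- The data of a smooth projective curve `C` over `ℂ`, given by its function field `K`, of a
non-constant rational function `t` on `C`, and of a morphism `C → Y`, given by a point `y` of `Y`
with coordinates in `K`. -/
structure CurveIn (Y : ProjVar N) where
  /-- the function field of the curve -/
  K : Type
  [field : Field K]
  [alg : Algebra ℂ K]
  /-- the rational function -/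
  t : K
  trans : Transcendental ℂ t
  finite : FiniteDimensional (IntermediateField.adjoin ℂ {t}) K
  /-- the homogeneous coordinates of the morphism -/
  y : Fin (N + 1) → K
  mem : y ∈ Y.Pts K

/-- The integral closure of `ℂ[s]` in `K`. Its maximal ideals are the points at which `s` has no
pole of the smooth projective curve with the function field `K`. -/
abbrev Aff {K : Type*} [Field K] [Algebra ℂ K] (s : K) :
    Subalgebra (Algebra.adjoin ℂ {s}) K := integralClosure (Algebra.adjoin ℂ {s}) K

/-- The morphism with the homogeneous coordinates `y` maps the point `P` of the curve to the point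
`p`: after multiplication by some `c ≠ 0` the coordinates `c y i` are regular at `P`, and
`c y i ≡ p i` modulo `P`. -/
def ValueAt {K : Type*} [Field K] [Algebra ℂ K] (s : K) (y : Fin (N + 1) → K) (P : Ideal (Aff s))
    (p : Fin (N + 1) → ℂ) : Prop :=
  ∃ (c : K) (z : Fin (N + 1) → Aff s), c ≠ 0 ∧ (∀ i, (z i : K) = c * y i) ∧
    ∀ i, z i - algebraMap ℂ (Aff s) (p i) ∈ P

/-- `Z` is the image in `Y` of the divisor of zeros of the function `s`: the ideal of `s` is the
product of the maximal ideals `P j` (repeated according to their multiplicities), and `Z` is the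
sum of the images `p j` of the points `P j`. -/
def IsZeros (Y : ProjVar N) {K : Type*} [Field K] [Algebra ℂ K] (s : K) (y : Fin (N + 1) → K)
    (Z : Y.Pts ℂ →₀ ℚ) : Prop :=
  ∃ (r : ℕ) (P : Fin r → Ideal (Aff s)) (p : Fin r → Y.Pts ℂ),
    (∀ j, (P j).IsMaximal) ∧ ∏ j, P j = Ideal.span {b : Aff s | (b : K) = s} ∧
    (∀ j, ValueAt s y (P j) (p j).1) ∧ Z = ∑ j, Finsupp.single (p j) 1

/-- The cycles which are rationally equivalent to zero: they are generated by the images in `Y` of
the principal divisors `(zeros of t) - (zeros of 1 / t)` on smooth projective curves, and by the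
differences of proportional vectors of homogeneous coordinates (which give the same point). -/
noncomputable def ratZero (Y : ProjVar N) : Submodule ℚ (Y.Pts ℂ →₀ ℚ) :=
  Submodule.span ℚ
    ({Z | ∃ (x x' : Y.Pts ℂ) (c : ℂ), x'.1 = c • x.1 ∧
        Z = Finsupp.single x 1 - Finsupp.single x' 1} ∪
     {Z | ∃ (C : CurveIn Y) (Z₀ Z₁ : Y.Pts ℂ →₀ ℚ),
        @IsZeros N Y C.K C.field C.alg C.t C.y Z₀ ∧
        @IsZeros N Y C.K C.field C.alg (C.field.inv C.t) C.y Z₁ ∧ Z = Z₀ - Z₁})

/-- The Chow group of zero-cycles of `Y` with rational coefficients. -/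
abbrev CH0 (Y : ProjVar N) : Type := (Y.Pts ℂ →₀ ℚ) ⧸ ratZero Y

/-- The class of a point. -/
noncomputable def cls {Y : ProjVar N} (x : Y.Pts ℂ) : CH0 Y := Submodule.Quotient.mk (Finsupp.single x 1)

/-- `dim O_x ≥ d`, where `O_x` is the set of the points which are rationally equivalent to `x`:
there is a closed irreducible subvariety `W` of `Y` of dimension at least `d`, all points of which
are rationally equivalent to `x`. -/
def OrbitGE {Y : ProjVar N} (x : Y.Pts ℂ) (d : ℕ) : Prop :=
  ∃ W : ProjVar N, Y.I ≤ W.I ∧ W.DimGE d ∧ ∀ w : Y.Pts ℂ, w.1 ∈ W.Pts ℂ → cls w = cls x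

/-- The filtration of Voisin of a variety `Y` of dimension `2n`: `S_i CH_0(Y)` is generated by the
classes of the points `x` with `dim O_x ≥ n - i`. -/
noncomputable def SBV (Y : ProjVar N) (n i : ℕ) : Submodule ℚ (CH0 Y) :=
  Submodule.span ℚ {α | ∃ x : Y.Pts ℂ, OrbitGE x (n - i) ∧ α = cls x}

/-! ### Differential forms -/

/-- The differential of the polynomial `F` at `x` in the direction `u`. -/
noncomputable def dif {R : Type*} [CommRing R] [Algebra ℂ R] (F : MvPolynomial (Fin (N + 1)) ℂ)
    (x u : Fin (N + 1) → R) : R := ∑ i, aeval x (pderiv i F) * u i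

/-- The tangent space at `x` of the affine cone over `Y`. The tangent space of `Y` at the point
with the homogeneous coordinates `x` is its quotient by the line generated by `x`. -/
def ProjVar.Tan (Y : ProjVar N) {R : Type*} [CommRing R] [Algebra ℂ R] (x : Fin (N + 1) → R) :
    Set (Fin (N + 1) → R) := {u | ∀ F ∈ Y.I, dif F x u = 0}

/-- A regular 2-form on `Y`: alternating bilinear forms on the tangent spaces of `Y`, i.e. on
the tangent spaces of the cone over `Y` modulo the vector `x`, which are given, locally on `Y` for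
the Zariski topology, by `∑ (A i j / G) dx_i ⊗ dx_j`, where `G` and the `A i j` are homogeneous
polynomials of degrees `a + 2` and `a`. -/
structure TwoForm (Y : ProjVar N) where
  /-- the value at `x` on the tangent vectors `u` and `v` -/
  val : (Fin (N + 1) → ℂ) → (Fin (N + 1) → ℂ) → (Fin (N + 1) → ℂ) → ℂ
  alt : ∀ x ∈ Y.Pts ℂ, ∀ u ∈ Y.Tan x, val x u u = 0
  euler : ∀ x ∈ Y.Pts ℂ, ∀ u ∈ Y.Tan x, val x x u = 0
  regular : ∀ x ∈ Y.Pts ℂ, ∃ (a : ℕ) (G : MvPolynomial (Fin (N + 1)) ℂ)
    (A : Fin (N + 1) → Fin (N + 1) → MvPolynomial (Fin (N + 1)) ℂ),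
    G.IsHomogeneous (a + 2) ∧ (∀ i j, (A i j).IsHomogeneous a) ∧ aeval x G ≠ 0 ∧
    ∀ y ∈ Y.Pts ℂ, aeval y G ≠ 0 → ∀ u ∈ Y.Tan y, ∀ v ∈ Y.Tan y,
      aeval y G * val y u v = ∑ i, ∑ j, aeval y (A i j) * u i * v j

/-- The 2-form is nondegenerate at all points of `Y`. -/
def TwoForm.Nondegenerate {Y : ProjVar N} (σ : TwoForm Y) : Prop :=
  ∀ x ∈ Y.Pts ℂ, ∀ u ∈ Y.Tan x, (∀ v ∈ Y.Tan x, σ.val x u v = 0) → ∃ c : ℂ, u = c • x

/-! ### Rational maps -/

/-- A rational map `Y ⇢ Y'`, given by homogeneous polynomials of the same degree, which are not all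
zero on `Y` and which map the points of `Y` to points of `Y'`. -/
structure RatMap (Y : ProjVar N) (Y' : ProjVar N') where
  /-- the polynomials -/
  Φ : Fin (N' + 1) → MvPolynomial (Fin (N + 1)) ℂ
  /-- their degree -/
  deg : ℕ
  homog : ∀ j, (Φ j).IsHomogeneous deg
  maps : ∀ F ∈ Y'.I, bind₁ Φ F ∈ Y.I
  nonzero : ∃ j, Φ j ∉ Y.I

/-- The value at `x` of a rational map, in homogeneous coordinates. -/
noncomputable def RatMap.app {Y : ProjVar N} {Y' : ProjVar N'} (f : RatMap Y Y') {R : Type*}
    [CommRing R] [Algebra ℂ R] (x : Fin (N + 1) → R) : Fin (N' + 1) → R := fun j => aeval x (f.Φ j)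

/-- The differential at `x` of a rational map. -/
noncomputable def RatMap.dapp {Y : ProjVar N} {Y' : ProjVar N'} (f : RatMap Y Y') {R : Type*}
    [CommRing R] [Algebra ℂ R] (x u : Fin (N + 1) → R) : Fin (N' + 1) → R :=
  fun j => dif (f.Φ j) x u

/-- `f^* σ' = c σ`, at the points at which the polynomials defining `f` are not all zero. -/
def RatMap.PullsBack {Y : ProjVar N} {Y' : ProjVar N'} (f : RatMap Y Y') (σ' : TwoForm Y')
    (c : ℂ) (σ : TwoForm Y) : Prop :=
  ∀ x ∈ Y.Pts ℂ, f.app x ≠ 0 → ∀ u ∈ Y.Tan x, ∀ v ∈ Y.Tan x,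
    σ'.val (f.app x) (f.dapp x u) (f.dapp x v) = c * σ.val x u v

/-- `g` is inverse to `f` as a rational map: `g (f (x))` is proportional to `x` and not
identically zero. -/
def RatMap.LeftInv {Y : ProjVar N} {Y' : ProjVar N'} (g : RatMap Y' Y) (f : RatMap Y Y') : Prop :=
  (∃ i, bind₁ f.Φ (g.Φ i) ∉ Y.I) ∧
    ∀ i j, X i * bind₁ f.Φ (g.Φ j) - X j * bind₁ f.Φ (g.Φ i) ∈ Y.I

/-- The linear map `T` is the action on zero-cycles of the rational map `f`: it maps the class of
`x` to the class of `f(x)`, for all points `x` at which the polynomials which define `f` are not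
all zero. -/
def RatMap.ActsBy {Y : ProjVar N} {Y' : ProjVar N'} (f : RatMap Y Y') (T : CH0 Y →ₗ[ℚ] CH0 Y') :
    Prop := ∀ (x : Y.Pts ℂ) (x' : Y'.Pts ℂ), f.app x.1 = x'.1 → T (cls x) = cls x'

end Pool.Agent.Helper397.HK
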