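import Pool.Agent.Helper397.HK.Core

/-!
# The generic arc through the generic point of a subvariety
-/

set_option autoImplicit false

open MvPolynomial

namespace Pool.Agent.Helper397.HK

variable {N N' : ℕ}

lemma linInd_map {K L ι n : Type*} [Field K] [Field L] [Fintype ι] [DecidableEq ι] [Fintype n]
    (φ : K →+* L) (u : ι → n → K) (h : LinearIndependent K u) :
    LinearIndependent L (fun i k => φ (u i k)) :=
  linInd_of_reduction (RingHom.id K) φ φ.injective u h

section limit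

variable {κ : Type*} [Field κ] [Algebra ℂ κ] {Y : ProjVar N} {Y' : ProjVar N'}

/-- The equations of the graph at the limit of an arc. -/
theorem RatMap.graph_limit {f : RatMap Y Y'} {γ : Fin (N + 1) → PowerSeries κ}
    (hγ : Y.OnCone γ) (hγne : γ ≠ 0) {k : ℕ} {γ' : Fin (N' + 1) → PowerSeries κ}
    (hk : f.app γ = (PowerSeries.X : PowerSeries κ) ^ k • γ')
    {B : MvPolynomial (Fin (N + 1) ⊕ Fin (N' + 1)) ℂ}
    (hB : ∀ x ∈ Y.Pts ℂ, ∀ c : ℂ, aeval (Sum.elim x (c • f.app x)) B = 0) {a : κ} (b : κ)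
    (ha : a ≠ 0) :
    aeval (Sum.elim (a • fun i => ccHom κ (γ i)) (b • fun i => ccHom κ (γ' i))) B = 0 := by
  have hX : (PowerSeries.X : PowerSeries κ) ^ k ≠ 0 := pow_ne_zero _ PowerSeries.X_ne_zero
  obtain ⟨ψ, hψ⟩ : ∃ ψ : PowerSeries κ →ₐ[ℂ] FractionRing (PowerSeries κ), Function.Injective ψ :=
    ⟨toFrac _, toFrac_injective⟩
  set aL : FractionRing (PowerSeries κ) := ψ (PowerSeries.C a) with haLdef
  set bL : FractionRing (PowerSeries κ) := ψ (PowerSeries.C b) with hbLdef
  set XL : FractionRing (PowerSeries κ) := ψ (PowerSeries.X ^ k) with hXLdef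
  have haL : aL ≠ 0 := by
    intro h
    apply ha
    have h8 : PowerSeries.C a = (0 : PowerSeries κ) := hψ (by rw [map_zero]; exact h)
    exact PowerSeries.C_injective (by rw [h8, map_zero])
  have hXL : XL ≠ 0 := by
    intro h
    exact hX (hψ (by rw [map_zero]; exact h))
  have hγL : (fun i => ψ (γ i)) ≠ 0 := by
    intro h
    apply hγne
    funext i
    exact hψ (by rw [Pi.zero_apply, map_zero]; exact congrFun h i)
  have hx : (aL • fun i => ψ (γ i)) ∈ Y.Pts (FractionRing (PowerSeries κ)) := by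
    refine ⟨fun h => ?_, (hγ.map ψ).smul aL⟩
    rcases smul_eq_zero.1 h with h9 | h9
    · exact haL h9
    · exact hγL h9
  have h10 := f.graph_transfer hB hx (bL / (aL ^ f.deg * XL))
  have h11 : (bL / (aL ^ f.deg * XL)) • f.app (aL • fun i => ψ (γ i)) =
      fun i => ψ (PowerSeries.C b * γ' i) := by
    rw [f.app_smul, f.app_map ψ γ, hk]
    funext i
    simp only [Pi.smul_apply, smul_eq_mul, map_mul]
    rw [← hXLdef, ← hbLdef]
    field_simp
  rw [h11] at h10
  have h12 : (Sum.elim (aL • fun i => ψ (γ i)) (fun i => ψ (PowerSeries.C b * γ' i)) :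
      Fin (N + 1) ⊕ Fin (N' + 1) → FractionRing (PowerSeries κ)) =
      fun s => ψ (Sum.elim (fun i => PowerSeries.C a * γ i) (fun i => PowerSeries.C b * γ' i) s) := by
    funext s
    rcases s with i | i
    · simp only [Sum.elim_inl, Pi.smul_apply, smul_eq_mul, map_mul]
      rfl
    · rfl
  rw [h12, aeval_map] at h10
  have h13 : aeval (Sum.elim (fun i => PowerSeries.C a * γ i)
      (fun i => PowerSeries.C b * γ' i)) B = 0 := hψ (by rw [map_zero]; exact h10)
  have h14 := congrArg (ccHom κ) h13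
  rw [← aeval_map, map_zero] at h14
  rw [← h14]
  congr 2
  funext s
  rcases s with i | i
  · simp only [Sum.elim_inl, Pi.smul_apply, smul_eq_mul, map_mul]
    rw [show ccHom κ (PowerSeries.C a) = a from PowerSeries.constantCoeff_C a]
  · simp only [Sum.elim_inr, Pi.smul_apply, smul_eq_mul, map_mul]
    rw [show ccHom κ (PowerSeries.C b) = b from PowerSeries.constantCoeff_C b]

end limit

section arc

variable {κ₀ κ : Type*} [Field κ₀] [Field κ] [Algebra ℂ κ₀] [Algebra κ₀ κ] [Algebra ℂ κ]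
  [IsScalarTower ℂ κ₀ κ] {Y : ProjVar N}

/-- The data of the generic arc. -/
theorem exists_generic_arc (hY : Y.IsSmooth) {W : ProjVar N} {w₀ : Fin (N + 1) → κ₀}
    (hw₀ : w₀ ∈ Y.Pts κ₀) (hW : ∀ F, aeval w₀ F = 0 ↔ F ∈ W.I) {d m : ℕ}
    (D : Fin d → Derivation ℂ κ₀ κ₀)
    (b : Module.Basis (Fin (d + 1) ⊕ Fin m) κ₀ (Y.tanSub w₀))
    (hb : ∀ i, ((b (Sum.inl i) : Y.tanSub w₀) : Fin (N + 1) → κ₀) =
      (Fin.cons w₀ (fun j k => D j (w₀ k)) : Fin (d + 1) → Fin (N + 1) → κ₀) i)
    (ν : Fin m → κ) (hν : AlgebraicIndependent κ₀ ν) :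
    ∃ (γ : Fin (N + 1) → PowerSeries κ) (δ : Fin d ⊕ Fin m → Derivation ℂ κ κ)
      (β : Fin d ⊕ Fin m → Fin (N + 1) → PowerSeries κ) (Δ : Fin d ⊕ Fin m → PowerSeries κ),
      Y.OnCone γ ∧ (fun i => ccHom κ (γ i)) = (fun i => algebraMap κ₀ κ (w₀ i)) ∧
      (∀ i, Δ i ≠ 0) ∧ (∀ i, (fun k => derCoeff (δ i) (γ k)) = Δ i • β i) ∧
      LinearIndependent κ
        (fun o : Option (Fin d ⊕ Fin m) => o.elim (fun k => ccHom κ (γ k))
          (fun i k => ccHom κ (β i k))) ∧
      Module.finrank κ (Y.tanSub (fun i => ccHom κ (γ i))) ≤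
        Fintype.card (Fin d ⊕ Fin m) + 1 ∧
      ∏ i, Δ i = (PowerSeries.X : PowerSeries κ) ^ m := by
  classical
  have hchar : CharZero κ₀ := charZero_of_injective_algebraMap (algebraMap ℂ κ₀).injective
  let e : Fin m → Fin (N + 1) → κ₀ := fun k => b (Sum.inr k)
  set w : Fin (N + 1) → κ := fun i => algebraMap κ₀ κ (w₀ i) with hwdef
  have hgen : ∀ F, aeval w F = algebraMap κ₀ κ (aeval w₀ F) := fun F =>
    aeval_map (IsScalarTower.toAlgHom ℂ κ₀ κ) w₀ F
  have hwY : w ∈ Y.Pts κ := by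
    refine ⟨?_, ?_⟩
    · intro h
      apply hw₀.1
      funext i
      apply (algebraMap κ₀ κ).injective
      rw [Pi.zero_apply, map_zero]
      exact congrFun h i
    · intro F hF
      rw [hgen, hw₀.2 F hF, map_zero]
  -- the derivations
  have h1 : ∀ j : Fin d, ∃ D' : Derivation ℂ κ κ, ∀ x, D' (algebraMap κ₀ κ x) =
      algebraMap κ₀ κ (D j x) := by
    intro j
    exact exists_ext_der ((Algebra.linearMap κ₀ κ).compDer (D j))
  choose D₁ hD₁ using h1
  have h2 : ∀ k : Fin m, ∃ D' : Derivation κ₀ κ κ, ∀ l, D' (ν l) = if l = k then 1 else 0 :=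
    fun k => Pool.Agent.H135R2.VS.exists_der hν _
  choose D₂ hD₂ using h2
  let δ : Fin d ⊕ Fin m → Derivation ℂ κ κ := Sum.elim D₁ (fun k => (D₂ k).restrictScalars ℂ)
  -- the arc
  let u : Fin (N + 1) → κ := ∑ k, ν k • fun i => algebraMap κ₀ κ (e k i)
  have hu : u ∈ Y.tanSub w := Submodule.sum_mem _ fun k _ => Submodule.smul_mem _ _
    (ProjVar.tan_map (IsScalarTower.toAlgHom ℂ κ₀ κ) (b (Sum.inr k)).2)
  obtain ⟨γ, hγ, hγ0, hγ1⟩ := exists_arc Y hY hwY hu
  have hγw : (fun i => ccHom κ (γ i)) = w := funext fun i => hγ0 i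
  -- the derivatives of the arc
  have h3 : ∀ (k : Fin m) (i : Fin (N + 1)), ∃ y, derCoeff (δ (Sum.inr k)) (γ i) =
      PowerSeries.X * y := by
    intro k i
    apply PowerSeries.X_dvd_iff.2
    rw [constantCoeff_derCoeff, hγ0]
    exact (D₂ k).map_algebraMap _
  choose β₂ hβ₂ using h3
  let β : Fin d ⊕ Fin m → Fin (N + 1) → PowerSeries κ :=
    Sum.elim (fun j i => derCoeff (δ (Sum.inl j)) (γ i)) β₂
  let Δ : Fin d ⊕ Fin m → PowerSeries κ := Sum.elim (fun _ => 1) (fun _ => PowerSeries.X)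
  have hΔ : ∀ i, Δ i ≠ 0 := by
    rintro (j | k)
    · exact one_ne_zero
    · exact PowerSeries.X_ne_zero
  have hβ : ∀ i, (fun k => derCoeff (δ i) (γ k)) = Δ i • β i := by
    rintro (j | k)
    · simp only [β, Δ, Sum.elim_inl, one_smul]
    · funext i
      exact hβ₂ k i
  have hb1 : ∀ (j : Fin d) (i : Fin (N + 1)), ccHom κ (β (Sum.inl j) i) =
      algebraMap κ₀ κ (D j (w₀ i)) := by
    intro j i
    change PowerSeries.constantCoeff (derCoeff (δ (Sum.inl j)) (γ i)) = _
    rw [constantCoeff_derCoeff, hγ0]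
    exact hD₁ j (w₀ i)
  have hb2 : ∀ (k : Fin m) (i : Fin (N + 1)), ccHom κ (β (Sum.inr k) i) =
      algebraMap κ₀ κ (e k i) := by
    intro k i
    change PowerSeries.constantCoeff (β₂ k i) = _
    have h4 := congrArg (PowerSeries.coeff 1) (hβ₂ k i)
    have h5 : PowerSeries.coeff 1 (PowerSeries.X * β₂ k i) = PowerSeries.constantCoeff (β₂ k i) := by
      rw [← PowerSeries.coeff_zero_eq_constantCoeff_apply]
      exact PowerSeries.coeff_succ_X_mul 0 _
    rw [h5, coeff_derCoeff, hγ1] at h4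
    rw [← h4]
    change D₂ k (u i) = _
    simp only [u, Finset.sum_apply, Pi.smul_apply, smul_eq_mul, map_sum, Derivation.leibniz,
      Derivation.map_algebraMap, hD₂]
    rw [Finset.sum_eq_single k]
    · simp
    · intro l _ hl
      simp [hl]
    · simp
  let E : Option (Fin d ⊕ Fin m) → Fin (d + 1) ⊕ Fin m := fun o =>
    o.elim (Sum.inl 0) (Sum.elim (fun j => Sum.inl j.succ) Sum.inr)
  have hE : Function.Injective E := by
    rintro (_ | (j | k)) (_ | (j' | k')) h
    · rfl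
    · exact absurd (Sum.inl_injective h) (Fin.succ_ne_zero j').symm
    · exact absurd h Sum.inl_ne_inr
    · exact absurd (Sum.inl_injective h) (Fin.succ_ne_zero j)
    · rw [Fin.succ_injective _ (Sum.inl_injective h)]
    · exact absurd h Sum.inl_ne_inr
    · exact absurd h Sum.inr_ne_inl
    · exact absurd h Sum.inr_ne_inl
    · rw [Sum.inr_injective h]
  have hli₀ : LinearIndependent κ₀ (fun o => ((b (E o) : Y.tanSub w₀) : Fin (N + 1) → κ₀)) :=
    (b.linearIndependent.comp E hE).map' (Y.tanSub w₀).subtype (Submodule.ker_subtype _)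
  have hli : LinearIndependent κ
      (fun o : Option (Fin d ⊕ Fin m) => o.elim (fun k => ccHom κ (γ k))
        (fun i k => ccHom κ (β i k))) := by
    have h4 := linInd_map (algebraMap κ₀ κ) _ hli₀
    convert h4 using 1
    funext o
    rcases o with _ | (j | k)
    · rw [Option.elim_none, hγw]
      funext i
      change algebraMap κ₀ κ (w₀ i) = algebraMap κ₀ κ ((b (Sum.inl 0) : Fin (N + 1) → κ₀) i)
      rw [hb]
      rfl
    · funext i
      change ccHom κ (β (Sum.inl j) i) = algebraMap κ₀ κ ((b (Sum.inl j.succ) : Fin (N + 1) → κ₀) i)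
      rw [hb1, hb]
      rfl
    · funext i
      change ccHom κ (β (Sum.inr k) i) = algebraMap κ₀ κ ((b (Sum.inr k) : Fin (N + 1) → κ₀) i)
      rw [hb2]
  have hfin : Module.finrank κ (Y.tanSub (fun i => ccHom κ (γ i))) ≤
      Fintype.card (Fin d ⊕ Fin m) + 1 := by
    rw [hγw]
    obtain ⟨t, ht⟩ := Y.exists_gens
    have h4 := finrank_tan_add Y ht hwY.2
    have h5 := finrank_tan_add Y ht hw₀.2
    have h6 := rank_jac_le W t (w := w₀) (fun F hF => (hW F).2 hF) (η := w) (by
      intro F hF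
      rw [hgen] at hF
      rw [← hW]
      exact (algebraMap κ₀ κ).injective (by rw [hF, map_zero]))
    have h7 := Module.finrank_eq_card_basis b
    rw [Fintype.card_sum, Fintype.card_fin, Fintype.card_fin] at h7 ⊢
    omega
  have he : ∏ i, Δ i = (PowerSeries.X : PowerSeries κ) ^ m := by
    rw [Fintype.prod_sum_type]
    simp [Δ]
  exact ⟨γ, δ, β, Δ, hγ, hγw, hΔ, hβ, hli, hfin, he⟩

end arc

end Pool.Agent.Helper397.HK
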