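import Pool.Agent.Helper397.HK.GenericArc

/-!
# The limit of the generic arc
-/

set_option autoImplicit false

open MvPolynomial

namespace Pool.Agent.Helper397.HK

variable {N N' : ℕ}

/-- **The limit of the generic arc.** Let `W` be a closed subvariety of `Y` of dimension at least
`d`, and let `f` be compatible with the forms. Then there is a pair `(w, w')` of points with
coordinates in a field `κ`, in the closure of the graph of `f`, such that `w` is in `W` and the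
locus of `w'` has dimension at least `d`. -/
theorem exists_limit {Y : ProjVar N} {Y' : ProjVar N'} (hY : Y.IsSmooth) {f : RatMap Y Y'}
    {σ : TwoForm Y} (hσ : σ.Nondegenerate)
    {σ' : TwoForm Y'} {c : ℂ} (hc : c ≠ 0) {H : MvPolynomial (Fin (N + 1)) ℂ} {dH : ℕ}
    (hHd : H.IsHomogeneous dH) (hH : H ∉ Y.I) (hf : f.PullsBackOn H σ' c σ) {W : ProjVar N}
    (hW : Y.I ≤ W.I) {d : ℕ} (hd : W.DimGE d) :
    ∃ (κ : Type) (_ : Field κ) (_ : Algebra ℂ κ) (w : Fin (N + 1) → κ) (w' : Fin (N' + 1) → κ),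
      w ∈ W.Pts κ ∧ w' ∈ Y'.Pts κ ∧ (∃ hw' : w' ≠ 0, (locus w' hw').DimGE d) ∧
      ∀ B : MvPolynomial (Fin (N + 1) ⊕ Fin (N' + 1)) ℂ,
        (∀ x ∈ Y.Pts ℂ, ∀ c : ℂ, aeval (Sum.elim x (c • f.app x)) B = 0) →
        ∀ a b : κ, a ≠ 0 → aeval (Sum.elim (a • w) (b • w')) B = 0 := by
  classical
  have hWp := W.prime
  obtain ⟨D, hD⟩ := exists_ders W hd
  have hw₀ : W.gen ∈ Y.Pts _ := ⟨W.gen_mem.1, fun F hF => W.gen_mem.2 F (hW hF)⟩
  have hw₀c : Y.OnCone W.gen := hw₀.2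
  -- the basis of the tangent space
  let v : Fin (d + 1) → Y.tanSub W.gen := Fin.cons ⟨W.gen, hw₀c.self_mem_tan⟩
    (fun j => ⟨fun k => D j (W.gen k), hw₀c.der_mem_tan (D j)⟩)
  have hv1 : ∀ i, ((v i : Y.tanSub W.gen) :
      Fin (N + 1) → FractionRing (MvPolynomial (Fin (N + 1)) ℂ ⧸ W.I)) =
      (Fin.cons W.gen (fun j k => D j (W.gen k)) : Fin (d + 1) → Fin (N + 1) →
        FractionRing (MvPolynomial (Fin (N + 1)) ℂ ⧸ W.I)) i := by
    intro i
    refine Fin.cases ?_ (fun j => ?_) i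
    · rfl
    · rfl
  have hv : LinearIndependent (FractionRing (MvPolynomial (Fin (N + 1)) ℂ ⧸ W.I)) v := by
    apply LinearIndependent.of_comp (Y.tanSub W.gen).subtype
    have : (Y.tanSub W.gen).subtype ∘ v =
        (Fin.cons W.gen (fun j k => D j (W.gen k)) : Fin (d + 1) → Fin (N + 1) →
          FractionRing (MvPolynomial (Fin (N + 1)) ℂ ⧸ W.I)) := by
      funext i
      exact hv1 i
    rw [this]
    exact hD
  obtain ⟨m, b, hb⟩ := exists_basis_extend hv
  obtain ⟨κ, _, _, _, _, ν, hν⟩ : ∃ (κ : Type) (_ : Field κ)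
      (_ : Algebra (FractionRing (MvPolynomial (Fin (N + 1)) ℂ ⧸ W.I)) κ) (_ : Algebra ℂ κ)
      (_ : IsScalarTower ℂ (FractionRing (MvPolynomial (Fin (N + 1)) ℂ ⧸ W.I)) κ) (ν : Fin m → κ),
      AlgebraicIndependent (FractionRing (MvPolynomial (Fin (N + 1)) ℂ ⧸ W.I)) ν := by
    refine ⟨FractionRing (MvPolynomial (Fin m)
      (FractionRing (MvPolynomial (Fin (N + 1)) ℂ ⧸ W.I))), inferInstance, inferInstance,
      inferInstance, inferInstance, fun k => algebraMap (MvPolynomial (Fin m)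
        (FractionRing (MvPolynomial (Fin (N + 1)) ℂ ⧸ W.I))) _ (X k), ?_⟩
    exact (MvPolynomial.algebraicIndependent_X (Fin m) _).map'
      (f := IsScalarTower.toAlgHom (FractionRing (MvPolynomial (Fin (N + 1)) ℂ ⧸ W.I)) _ _)
      (IsFractionRing.injective (MvPolynomial (Fin m) _) _)
  obtain ⟨γ, δ, β, Δ, hγ, hγw, hΔ, hβ, hli, hfin, he⟩ :=
    exists_generic_arc (κ := κ) hY hw₀ (fun F => W.aeval_gen_eq_zero F) D b
      (fun i => by rw [hb, hv1]) ν hν
  have hw0 : (fun i => ccHom κ (γ i)) ≠ 0 := by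
    rw [hγw]
    intro h
    apply hw₀.1
    funext i
    apply (algebraMap (FractionRing (MvPolynomial (Fin (N + 1)) ℂ ⧸ W.I)) κ).injective
    rw [Pi.zero_apply, map_zero]
    exact congrFun h i
  obtain ⟨k, γ', hk, hw', hdim⟩ := dim_locus_limit hσ hc hHd hH hf hγ hw0 δ β Δ hΔ
    hβ hli hfin he (d := d) (by simp)
  have hX : (PowerSeries.X : PowerSeries κ) ^ k ≠ 0 := pow_ne_zero _ PowerSeries.X_ne_zero
  have hγ' : Y'.OnCone γ' := ProjVar.OnCone.of_smul hX (by rw [← hk]; exact f.onCone hγ)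
  have hγne : γ ≠ 0 := by
    intro h
    apply hw0
    rw [h]
    funext i
    simp
  refine ⟨κ, inferInstance, inferInstance, fun i => ccHom κ (γ i), fun i => ccHom κ (γ' i),
    ⟨hw0, ?_⟩, ⟨hw', hγ'.map _⟩, ⟨hw', hdim⟩, ?_⟩
  · intro F hF
    rw [hγw]
    have h1 := aeval_map (IsScalarTower.toAlgHom ℂ
      (FractionRing (MvPolynomial (Fin (N + 1)) ℂ ⧸ W.I)) κ) W.gen F
    rw [(W.aeval_gen_eq_zero F).2 hF, map_zero] at h1
    exact h1
  · intro B hB a b' ha
    exact RatMap.graph_limit hγ hγne hk hB b' ha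

end Pool.Agent.Helper397.HK
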