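import Mathlib

/-!
# Minors, and orders of determinants of matrices of power series
-/

set_option autoImplicit false

namespace Pool.Agent.Helper397.HK

section minor

variable {ι n : Type*} [Fintype ι] [DecidableEq ι] [Fintype n]

/-- Independent rows have a minor which is not zero. -/
theorem exists_minor {K : Type*} [Field K] (u : ι → n → K) (hu : LinearIndependent K u) :
    ∃ j : ι → n, (Matrix.of fun a b => u a (j b)).det ≠ 0 := by
  classical
  let A : Matrix ι n K := Matrix.of u
  have h1 : A.rank = Fintype.card ι := LinearIndependent.rank_matrix (M := A) hu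
  rw [Matrix.rank_eq_finrank_span_cols] at h1
  have h2 : Submodule.span K (Set.range A.col) = ⊤ := by
    apply Submodule.eq_top_of_finrank_eq
    rw [h1]
    simp
  obtain ⟨b, hb1, hb2, hb3⟩ := exists_linearIndependent K (Set.range A.col)
  rw [h2] at hb2
  let B : Module.Basis b K (ι → K) := Module.Basis.mk hb3 (by
    rw [Subtype.range_coe_subtype, Set.ofPred_mem_eq, hb2])
  have hfin : Fintype b := FiniteDimensional.fintypeBasisIndex B
  have hcard : Fintype.card ι = Fintype.card b := by
    have := Module.finrank_eq_card_basis B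
    rw [← this]
    simp
  let e : ι ≃ b := Fintype.equivOfCardEq hcard
  have h3 : ∀ i : ι, ∃ k : n, A.col k = e i := fun i => hb1 (e i).2
  choose j hj using h3
  refine ⟨j, ?_⟩
  have h4 : LinearIndependent K (fun i : ι => (e i : ι → K)) := hb3.comp e e.injective
  have h5 : (Matrix.of fun a b => u a (j b)) = (Matrix.of fun i : ι => (e i : ι → K)).transpose := by
    ext a b
    rw [Matrix.transpose_apply, Matrix.of_apply, Matrix.of_apply, ← hj b]
    rfl
  rw [h5, Matrix.det_transpose]
  have h6 := (Matrix.linearIndependent_rows_iff_isUnit (A := Matrix.of fun i : ι => (e i : ι → K))).1 h4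
  exact ((Matrix.isUnit_iff_isUnit_det _).1 h6).ne_zero

omit [Fintype n] in
/-- If a minor is not zero then the rows are independent. -/
theorem linInd_of_minor {K : Type*} [Field K] (u : ι → n → K) (j : ι → n)
    (h : (Matrix.of fun a b => u a (j b)).det ≠ 0) : LinearIndependent K u := by
  have h1 : LinearIndependent K (Matrix.of fun a b => u a (j b)).row :=
    Matrix.linearIndependent_rows_iff_isUnit.2
      ((Matrix.isUnit_iff_isUnit_det _).2 (isUnit_iff_ne_zero.2 h))
  let L : (n → K) →ₗ[K] (ι → K) := LinearMap.pi fun b => LinearMap.proj (j b)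
  exact LinearIndependent.of_comp L h1

lemma det_map_ne_zero {R S : Type*} [CommRing R] [CommRing S] (φ : R →+* S) (M : Matrix ι ι R)
    (h : (M.map φ).det ≠ 0) : M.det ≠ 0 := by
  intro h0
  apply h
  rw [← RingHom.mapMatrix_apply, ← RingHom.map_det, h0, map_zero]

/-- Vectors with independent reductions are independent. -/
theorem linInd_of_reduction {R K L : Type*} [CommRing R] [Field K] [Field L] (φ : R →+* K)
    (ψ : R →+* L) (hψ : Function.Injective ψ) (u : ι → n → R)
    (h : LinearIndependent K (fun i k => φ (u i k))) : LinearIndependent L (fun i k => ψ (u i k)) := by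
  obtain ⟨j, hj⟩ := exists_minor _ h
  refine linInd_of_minor _ j ?_
  have h1 : (Matrix.of fun a b => φ (u a (j b))) = (Matrix.of fun a b => u a (j b)).map φ := by
    ext a b; rfl
  have h2 : (Matrix.of fun a b => ψ (u a (j b))) = (Matrix.of fun a b => u a (j b)).map ψ := by
    ext a b; rfl
  rw [h1] at hj
  have h3 := det_map_ne_zero φ _ hj
  rw [h2, ← RingHom.mapMatrix_apply, ← RingHom.map_det]
  intro h4
  exact h3 (hψ (by rw [h4, map_zero]))

end minor

/-- Independent vectors can be completed to a basis. -/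
theorem exists_basis_extend {K V ι : Type*} [Field K] [AddCommGroup V] [Module K V]
    [Module.Finite K V] {v : ι → V} (hv : LinearIndependent K v) :
    ∃ (m : ℕ) (b : Module.Basis (ι ⊕ Fin m) K V), ∀ i, b (Sum.inl i) = v i := by
  classical
  let b := Module.Basis.sumExtend hv
  have hb : ∀ i, b (Sum.inl i) = v i := by
    intro i
    have h1 := Module.Basis.extend_apply_self hv.linearIndepOn_id
      ⟨v i, hv.linearIndepOn_id.subset_extend _ ⟨i, rfl⟩⟩
    refine Eq.trans ?_ h1
    simp only [b, Module.Basis.sumExtend, Module.Basis.reindex_apply]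
    rfl
  have : Finite (ι ⊕ Module.Basis.sumExtendIndex hv) := Module.Finite.finite_basis b
  have : Finite (Module.Basis.sumExtendIndex hv) := Finite.sum_right (α := ι)
  obtain ⟨m, ⟨e⟩⟩ := Finite.exists_equiv_fin (Module.Basis.sumExtendIndex hv)
  refine ⟨m, b.reindex (Equiv.sumCongr (Equiv.refl ι) e), fun i => ?_⟩
  rw [Module.Basis.reindex_apply, ← hb i]
  rfl

section ord

open PowerSeries

variable {κ : Type*} [Field κ] {ι : Type*} [Fintype ι] [DecidableEq ι]

lemma det_scale {R : Type*} [CommRing R] (M Q : Matrix ι ι R) (Δ : ι → R)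
    (h : ∀ i j, M i j = Δ i * Q i j * Δ j) : M.det = (∏ i, Δ i) ^ 2 * Q.det := by
  have h1 : M = Matrix.diagonal Δ * Q * Matrix.diagonal Δ := by
    ext i j
    rw [Matrix.mul_diagonal, Matrix.diagonal_mul, h]
  rw [h1, Matrix.det_mul, Matrix.det_mul, Matrix.det_diagonal]
  ring

/-- A matrix over the power series which is, modulo powers of `X`, degenerate on the subspace `U`,
has a determinant of high order. -/
theorem X_pow_dvd_det (S : Matrix ι ι κ⟦X⟧) (U : Submodule κ (ι → κ))
    (h1 : ∀ u ∈ U, ∀ v : ι → κ, (X : κ⟦X⟧) ∣ ∑ i, ∑ j, C (u i) * S i j * C (v j))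
    (h2 : ∀ u ∈ U, ∀ v : ι → κ, (X : κ⟦X⟧) ∣ ∑ i, ∑ j, C (v i) * S i j * C (u j))
    (h3 : ∀ u ∈ U, ∀ v ∈ U, (X : κ⟦X⟧) ^ 2 ∣ ∑ i, ∑ j, C (u i) * S i j * C (v j)) :
    (X : κ⟦X⟧) ^ (2 * Module.finrank κ U) ∣ S.det := by
  classical
  let b₁ := Module.finBasis κ U
  have hli : LinearIndependent κ (fun k => (b₁ k : ι → κ)) :=
    b₁.linearIndependent.map' U.subtype (Submodule.ker_subtype U)
  obtain ⟨m, b, hb⟩ := exists_basis_extend hli
  have hcard : Fintype.card ι = Fintype.card (Fin (Module.finrank κ U) ⊕ Fin m) := by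
    have := Module.finrank_eq_card_basis b
    rw [← this]
    simp
  let e : ι ≃ Fin (Module.finrank κ U) ⊕ Fin m :=
    Fintype.equivOfCardEq hcard
  -- the matrix of the basis
  let P : Matrix ι ι κ := Matrix.of fun a i => b (e a) i
  have hP : P.det ≠ 0 := by
    have h4 : LinearIndependent κ P.row := b.linearIndependent.comp e e.injective
    exact ((Matrix.isUnit_iff_isUnit_det _).1
      (Matrix.linearIndependent_rows_iff_isUnit.1 h4)).ne_zero
  let PC : Matrix ι ι κ⟦X⟧ := P.map C
  have hPC : IsUnit PC.det := by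
    have : PC.det = C P.det := by
      rw [RingHom.map_det, RingHom.mapMatrix_apply]
    rw [this]
    exact (isUnit_iff_ne_zero.2 hP).map C
  let S' : Matrix ι ι κ⟦X⟧ := PC * S * PC.transpose
  have hS' : ∀ a a', S' a a' = ∑ i, ∑ j, C (b (e a) i) * S i j * C (b (e a') j) := by
    intro a a'
    simp only [S', Matrix.mul_apply, Matrix.transpose_apply, Finset.sum_mul]
    rw [Finset.sum_comm]
    rfl
  let Δ : ι → κ⟦X⟧ := fun a => Sum.elim (fun _ => X) (fun _ => 1) (e a)
  have hQ : ∀ a a', ∃ q, S' a a' = Δ a * q * Δ a' := by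
    intro a a'
    rw [hS']
    have hU : ∀ k, b (Sum.inl k) ∈ U := fun k => by rw [hb]; exact (b₁ k).2
    rcases ha : e a with k | k <;> rcases ha' : e a' with k' | k'
    · obtain ⟨q, hq⟩ := h3 _ (hU k) _ (hU k')
      exact ⟨q, by rw [hq]; simp only [Δ, ha, ha', Sum.elim_inl]; ring⟩
    · obtain ⟨q, hq⟩ := h1 _ (hU k) (b (Sum.inr k'))
      exact ⟨q, by rw [hq]; simp only [Δ, ha, ha', Sum.elim_inl, Sum.elim_inr]; ring⟩
    · obtain ⟨q, hq⟩ := h2 _ (hU k') (b (Sum.inr k))
      exact ⟨q, by rw [hq]; simp only [Δ, ha, ha', Sum.elim_inl, Sum.elim_inr]; ring⟩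
    · exact ⟨∑ i, ∑ j, C (b (Sum.inr k) i) * S i j * C (b (Sum.inr k') j), by
        simp only [Δ, ha, ha', Sum.elim_inr]; ring⟩
  choose q hq using hQ
  have h5 := det_scale S' (Matrix.of q) Δ hq
  have h6 : ∏ a, Δ a = X ^ (Module.finrank κ U) := by
    have : ∏ a, Δ a = ∏ k, Sum.elim (fun _ => (X : κ⟦X⟧)) (fun _ => 1) k :=
      Equiv.prod_comp e (fun k => Sum.elim (fun _ => (X : κ⟦X⟧)) (fun _ => 1) k)
    rw [this, Fintype.prod_sum_type]
    simp
  rw [h6, ← pow_mul, mul_comm (Module.finrank κ U) 2] at h5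
  have h7 : S'.det = PC.det ^ 2 * S.det := by
    simp only [S', Matrix.det_mul, Matrix.det_transpose]
    ring
  rw [h7] at h5
  have h8 : (X : κ⟦X⟧) ^ (2 * Module.finrank κ U) ∣ PC.det ^ 2 * S.det := ⟨_, h5⟩
  exact ((hPC.pow 2).dvd_mul_left).1 h8

end ord

end Pool.Agent.Helper397.HK
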