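import Pool.Agent.Helper397.HK.Transfer2
import Pool.Agent.Helper397.HK.Minor

/-!
# The closed subvariety of which a point with coordinates in an extension of `ℂ` is generic
-/

set_option autoImplicit false

open MvPolynomial

namespace Pool.Agent.Helper397.HK

variable {N N' : ℕ}

section locus

variable {K : Type*} [Field K] [Algebra ℂ K]

/-- The homomorphism whose kernel is the ideal of the point `x`. -/
noncomputable def coneHom (x : Fin (N + 1) → K) :
    MvPolynomial (Fin (N + 1)) ℂ →ₐ[ℂ] Polynomial K :=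
  aeval ((Polynomial.X : Polynomial K) • (fun j => Polynomial.C (x j)))

lemma coneHom_homog {F : MvPolynomial (Fin (N + 1)) ℂ} {d : ℕ} (hF : F.IsHomogeneous d)
    (x : Fin (N + 1) → K) :
    coneHom x F = Polynomial.C (aeval x F) * Polynomial.X ^ d := by
  rw [coneHom, aeval_smul_of_homog hF]
  have h := (MvPolynomial.comp_aeval_apply x (Algebra.ofId K (Polynomial K) |>.restrictScalars ℂ) F)
  have h2 : aeval (fun j => Polynomial.C (x j)) F = Polynomial.C (aeval x F) := h.symm
  rw [h2, mul_comm]

lemma coeff_coneHom (x : Fin (N + 1) → K) (F : MvPolynomial (Fin (N + 1)) ℂ) (d : ℕ) :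
    (coneHom x F).coeff d = aeval x (homogeneousComponent d F) := by
  conv_lhs => rw [← sum_homogeneousComponent F]
  rw [map_sum, Polynomial.finsetSum_coeff]
  have h : ∀ i, (coneHom x (homogeneousComponent i F)).coeff d =
      if d = i then aeval x (homogeneousComponent i F) else 0 := by
    intro i
    rw [coneHom_homog (homogeneousComponent_isHomogeneous i F), Polynomial.coeff_C_mul_X_pow]
  simp only [h]
  rw [Finset.sum_ite_eq]
  by_cases hd : d ∈ Finset.range (F.totalDegree + 1)
  · rw [if_pos hd]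
  · rw [if_neg hd, homogeneousComponent_eq_zero, map_zero]
    simpa using hd

/-- The smallest closed subvariety containing the point `x`. -/
noncomputable def locus (x : Fin (N + 1) → K) (hx : x ≠ 0) : ProjVar N where
  I := RingHom.ker (coneHom x)
  prime := RingHom.ker_isPrime _
  homog := by
    intro F hF d
    rw [RingHom.mem_ker] at hF ⊢
    rw [coneHom_homog (homogeneousComponent_isHomogeneous d F), ← coeff_coneHom]
    have : coneHom x F = 0 := hF
    rw [this]
    simp
  relevant := by
    obtain ⟨i, hi⟩ := Function.ne_iff.1 hx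
    refine ⟨i, fun h => hi ?_⟩
    rw [RingHom.mem_ker] at h
    have h1 : coneHom x (X i) = Polynomial.X * Polynomial.C (x i) := by simp [coneHom]
    have h2 : coneHom x (X i) = 0 := h
    rw [h1] at h2
    rcases mul_eq_zero.1 h2 with h3 | h3
    · exact absurd h3 Polynomial.X_ne_zero
    · exact Polynomial.C_eq_zero.1 h3

lemma mem_locus {x : Fin (N + 1) → K} {hx : x ≠ 0} {F : MvPolynomial (Fin (N + 1)) ℂ} :
    F ∈ (locus x hx).I ↔ ∀ d, aeval x (homogeneousComponent d F) = 0 := by
  change coneHom x F = 0 ↔ _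
  rw [Polynomial.ext_iff]
  simp only [coeff_coneHom, Polynomial.coeff_zero]

lemma mem_locus_of_homog {x : Fin (N + 1) → K} {hx : x ≠ 0} {F : MvPolynomial (Fin (N + 1)) ℂ}
    {d : ℕ} (hF : F.IsHomogeneous d) : F ∈ (locus x hx).I ↔ aeval x F = 0 := by
  change coneHom x F = 0 ↔ _
  rw [coneHom_homog hF]
  constructor
  · intro h
    rcases mul_eq_zero.1 h with h3 | h3
    · exact Polynomial.C_eq_zero.1 h3
    · exact absurd h3 (pow_ne_zero _ Polynomial.X_ne_zero)
  · intro h
    rw [h, map_zero, zero_mul]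

lemma le_locus {Y : ProjVar N} {x : Fin (N + 1) → K} (hx : x ∈ Y.Pts K) :
    Y.I ≤ (locus x hx.1).I := by
  intro F hF
  rw [mem_locus]
  exact fun d => hx.2 _ (Y.homog F hF d)

lemma mem_pts_locus (x : Fin (N + 1) → K) (hx : x ≠ 0) : x ∈ (locus x hx).Pts K := by
  refine ⟨hx, fun F hF => ?_⟩
  rw [mem_locus] at hF
  rw [← sum_homogeneousComponent F, map_sum]
  exact Finset.sum_eq_zero fun d _ => hF d

/-- Derivations of the field of coordinates give tangent vectors of the locus. -/
lemma der_mem_locus {x : Fin (N + 1) → K} (hx : x ≠ 0) (δ : Derivation ℂ K K) :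
    (fun i => δ (x i)) ∈ (locus x hx).Tan x :=
  ProjVar.OnCone.der_mem_tan (mem_pts_locus x hx).2 δ

end locus

section cone

variable {K : Type*} [Field K] [Algebra ℂ K] {ι : Type*} [Fintype ι] [DecidableEq ι]

lemma dif_rename (j : ι → Fin (N + 1)) (P : MvPolynomial ι ℂ) {R : Type*} [CommRing R]
    [Algebra ℂ R] (x u : Fin (N + 1) → R) :
    dif (rename j P) x u = ∑ b, aeval (fun i => x (j i)) (pderiv b P) * u (j b) := by
  induction P using MvPolynomial.induction_on with
  | C a => simp [dif_C]
  | add p q hp hq =>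
    rw [map_add, dif_add, hp, hq]
    simp [add_mul, Finset.sum_add_distrib]
  | mul_X p k hp =>
    rw [map_mul, dif_mul, hp, rename_X, dif_X, aeval_X, aeval_rename]
    simp only [Derivation.leibniz, smul_eq_mul, map_add, map_mul, aeval_X, add_mul,
      Finset.sum_add_distrib, pderiv_X, Finset.mul_sum]
    congr 1
    · rw [Finset.sum_eq_single k]
      · simp; rfl
      · intro b _ hb
        simp [hb.symm]
      · simp
    · refine Finset.sum_congr rfl fun b _ => ?_
      ring

/-- **Lemma Cone.** At a generic point of a closed subvariety, the dimension of the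
tangent space is at most the transcendence degree. -/
theorem algInd_of_tangent (Z : ProjVar N) {x : Fin (N + 1) → K} (hx : Z.OnCone x)
    (hgen : ∀ (d : ℕ) (F : MvPolynomial (Fin (N + 1)) ℂ), F.IsHomogeneous d → aeval x F = 0 →
      F ∈ Z.I) (u : ι → Fin (N + 1) → K) (hu : ∀ i, u i ∈ Z.Tan x)
    (j : ι → Fin (N + 1)) (hdet : (Matrix.of fun a b => u a (j b)).det ≠ 0) :
    AlgebraicIndependent ℂ (fun b => Ideal.Quotient.mk Z.I (X (j b))) := by
  have hprime := Z.prime
  -- homogeneous relations
  have key : ∀ (d : ℕ) (P : MvPolynomial ι ℂ), P.IsHomogeneous d →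
      aeval (fun i => x (j i)) P = 0 → P = 0 := by
    intro d
    induction d with
    | zero =>
      intro P hP h0
      rw [← homogeneousComponent_eq_self hP, homogeneousComponent_zero] at h0 ⊢
      rw [aeval_C] at h0
      have : coeff 0 P = 0 := (FaithfulSMul.algebraMap_injective ℂ K) (by rw [h0, map_zero])
      rw [this, C_0]
    | succ d ih =>
      intro P hP h0
      have h1 : rename j P ∈ Z.I := hgen (d + 1) _ (hP.rename_isHomogeneous) (by
        rw [aeval_rename]; exact h0)
      have h2 : ∀ b, aeval (fun i => x (j i)) (pderiv b P) = 0 := by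
        have h3 : Matrix.mulVec (Matrix.of fun a b => u a (j b))
            (fun b => aeval (fun i => x (j i)) (pderiv b P)) = 0 := by
          funext a
          have h4 := hu a _ h1
          rw [dif_rename] at h4
          rw [Matrix.mulVec, Pi.zero_apply, ← h4]
          exact Finset.sum_congr rfl fun b _ => mul_comm _ _
        have h5 := Matrix.eq_zero_of_mulVec_eq_zero hdet h3
        exact fun b => congrFun h5 b
      have h3 : ∀ b, pderiv b P = 0 := fun b => ih _ (by simpa using hP.pderiv (i := b)) (h2 b)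
      have h4 := hP.sum_X_mul_pderiv
      simp only [h3, mul_zero, Finset.sum_const_zero] at h4
      have h5 : (d + 1) • P = 0 := h4.symm
      rw [nsmul_eq_mul] at h5
      rcases mul_eq_zero.1 h5 with h6 | h6
      · exact absurd h6 (by exact_mod_cast Nat.succ_ne_zero d)
      · exact h6
  rw [algebraicIndependent_iff]
  intro P hP
  have h1 : rename j P ∈ Z.I := by
    rw [← Ideal.Quotient.eq_zero_iff_mem, ← hP]
    have := MvPolynomial.comp_aeval_apply (fun b => (X (j b) : MvPolynomial (Fin (N + 1)) ℂ))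
      (Ideal.Quotient.mkₐ ℂ Z.I) P
    rw [rename_eq_aeval]
    exact this
  rw [← sum_homogeneousComponent P]
  refine Finset.sum_eq_zero fun d _ => key d _ (homogeneousComponent_isHomogeneous d P) ?_
  have h2 := Z.homog _ h1 d
  rw [← rename_homogeneousComponent] at h2
  have h3 := hx _ h2
  rw [aeval_rename] at h3
  exact h3

end cone

section strict

/-- The transcendence degree of a quotient by a strictly larger prime ideal is smaller. -/
theorem algInd_strict {A : Type*} [CommRing A] [Algebra ℂ A] {I J : Ideal A} (hI : I.IsPrime)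
    (hIJ : I ≤ J) {ι : Type*} (a : ι → A)
    (ha : AlgebraicIndependent ℂ (fun i => Ideal.Quotient.mk J (a i))) {H : A} (hHJ : H ∈ J)
    (hHI : H ∉ I) :
    AlgebraicIndependent ℂ
      (fun o : Option ι => o.elim (Ideal.Quotient.mk I H) (fun i => Ideal.Quotient.mk I (a i))) := by
  let π : A ⧸ I →ₐ[ℂ] A ⧸ J := Ideal.Quotient.factorₐ ℂ hIJ
  have hπ : ∀ b, π (Ideal.Quotient.mk I b) = Ideal.Quotient.mk J b := fun b => rfl
  have ha1 : AlgebraicIndependent ℂ (fun i => Ideal.Quotient.mk I (a i)) :=
    AlgebraicIndependent.of_comp π ha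
  rw [ha1.option_iff_transcendental]
  set S := Algebra.adjoin ℂ (Set.range fun i => Ideal.Quotient.mk I (a i)) with hS
  have hinj : ∀ y : S, π (y : A ⧸ I) = 0 → y = 0 := by
    intro y hy
    have h1 : (y : A ⧸ I) ∈ Algebra.adjoin ℂ (Set.range fun i => Ideal.Quotient.mk I (a i)) := y.2
    rw [Algebra.adjoin_range_eq_range_aeval] at h1
    obtain ⟨P, hP⟩ := h1
    have h2 : aeval (fun i => Ideal.Quotient.mk J (a i)) P = 0 := by
      rw [← hy, ← hP]
      exact (MvPolynomial.comp_aeval_apply (fun i => Ideal.Quotient.mk I (a i)) π P).symm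
    have h3 : P = 0 := ha (by rw [h2, map_zero])
    apply Subtype.ext
    rw [← hP, h3]
    simp
  have hH : Ideal.Quotient.mk I H ≠ 0 := fun h => hHI (Ideal.Quotient.eq_zero_iff_mem.1 h)
  have hπH : π (Ideal.Quotient.mk I H) = 0 := by
    rw [hπ]; exact Ideal.Quotient.eq_zero_iff_mem.2 hHJ
  rw [transcendental_iff]
  suffices hs : ∀ n : ℕ, ∀ p : Polynomial S, p.natDegree ≤ n →
      Polynomial.aeval (Ideal.Quotient.mk I H) p = 0 → p = 0 from
    fun p hp => hs _ p le_rfl hp
  intro n
  induction n with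
  | zero =>
    intro p hp h0
    rw [Nat.le_zero] at hp
    rw [Polynomial.eq_C_of_natDegree_eq_zero hp, Polynomial.aeval_C] at h0
    rw [Polynomial.eq_C_of_natDegree_eq_zero hp]
    have : (p.coeff 0) = 0 := Subtype.ext h0
    rw [this, Polynomial.C_0]
  | succ n ih =>
    intro p hp h0
    have h1 : p.divX * Polynomial.X + Polynomial.C (p.coeff 0) = p := Polynomial.divX_mul_X_add p
    rw [← h1, map_add, map_mul, Polynomial.aeval_X, Polynomial.aeval_C] at h0
    have h2 : p.coeff 0 = 0 := by
      apply hinj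
      have h3 := congrArg π h0
      rw [map_add, map_mul, hπH, mul_zero, zero_add, map_zero] at h3
      exact h3
    rw [h2, map_zero, add_zero] at h0
    have h4 : Polynomial.aeval (Ideal.Quotient.mk I H) p.divX = 0 :=
      (mul_eq_zero.1 h0).resolve_right hH
    have h5 : p.divX = 0 := by
      apply ih _ _ h4
      rw [Polynomial.natDegree_divX_eq_natDegree_tsub_one]
      omega
    rw [← h1, h5, h2]
    simp

end strict

section tangent

variable {κ : Type*} [Field κ] [Algebra ℂ κ]

/-- The Jacobian matrix of generators of the ideal. -/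
noncomputable def jac {R : Type*} [CommRing R] [Algebra ℂ R]
    (t : Finset (MvPolynomial (Fin (N + 1)) ℂ)) (x : Fin (N + 1) → R) :
    Matrix t (Fin (N + 1)) R := Matrix.of fun F j => aeval x (pderiv j (F : MvPolynomial (Fin (N + 1)) ℂ))

lemma finrank_tan_add (Y : ProjVar N) {t : Finset (MvPolynomial (Fin (N + 1)) ℂ)}
    (ht : Ideal.span (t : Set (MvPolynomial (Fin (N + 1)) ℂ)) = Y.I)
    {x : Fin (N + 1) → κ} (hx : Y.OnCone x) :
    Module.finrank κ (Y.tanSub x) + (jac t x).rank = N + 1 := by
  have h1 : Y.tanSub x = LinearMap.ker (jac t x).mulVecLin := by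
    ext u
    rw [ProjVar.mem_tanSub, LinearMap.mem_ker, Matrix.mulVecLin_apply]
    constructor
    · intro hu
      funext F
      exact hu _ (ht ▸ Ideal.subset_span F.2)
    · intro hu
      exact ProjVar.mem_tan_of_gens ht hx fun F hF => congrFun hu ⟨F, hF⟩
  have h2 := LinearMap.finrank_range_add_finrank_ker (jac t x).mulVecLin
  rw [h1, Matrix.rank, add_comm, h2]
  simp

/-- Semicontinuity of the rank of the Jacobian matrix. -/
lemma rank_jac_le (Y : ProjVar N) (t : Finset (MvPolynomial (Fin (N + 1)) ℂ))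
    {w : Fin (N + 1) → κ} (hw : Y.OnCone w) {L : Type*} [Field L] [Algebra ℂ L]
    {η : Fin (N + 1) → L} (hη : ∀ F, aeval η F = 0 → F ∈ Y.I) :
    (jac t w).rank ≤ (jac t η).rank := by
  classical
  obtain ⟨b, hb1, hb2, hb3⟩ := exists_linearIndependent κ (Set.range (jac t w).row)
  have hfin : Fintype b := hb3.setFinite.fintype
  have hr : (jac t w).rank = Fintype.card b := by
    rw [Matrix.rank_eq_finrank_span_row, ← hb2]
    have := finrank_span_set_eq_card (R := κ) (s := b) hb3
    rw [this, Set.toFinset_card]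
  have h3 : ∀ k : b, ∃ F : t, (jac t w).row F = k := fun k => hb1 k.2
  choose f hf using h3
  have h4 : LinearIndependent κ (fun k : b => (jac t w).row (f k)) := by
    have : (fun k : b => (jac t w).row (f k)) = fun k : b => (k : Fin (N + 1) → κ) := by
      funext k; exact hf k
    rw [this]; exact hb3
  obtain ⟨j, hj⟩ := exists_minor _ h4
  let Δ : Matrix b b (MvPolynomial (Fin (N + 1)) ℂ) :=
    Matrix.of fun a c => pderiv (j c) (f a : MvPolynomial (Fin (N + 1)) ℂ)
  have h5 : (Matrix.of fun a c => (jac t w).row (f a) (j c)) =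
      Δ.map (aeval w : MvPolynomial (Fin (N + 1)) ℂ →ₐ[ℂ] κ) := rfl
  have h6 : (Matrix.of fun a c => (jac t η).row (f a) (j c)) =
      Δ.map (aeval η : MvPolynomial (Fin (N + 1)) ℂ →ₐ[ℂ] L) := rfl
  have h7 : aeval w Δ.det ≠ 0 := by
    rw [AlgHom.map_det]
    exact hj
  have h8 : (Matrix.of fun a c => (jac t η).row (f a) (j c)).det ≠ 0 := by
    rw [h6]
    have := AlgHom.map_det (aeval η : MvPolynomial (Fin (N + 1)) ℂ →ₐ[ℂ] L) Δ
    rw [AlgHom.mapMatrix_apply] at this
    rw [← this]
    intro h0
    exact h7 (hw _ (hη _ h0))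
  have h9 := linInd_of_minor _ _ h8
  have h10 : ((jac t η).submatrix f id).rank = Fintype.card b :=
    LinearIndependent.rank_matrix (M := (jac t η).submatrix f id) h9
  rw [hr, ← h10]
  exact Matrix.rank_submatrix_le _ _ _

/-- The generic point of `Y`. -/
noncomputable def ProjVar.gen (Y : ProjVar N) [Y.I.IsPrime] :
    Fin (N + 1) → FractionRing (MvPolynomial (Fin (N + 1)) ℂ ⧸ Y.I) :=
  fun i => algebraMap (MvPolynomial (Fin (N + 1)) ℂ ⧸ Y.I) _ (Ideal.Quotient.mk Y.I (X i))

lemma ProjVar.aeval_gen (Y : ProjVar N) [Y.I.IsPrime] (F : MvPolynomial (Fin (N + 1)) ℂ) :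
    aeval Y.gen F = algebraMap (MvPolynomial (Fin (N + 1)) ℂ ⧸ Y.I)
      (FractionRing (MvPolynomial (Fin (N + 1)) ℂ ⧸ Y.I)) (Ideal.Quotient.mk Y.I F) := by
  have h := MvPolynomial.comp_aeval_apply (fun i => (X i : MvPolynomial (Fin (N + 1)) ℂ))
    ((IsScalarTower.toAlgHom ℂ (MvPolynomial (Fin (N + 1)) ℂ ⧸ Y.I)
      (FractionRing (MvPolynomial (Fin (N + 1)) ℂ ⧸ Y.I))).comp (Ideal.Quotient.mkₐ ℂ Y.I)) F
  rw [aeval_X_left_apply] at h
  exact h.symm

lemma ProjVar.aeval_gen_eq_zero (Y : ProjVar N) [Y.I.IsPrime] (F : MvPolynomial (Fin (N + 1)) ℂ) :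
    aeval Y.gen F = 0 ↔ F ∈ Y.I := by
  rw [Y.aeval_gen, ← Ideal.Quotient.eq_zero_iff_mem]
  exact (IsFractionRing.injective (MvPolynomial (Fin (N + 1)) ℂ ⧸ Y.I) _).eq_iff' (map_zero _)

lemma ProjVar.gen_mem (Y : ProjVar N) [Y.I.IsPrime] : Y.gen ∈ Y.Pts _ := by
  refine ⟨fun h => ?_, fun F hF => (Y.aeval_gen_eq_zero F).2 hF⟩
  obtain ⟨i, hi⟩ := Y.relevant
  apply hi
  rw [← Y.aeval_gen_eq_zero, aeval_X, h]
  rfl

end tangent

end Pool.Agent.Helper397.HK
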