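import Pool.Agent.Helper397.HK.Locus
import Pool.Agent.H135R2.VS.Der

/-!
# Tangent spaces and transcendence degrees
-/

set_option autoImplicit false

open MvPolynomial

namespace Pool.Agent.Helper397.HK

variable {N N' : ℕ}

section

variable {κ : Type*} [Field κ] [Algebra ℂ κ]

/-- **Lemma (c).** The transcendence degree is at most the dimension of the tangent space of the
cone, at all points. -/
theorem card_le_finrank_tan (Y : ProjVar N) {w : Fin (N + 1) → κ} (hw : w ∈ Y.Pts κ)
    {ι : Type*} [Fintype ι] (a : ι → MvPolynomial (Fin (N + 1)) ℂ ⧸ Y.I)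
    (ha : AlgebraicIndependent ℂ a) : Fintype.card ι ≤ Module.finrank κ (Y.tanSub w) := by
  classical
  have hprime := Y.prime
  obtain ⟨t, ht⟩ := Y.exists_gens
  have h1 := finrank_tan_add Y ht hw.2
  have h2 := finrank_tan_add Y ht Y.gen_mem.2
  have h3 := rank_jac_le Y t hw.2 (η := Y.gen) (fun F hF => (Y.aeval_gen_eq_zero F).1 hF)
  have h4 : Fintype.card ι ≤ Module.finrank (FractionRing (MvPolynomial (Fin (N + 1)) ℂ ⧸ Y.I))
      (Y.tanSub Y.gen) := by
    set L := FractionRing (MvPolynomial (Fin (N + 1)) ℂ ⧸ Y.I) with hL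
    have ha2 : AlgebraicIndependent ℂ (fun i => algebraMap _ L (a i)) :=
      ha.map' (f := IsScalarTower.toAlgHom ℂ _ L) (IsFractionRing.injective _ L)
    have h5 : ∀ i, ∃ D : Derivation ℂ L L, ∀ k, D (algebraMap _ L (a k)) = if k = i then 1 else 0 :=
      fun i => Pool.Agent.H135R2.VS.exists_der ha2 _
    choose D hD using h5
    choose P hP using fun k => Ideal.Quotient.mk_surjective (a k)
    let v : ι → Y.tanSub Y.gen := fun i => ⟨fun k => D i (Y.gen k), ProjVar.OnCone.der_mem_tan Y.gen_mem.2 (D i)⟩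
    have hv : LinearIndependent L v := by
      rw [Fintype.linearIndependent_iff]
      intro c hc k
      have h6 : (∑ i, c i • fun j => D i (Y.gen j)) = (0 : Fin (N + 1) → L) := by
        have := congrArg Subtype.val hc
        rw [AddSubmonoidClass.coe_finsetSum] at this
        exact this
      have h7 : ∀ i, dif (P k) Y.gen (fun j => D i (Y.gen j)) = if k = i then 1 else 0 := by
        intro i
        rw [← der_aeval', Y.aeval_gen, hP, hD]
      have h8 : dif (P k) Y.gen (∑ i, c i • fun j => D i (Y.gen j)) = c k := by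
        rw [← difMap_apply, map_sum]
        simp only [map_smul, difMap_apply, h7, smul_eq_mul, mul_ite, mul_one, mul_zero,
          Finset.sum_ite_eq, Finset.mem_univ, if_true]
      rw [← h8, h6, dif_zero_right]
    exact hv.fintype_card_le_finrank
  omega

/-- A generic arc is not contained in a hypersurface. -/
theorem mem_of_generic (Y : ProjVar N) {w : Fin (N + 1) → κ} (hw : w ∈ Y.Pts κ)
    {L : Type*} [Field L] [Algebra ℂ L] {γ : Fin (N + 1) → L} (hγ : γ ∈ Y.Pts L) {ι : Type*}
    [Fintype ι] [DecidableEq ι] (hι : Module.finrank κ (Y.tanSub w) ≤ Fintype.card ι)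
    (u : ι → Fin (N + 1) → L)
    (hu : ∀ i, u i ∈ (locus γ hγ.1).Tan γ) (hli : LinearIndependent L u)
    {H : MvPolynomial (Fin (N + 1)) ℂ} {d : ℕ} (hH : H.IsHomogeneous d) (h0 : aeval γ H = 0) :
    H ∈ Y.I := by
  by_contra hHY
  obtain ⟨j, hj⟩ := exists_minor u hli
  have h1 := algInd_of_tangent (locus γ hγ.1) (mem_pts_locus γ hγ.1).2
    (fun d F hF h => (mem_locus_of_homog hF).2 h) u hu j hj
  have h2 := algInd_strict Y.prime (le_locus hγ) _ h1 ((mem_locus_of_homog hH).2 h0) hHY
  have h3 := card_le_finrank_tan Y hw _ h2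
  rw [Fintype.card_option] at h3
  omega

end

/-- **(T2)** Tangent vectors at the generic point. -/
theorem exists_ders (W : ProjVar N) [W.I.IsPrime] {d : ℕ} (hd : W.DimGE d) :
    ∃ D : Fin d → Derivation ℂ (FractionRing (MvPolynomial (Fin (N + 1)) ℂ ⧸ W.I))
        (FractionRing (MvPolynomial (Fin (N + 1)) ℂ ⧸ W.I)),
      LinearIndependent (FractionRing (MvPolynomial (Fin (N + 1)) ℂ ⧸ W.I))
        (Fin.cons W.gen (fun j k => D j (W.gen k)) :
          Fin (d + 1) → Fin (N + 1) → FractionRing (MvPolynomial (Fin (N + 1)) ℂ ⧸ W.I)) := by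
  classical
  set A := MvPolynomial (Fin (N + 1)) ℂ ⧸ W.I with hA
  set L := FractionRing A with hL
  let s : Set A := Set.range fun i => Ideal.Quotient.mk W.I (X i)
  have hs : Algebra.adjoin ℂ s = ⊤ := by
    have h1 : s = (Ideal.Quotient.mkₐ ℂ W.I) '' (Set.range X) := by
      rw [← Set.range_comp]; rfl
    rw [h1, ← AlgHom.map_adjoin, MvPolynomial.adjoin_range_X, Algebra.map_top]
    exact (AlgHom.range_eq_top _).2 (Ideal.Quotient.mkₐ_surjective ℂ W.I)
  have hdom : IsDomain A := inferInstance
  have halg : Algebra.IsAlgebraic (Algebra.adjoin ℂ s) A := by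
    refine ⟨fun a => ?_⟩
    have : a ∈ Algebra.adjoin ℂ s := by rw [hs]; trivial
    exact isAlgebraic_algebraMap (R := Algebra.adjoin ℂ s) (A := A) ⟨a, this⟩
  obtain ⟨t, hts, ht⟩ := exists_isTranscendenceBasis_subset (R := ℂ) s
  have hcard : ((d + 1 : ℕ) : Cardinal) ≤ Cardinal.mk t := by
    rw [ht.cardinalMk_eq_trdeg]
    exact hd
  obtain ⟨g⟩ : Nonempty (Fin (d + 1) ↪ t) := by
    rw [← Cardinal.le_def]
    simpa using hcard
  have h2 : ∀ k, ∃ i, Ideal.Quotient.mk W.I (X i) = (g k : A) := fun k => hts (g k).2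
  choose i hi using h2
  have h3 : AlgebraicIndependent ℂ (fun k => W.gen (i k)) := by
    have h4 : AlgebraicIndependent ℂ (fun k => (g k : A)) := ht.1.comp g g.injective
    have h5 := h4.map' (f := IsScalarTower.toAlgHom ℂ A L) (IsFractionRing.injective _ L)
    convert h5 using 1
    funext k
    rw [ProjVar.gen, Function.comp_apply, ← hi k]
    rfl
  have h4 : ∀ j : Fin d, ∃ D : Derivation ℂ L L, ∀ k, D (W.gen (i k)) = if k = j.succ then 1 else 0 :=
    fun j => Pool.Agent.H135R2.VS.exists_der h3 _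
  choose D hD using h4
  refine ⟨D, ?_⟩
  have h5 : W.gen (i 0) ≠ 0 := by
    intro h0
    have h6 := h3.ne_zero 0
    exact h6 h0
  rw [Fintype.linearIndependent_iff]
  intro c hc
  have h6 : ∀ k, c 0 * W.gen (i k) + ∑ j, c (Fin.succ j) * D j (W.gen (i k)) = 0 := by
    intro k
    have := congrFun hc (i k)
    rw [Finset.sum_apply, Fin.sum_univ_succ] at this
    simpa using this
  have h7 : c 0 = 0 := by
    have := h6 0
    simp only [hD] at this
    have h8 : ∀ j : Fin d, (0 : Fin (d + 1)) ≠ j.succ := fun j => (Fin.succ_ne_zero j).symm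
    simp only [h8, if_false, mul_zero, Finset.sum_const_zero, add_zero] at this
    exact (mul_eq_zero.1 this).resolve_right h5
  intro a
  refine Fin.cases h7 (fun j => ?_) a
  have := h6 j.succ
  simp only [hD, h7, zero_mul, zero_add, Fin.succ_inj] at this
  simpa using this

end Pool.Agent.Helper397.HK
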