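import Pool.Agent.Helper397.HK.Spec

/-!
# Transfer of the properties of 2-forms and rational maps from complex points to all points
-/

set_option autoImplicit false

open MvPolynomial

namespace Pool.Agent.Helper397.HK

variable {N N' : ℕ}

/-- The bilinear form with the coefficients `A i j` at the point `x`. -/
noncomputable def bil {R : Type*} [CommRing R] [Algebra ℂ R]
    (A : Fin (N + 1) → Fin (N + 1) → MvPolynomial (Fin (N + 1)) ℂ)
    (x u v : Fin (N + 1) → R) : R := ∑ i, ∑ j, aeval x (A i j) * u i * v j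

section bil

variable {R : Type*} [CommRing R] [Algebra ℂ R]
  (A : Fin (N + 1) → Fin (N + 1) → MvPolynomial (Fin (N + 1)) ℂ)

lemma bil_add_left (x u u' v : Fin (N + 1) → R) :
    bil A x (u + u') v = bil A x u v + bil A x u' v := by
  simp [bil, mul_add, add_mul, Finset.sum_add_distrib]

lemma bil_add_right (x u v v' : Fin (N + 1) → R) :
    bil A x u (v + v') = bil A x u v + bil A x u v' := by
  simp [bil, mul_add, Finset.sum_add_distrib]

lemma bil_smul_left (c : R) (x u v : Fin (N + 1) → R) :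
    bil A x (c • u) v = c * bil A x u v := by
  simp only [bil, Finset.mul_sum, Pi.smul_apply, smul_eq_mul]
  exact Finset.sum_congr rfl fun i _ => Finset.sum_congr rfl fun j _ => by ring

lemma bil_smul_right (c : R) (x u v : Fin (N + 1) → R) :
    bil A x u (c • v) = c * bil A x u v := by
  simp only [bil, Finset.mul_sum, Pi.smul_apply, smul_eq_mul]
  exact Finset.sum_congr rfl fun i _ => Finset.sum_congr rfl fun j _ => by ring

/-- `bil` as a bilinear map. -/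
noncomputable def bilMap (x : Fin (N + 1) → R) :
    (Fin (N + 1) → R) →ₗ[R] (Fin (N + 1) → R) →ₗ[R] R :=
  LinearMap.mk₂ R (bil A x) (bil_add_left A x) (fun c u v => bil_smul_left A c x u v)
    (bil_add_right A x) (fun c u v => bil_smul_right A c x u v)

@[simp] lemma bilMap_apply (x u v : Fin (N + 1) → R) : bilMap A x u v = bil A x u v := rfl

lemma bil_map {R' : Type*} [CommRing R'] [Algebra ℂ R'] (φ : R →ₐ[ℂ] R')
    (x u v : Fin (N + 1) → R) :
    bil A (fun i => φ (x i)) (fun i => φ (u i)) (fun i => φ (v i)) = φ (bil A x u v) := by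
  have h : ∀ G : MvPolynomial (Fin (N + 1)) ℂ, aeval (fun i => φ (x i)) G = φ (aeval x G) :=
    fun G => (MvPolynomial.comp_aeval_apply (fun i => x i) φ G).symm
  simp [bil, map_sum, map_mul, h]

lemma bil_smul_point {a : ℕ} (hA : ∀ i j, (A i j).IsHomogeneous a) (c : R)
    (x u v : Fin (N + 1) → R) : bil A (c • x) u v = c ^ a * bil A x u v := by
  simp only [bil, Finset.mul_sum]
  refine Finset.sum_congr rfl fun i _ => Finset.sum_congr rfl fun j _ => ?_
  rw [aeval_smul_of_homog (hA i j)]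
  ring

end bil

/-- A local expression of a 2-form. -/
structure TwoForm.IsLocal {Y : ProjVar N} (σ : TwoForm Y) (a : ℕ)
    (G : MvPolynomial (Fin (N + 1)) ℂ)
    (A : Fin (N + 1) → Fin (N + 1) → MvPolynomial (Fin (N + 1)) ℂ) : Prop where
  hG : G.IsHomogeneous (a + 2)
  hA : ∀ i j, (A i j).IsHomogeneous a
  eq : ∀ y ∈ Y.Pts ℂ, aeval y G ≠ 0 → ∀ u ∈ Y.Tan y, ∀ v ∈ Y.Tan y,
      aeval y G * σ.val y u v = bil A y u v

lemma TwoForm.exists_isLocal {Y : ProjVar N} (σ : TwoForm Y) {x : Fin (N + 1) → ℂ}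
    (hx : x ∈ Y.Pts ℂ) : ∃ a G A, σ.IsLocal a G A ∧ aeval x G ≠ 0 := by
  obtain ⟨a, G, A, h1, h2, h3, h4⟩ := σ.regular x hx
  exact ⟨a, G, A, ⟨h1, h2, h4⟩, h3⟩

section spec

variable {K : Type*} [Field K] [Algebra ℂ K]

lemma aeval_val (A : Subalgebra ℂ K) {ι : Type*} (x : ι → K) (hx : ∀ i, x i ∈ A)
    (F : MvPolynomial ι ℂ) :
    ((aeval (fun i => (⟨x i, hx i⟩ : A)) F : A) : K) = aeval x F := by
  have h := MvPolynomial.comp_aeval_apply (fun i => (⟨x i, hx i⟩ : A)) A.val F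
  exact h

lemma aeval_spec {A : Subalgebra ℂ K} (ψ : A →ₐ[ℂ] ℂ) {ι : Type*} (x : ι → A)
    (F : MvPolynomial ι ℂ) :
    aeval (fun i => ψ (x i)) F = ψ (aeval x F) :=
  (MvPolynomial.comp_aeval_apply x ψ F).symm

/-- Specialization of a point of `Y`. -/
lemma ProjVar.spec_pt {Y : ProjVar N} {A : Subalgebra ℂ K} (ψ : A →ₐ[ℂ] ℂ)
    {x : Fin (N + 1) → A} (hx : (fun i => (x i : K)) ∈ Y.Pts K) (h0 : ∃ i, ψ (x i) ≠ 0) :
    (fun i => ψ (x i)) ∈ Y.Pts ℂ := by
  obtain ⟨i, hi⟩ := h0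
  refine ⟨fun h => hi (congrFun h i), ?_⟩
  exact (ProjVar.OnCone.of_injective A.val Subtype.val_injective hx.2).map ψ

lemma ProjVar.spec_tan {Y : ProjVar N} {A : Subalgebra ℂ K} (ψ : A →ₐ[ℂ] ℂ)
    {x u : Fin (N + 1) → A} (hu : (fun i => (u i : K)) ∈ Y.Tan (fun i => (x i : K))) :
    (fun i => ψ (u i)) ∈ Y.Tan (fun i => ψ (x i)) :=
  ProjVar.tan_map ψ (ProjVar.tan_of_injective A.val Subtype.val_injective hu)

/-- The form is alternating at all points. -/
theorem TwoForm.IsLocal.alt {Y : ProjVar N} {σ : TwoForm Y} {a : ℕ}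
    {G : MvPolynomial (Fin (N + 1)) ℂ} {A : Fin (N + 1) → Fin (N + 1) → MvPolynomial (Fin (N + 1)) ℂ}
    (h : σ.IsLocal a G A) {x u : Fin (N + 1) → K} (hx : x ∈ Y.Pts K) (hG : aeval x G ≠ 0)
    (hu : u ∈ Y.Tan x) : bil A x u u = 0 := by
  by_contra hne
  obtain ⟨B, ψ, hB, hψ⟩ := exists_spec
    (Set.range x ∪ (Set.range u ∪ {aeval x G, bil A x u u}))
    ((Set.finite_range x).union ((Set.finite_range u).union (Set.toFinite _)))
  let x' : Fin (N + 1) → B := fun i => ⟨x i, hB (Or.inl ⟨i, rfl⟩)⟩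
  let u' : Fin (N + 1) → B := fun i => ⟨u i, hB (Or.inr (Or.inl ⟨i, rfl⟩))⟩
  obtain ⟨i, hi⟩ := Function.ne_iff.1 hx.1
  have p1 : (fun i => ψ (x' i)) ∈ Y.Pts ℂ :=
    ProjVar.spec_pt ψ (x := x') hx ⟨i, hψ _ _ (Or.inl ⟨i, rfl⟩) hi⟩
  have p2 : (fun i => ψ (u' i)) ∈ Y.Tan (fun i => ψ (x' i)) :=
    ProjVar.spec_tan ψ (x := x') (u := u') hu
  have e1 : ((aeval x' G : B) : K) = aeval x G := aeval_val B x _ G
  have e2 : ((bil A x' u' u' : B) : K) = bil A x u u := (bil_map A B.val x' u' u').symm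
  have p3 : aeval (fun i => ψ (x' i)) G ≠ 0 := by
    rw [aeval_spec]
    exact hψ _ (aeval x' G).2 (by rw [e1]; simp) (by rw [e1]; exact hG)
  have p4 := h.eq _ p1 p3 _ p2 _ p2
  rw [σ.alt _ p1 _ p2, mul_zero, bil_map] at p4
  exact hψ _ (bil A x' u' u').2 (by rw [e2]; simp) (by rw [e2]; exact hne) p4.symm

/-- The form vanishes on the Euler vector at all points. -/
theorem TwoForm.IsLocal.euler {Y : ProjVar N} {σ : TwoForm Y} {a : ℕ}
    {G : MvPolynomial (Fin (N + 1)) ℂ} {A : Fin (N + 1) → Fin (N + 1) → MvPolynomial (Fin (N + 1)) ℂ}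
    (h : σ.IsLocal a G A) {x u : Fin (N + 1) → K} (hx : x ∈ Y.Pts K) (hG : aeval x G ≠ 0)
    (hu : u ∈ Y.Tan x) : bil A x x u = 0 := by
  by_contra hne
  obtain ⟨B, ψ, hB, hψ⟩ := exists_spec
    (Set.range x ∪ (Set.range u ∪ {aeval x G, bil A x x u}))
    ((Set.finite_range x).union ((Set.finite_range u).union (Set.toFinite _)))
  let x' : Fin (N + 1) → B := fun i => ⟨x i, hB (Or.inl ⟨i, rfl⟩)⟩
  let u' : Fin (N + 1) → B := fun i => ⟨u i, hB (Or.inr (Or.inl ⟨i, rfl⟩))⟩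
  obtain ⟨i, hi⟩ := Function.ne_iff.1 hx.1
  have p1 : (fun i => ψ (x' i)) ∈ Y.Pts ℂ :=
    ProjVar.spec_pt ψ (x := x') hx ⟨i, hψ _ _ (Or.inl ⟨i, rfl⟩) hi⟩
  have p2 : (fun i => ψ (u' i)) ∈ Y.Tan (fun i => ψ (x' i)) :=
    ProjVar.spec_tan ψ (x := x') (u := u') hu
  have e1 : ((aeval x' G : B) : K) = aeval x G := aeval_val B x _ G
  have e2 : ((bil A x' x' u' : B) : K) = bil A x x u := (bil_map A B.val x' x' u').symm
  have p3 : aeval (fun i => ψ (x' i)) G ≠ 0 := by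
    rw [aeval_spec]
    exact hψ _ (aeval x' G).2 (by rw [e1]; simp) (by rw [e1]; exact hG)
  have p4 := h.eq _ p1 p3 _ (ProjVar.OnCone.self_mem_tan p1.2) _ p2
  rw [σ.euler _ p1 _ p2, mul_zero, bil_map] at p4
  exact hψ _ (bil A x' x' u').2 (by rw [e2]; simp) (by rw [e2]; exact hne) p4.symm

/-- The form is skew-symmetric at all points. -/
theorem TwoForm.IsLocal.skew {Y : ProjVar N} {σ : TwoForm Y} {a : ℕ}
    {G : MvPolynomial (Fin (N + 1)) ℂ} {A : Fin (N + 1) → Fin (N + 1) → MvPolynomial (Fin (N + 1)) ℂ}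
    (h : σ.IsLocal a G A) {x u v : Fin (N + 1) → K} (hx : x ∈ Y.Pts K) (hG : aeval x G ≠ 0)
    (hu : u ∈ Y.Tan x) (hv : v ∈ Y.Tan x) : bil A x u v = - bil A x v u := by
  have h1 := h.alt hx hG ((Y.tanSub x).add_mem hu hv)
  rw [bil_add_left, bil_add_right, bil_add_right, h.alt hx hG hu, h.alt hx hG hv] at h1
  linear_combination h1

theorem TwoForm.IsLocal.euler_right {Y : ProjVar N} {σ : TwoForm Y} {a : ℕ}
    {G : MvPolynomial (Fin (N + 1)) ℂ} {A : Fin (N + 1) → Fin (N + 1) → MvPolynomial (Fin (N + 1)) ℂ}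
    (h : σ.IsLocal a G A) {x u : Fin (N + 1) → K} (hx : x ∈ Y.Pts K) (hG : aeval x G ≠ 0)
    (hu : u ∈ Y.Tan x) : bil A x u x = 0 := by
  rw [h.skew hx hG hu (ProjVar.OnCone.self_mem_tan hx.2), h.euler hx hG hu, neg_zero]

end spec

end Pool.Agent.Helper397.HK
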