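import Pool.Agent.Helper397.HK.Transfer

/-!
# Transfer of nondegeneracy, of pull-backs and of the closure of the graph
-/

set_option autoImplicit false

open MvPolynomial

namespace Pool.Agent.Helper397.HK

variable {N N' : ℕ}

section

variable {R : Type*} [CommRing R] [Algebra ℂ R]

/-- `dif` as a linear map. -/
noncomputable def difMap (F : MvPolynomial (Fin (N + 1)) ℂ) (x : Fin (N + 1) → R) :
    (Fin (N + 1) → R) →ₗ[R] R where
  toFun := dif F x
  map_add' := dif_add_right F x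
  map_smul' := fun c u => dif_smul_right F c x u

@[simp] lemma difMap_apply (F : MvPolynomial (Fin (N + 1)) ℂ) (x u : Fin (N + 1) → R) :
    difMap F x u = dif F x u := rfl

lemma ProjVar.exists_gens (Y : ProjVar N) : ∃ t : Finset (MvPolynomial (Fin (N + 1)) ℂ),
    Ideal.span (t : Set (MvPolynomial (Fin (N + 1)) ℂ)) = Y.I :=
  (isNoetherianRing_iff_ideal_fg _).1 inferInstance Y.I

lemma ProjVar.mem_tan_of_gens {Y : ProjVar N} {t : Finset (MvPolynomial (Fin (N + 1)) ℂ)}
    (ht : Ideal.span (t : Set (MvPolynomial (Fin (N + 1)) ℂ)) = Y.I)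
    {x u : Fin (N + 1) → R} (hx : Y.OnCone x) (h : ∀ F ∈ t, dif F x u = 0) : u ∈ Y.Tan x := by
  intro F hF
  rw [← ht] at hF
  refine Submodule.span_induction (p := fun F _ => dif F x u = 0) ?_ ?_ ?_ ?_ hF
  · exact fun F hF => h F hF
  · exact dif_zero x u
  · intro F G _ _ h1 h2
    rw [dif_add, h1, h2, add_zero]
  · intro a F hF h1
    rw [smul_eq_mul, dif_mul, h1, hx F (ht ▸ hF), mul_zero, zero_mul, add_zero]

end

section nondeg

variable {K : Type*} [Field K] [Algebra ℂ K]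

lemma single_map {R R' : Type*} [CommRing R] [Algebra ℂ R] [CommRing R'] [Algebra ℂ R']
    (φ : R →ₐ[ℂ] R') (j : Fin (N + 1)) :
    (fun i => φ ((Pi.single j 1 : Fin (N + 1) → R) i)) = Pi.single j 1 := by
  funext i
  by_cases h : i = j
  · subst h; simp
  · simp [Pi.single_eq_of_ne h]

/-- A nondegenerate form is nondegenerate at all points. -/
theorem TwoForm.IsLocal.nondeg {Y : ProjVar N} {σ : TwoForm Y} (hσ : σ.Nondegenerate) {a : ℕ}
    {G : MvPolynomial (Fin (N + 1)) ℂ} {A : Fin (N + 1) → Fin (N + 1) → MvPolynomial (Fin (N + 1)) ℂ}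
    (h : σ.IsLocal a G A) {x u : Fin (N + 1) → K} (hx : x ∈ Y.Pts K) (hG : aeval x G ≠ 0)
    (hu : u ∈ Y.Tan x) (hv : ∀ v ∈ Y.Tan x, bil A x u v = 0) : ∃ c : K, u = c • x := by
  classical
  by_contra hne
  push Not at hne
  obtain ⟨i, hi⟩ := Function.ne_iff.1 hx.1
  rw [Pi.zero_apply] at hi
  obtain ⟨j, hj⟩ := Function.ne_iff.1 (hne (u i / x i))
  have hm : x i * u j - x j * u i ≠ 0 := by
    intro h0
    apply hj
    rw [Pi.smul_apply, smul_eq_mul]
    field_simp
    linear_combination h0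
  obtain ⟨t, ht⟩ := Y.exists_gens
  -- the functional is a combination of the differentials
  have h1 : bilMap A x u ∈ Submodule.span K (Set.range (fun F : t => difMap (F : MvPolynomial (Fin (N + 1)) ℂ) x)) := by
    apply mem_span_of_iInf_ker_le_ker
    intro v hv'
    rw [LinearMap.mem_ker, bilMap_apply]
    refine hv v (ProjVar.mem_tan_of_gens ht hx.2 fun F hF => ?_)
    have := (Submodule.mem_iInf _).1 hv' ⟨F, hF⟩
    exact this
  obtain ⟨l, hl⟩ := (Submodule.mem_span_range_iff_exists_fun K).1 h1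
  obtain ⟨B, ψ, hB, hψ⟩ := exists_spec
    (Set.range x ∪ (Set.range u ∪ (Set.range l ∪ {aeval x G, x i * u j - x j * u i})))
    ((Set.finite_range x).union ((Set.finite_range u).union
      ((Set.finite_range l).union (Set.toFinite _))))
  let x' : Fin (N + 1) → B := fun i => ⟨x i, hB (Or.inl ⟨i, rfl⟩)⟩
  let u' : Fin (N + 1) → B := fun i => ⟨u i, hB (Or.inr (Or.inl ⟨i, rfl⟩))⟩
  let l' : t → B := fun F => ⟨l F, hB (Or.inr (Or.inr (Or.inl ⟨F, rfl⟩)))⟩
  have p1 : (fun i => ψ (x' i)) ∈ Y.Pts ℂ :=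
    ProjVar.spec_pt ψ (x := x') hx ⟨i, hψ _ _ (Or.inl ⟨i, rfl⟩) hi⟩
  have p2 : (fun i => ψ (u' i)) ∈ Y.Tan (fun i => ψ (x' i)) :=
    ProjVar.spec_tan ψ (x := x') (u := u') hu
  have e1 : ((aeval x' G : B) : K) = aeval x G := aeval_val B x _ G
  have p3 : aeval (fun i => ψ (x' i)) G ≠ 0 := by
    rw [aeval_spec]
    exact hψ _ (aeval x' G).2 (by rw [e1]; simp) (by rw [e1]; exact hG)
  -- the relation specialises
  have key : ∀ k, bil A x' u' (Pi.single k 1) = ∑ F : t, l' F * dif (F : MvPolynomial (Fin (N + 1)) ℂ) x' (Pi.single k 1) := by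
    intro k
    apply Subtype.val_injective
    have h2 := congrArg (fun L => L (Pi.single k 1)) hl
    simp only [LinearMap.sum_apply, LinearMap.smul_apply, difMap_apply, bilMap_apply,
      smul_eq_mul] at h2
    have h3 : ((bil A x' u' (Pi.single k 1) : B) : K) = bil A x u (Pi.single k 1) := by
      have := (bil_map A B.val x' u' (Pi.single k 1)).symm
      rw [single_map] at this
      exact this
    rw [h3, ← h2, AddSubmonoidClass.coe_finsetSum]
    refine Finset.sum_congr rfl fun F _ => ?_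
    have h4 : ((dif (F : MvPolynomial (Fin (N + 1)) ℂ) x' (Pi.single k 1) : B) : K) = dif (F : MvPolynomial (Fin (N + 1)) ℂ) x (Pi.single k 1) := by
      have := (dif_map B.val (F : MvPolynomial (Fin (N + 1)) ℂ) x' (Pi.single k 1)).symm
      rw [single_map] at this
      exact this
    rw [MulMemClass.coe_mul, h4]
  have key2 : bilMap A (fun i => ψ (x' i)) (fun i => ψ (u' i)) =
      ∑ F : t, ψ (l' F) • difMap (F : MvPolynomial (Fin (N + 1)) ℂ) (fun i => ψ (x' i)) := by
    refine (Pi.basisFun ℂ (Fin (N + 1))).ext fun k => ?_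
    rw [Pi.basisFun_apply, bilMap_apply]
    have h2 := congrArg ψ (key k)
    rw [← bil_map, single_map, map_sum] at h2
    rw [h2, LinearMap.sum_apply]
    refine Finset.sum_congr rfl fun F _ => ?_
    rw [LinearMap.smul_apply, difMap_apply, smul_eq_mul, map_mul, ← dif_map, single_map]
  have p5 : ∀ v ∈ Y.Tan (fun i => ψ (x' i)), σ.val (fun i => ψ (x' i)) (fun i => ψ (u' i)) v = 0 := by
    intro v hv
    have h3 := h.eq _ p1 p3 _ p2 _ hv
    have h4 : bil A (fun i => ψ (x' i)) (fun i => ψ (u' i)) v = 0 := by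
      rw [← bilMap_apply, key2, LinearMap.sum_apply]
      refine Finset.sum_eq_zero fun F _ => ?_
      rw [LinearMap.smul_apply, difMap_apply, hv _ (ht ▸ Ideal.subset_span F.2), smul_zero]
    rw [h4] at h3
    exact (mul_eq_zero.1 h3).resolve_left p3
  obtain ⟨c, hc⟩ := hσ _ p1 _ p2 p5
  have hc' : ∀ k, ψ (u' k) = c * ψ (x' k) := fun k => congrFun hc k
  have e3 : ((x' i * u' j - x' j * u' i : B) : K) = x i * u j - x j * u i := rfl
  refine hψ _ (x' i * u' j - x' j * u' i).2 (by rw [e3]; simp) (by rw [e3]; exact hm) ?_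
  change ψ (x' i * u' j - x' j * u' i) = 0
  rw [map_sub, map_mul, map_mul, hc' i, hc' j]
  ring

end nondeg

/-! ### Rational maps -/

section rat

variable {Y : ProjVar N} {Y' : ProjVar N'} (f : RatMap Y Y')
  {R : Type*} [CommRing R] [Algebra ℂ R]

lemma aeval_bind (F : MvPolynomial (Fin (N' + 1)) ℂ) (x : Fin (N + 1) → R) :
    aeval x (bind₁ f.Φ F) = aeval (f.app x) F := by
  rw [aeval_bind₁]; rfl

/-- The chain rule. -/
lemma dif_bind (F : MvPolynomial (Fin (N' + 1)) ℂ) (x u : Fin (N + 1) → R) :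
    dif (bind₁ f.Φ F) x u = dif F (f.app x) (f.dapp x u) := by
  induction F using MvPolynomial.induction_on with
  | C a => simp [dif_C]
  | add p q hp hq => rw [map_add, dif_add, dif_add, hp, hq]
  | mul_X p j hp =>
    rw [map_mul, dif_mul, dif_mul, hp, bind₁_X_right, dif_X, aeval_bind, aeval_X]
    rfl

lemma RatMap.onCone {x : Fin (N + 1) → R} (hx : Y.OnCone x) : Y'.OnCone (f.app x) := by
  intro F hF
  rw [← aeval_bind]
  exact hx _ (f.maps F hF)

lemma RatMap.dapp_mem {x u : Fin (N + 1) → R} (hu : u ∈ Y.Tan x) :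
    f.dapp x u ∈ Y'.Tan (f.app x) := by
  intro F hF
  rw [← dif_bind]
  exact hu _ (f.maps F hF)

lemma RatMap.app_smul (c : R) (x : Fin (N + 1) → R) : f.app (c • x) = c ^ f.deg • f.app x := by
  funext j
  exact aeval_smul_of_homog (f.homog j) c x

lemma RatMap.app_map {R' : Type*} [CommRing R'] [Algebra ℂ R'] (φ : R →ₐ[ℂ] R')
    (x : Fin (N + 1) → R) : f.app (fun i => φ (x i)) = fun j => φ (f.app x j) := by
  funext j
  exact (MvPolynomial.comp_aeval_apply (fun i => x i) φ (f.Φ j)).symm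

lemma RatMap.dapp_map {R' : Type*} [CommRing R'] [Algebra ℂ R'] (φ : R →ₐ[ℂ] R')
    (x u : Fin (N + 1) → R) : f.dapp (fun i => φ (x i)) (fun i => φ (u i)) =
      fun j => φ (f.dapp x u j) := by
  funext j
  exact dif_map φ (f.Φ j) x u

lemma RatMap.dapp_der (δ : Derivation ℂ R R) (x : Fin (N + 1) → R) :
    f.dapp x (fun i => δ (x i)) = fun j => δ (f.app x j) := by
  funext j
  exact (der_aeval' δ (f.Φ j) x).symm

end rat

section pull

variable {K : Type*} [Field K] [Algebra ℂ K] {Y : ProjVar N} {Y' : ProjVar N'}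
  (f : RatMap Y Y')

/-- The relation `f^* σ' = c σ` at the points at which the polynomial `H` does not vanish. -/
def RatMap.PullsBackOn (f : RatMap Y Y') (H : MvPolynomial (Fin (N + 1)) ℂ) (σ' : TwoForm Y')
    (c : ℂ) (σ : TwoForm Y) : Prop :=
  ∀ x ∈ Y.Pts ℂ, aeval x H ≠ 0 → f.app x ≠ 0 → ∀ u ∈ Y.Tan x, ∀ v ∈ Y.Tan x,
    σ'.val (f.app x) (f.dapp x u) (f.dapp x v) = c * σ.val x u v

lemma RatMap.PullsBack.on {f : RatMap Y Y'} {σ' : TwoForm Y'} {c : ℂ} {σ : TwoForm Y}
    (hf : f.PullsBack σ' c σ) (H : MvPolynomial (Fin (N + 1)) ℂ) : f.PullsBackOn H σ' c σ :=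
  fun x hx _ h => hf x hx h

/-- The pull-back relation at all points. -/
theorem RatMap.PullsBackOn.transfer {f : RatMap Y Y'} {H : MvPolynomial (Fin (N + 1)) ℂ}
    {σ' : TwoForm Y'} {c : ℂ} {σ : TwoForm Y}
    (hf : f.PullsBackOn H σ' c σ) {a : ℕ}
    {G : MvPolynomial (Fin (N + 1)) ℂ} {A : Fin (N + 1) → Fin (N + 1) → MvPolynomial (Fin (N + 1)) ℂ}
    (h : σ.IsLocal a G A) {a' : ℕ} {G' : MvPolynomial (Fin (N' + 1)) ℂ}
    {A' : Fin (N' + 1) → Fin (N' + 1) → MvPolynomial (Fin (N' + 1)) ℂ} (h' : σ'.IsLocal a' G' A')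
    {x u v : Fin (N + 1) → K} (hx : x ∈ Y.Pts K) (hH : aeval x H ≠ 0) (hG : aeval x G ≠ 0)
    (hfx : f.app x ≠ 0) (hG' : aeval (f.app x) G' ≠ 0) (hu : u ∈ Y.Tan x) (hv : v ∈ Y.Tan x) :
    aeval x G * bil A' (f.app x) (f.dapp x u) (f.dapp x v) =
      algebraMap ℂ K c * aeval (f.app x) G' * bil A x u v := by
  by_contra hne
  rw [← sub_eq_zero] at hne
  obtain ⟨i, hi⟩ := Function.ne_iff.1 hx.1
  obtain ⟨j, hj⟩ := Function.ne_iff.1 hfx
  rw [Pi.zero_apply] at hi hj
  obtain ⟨B, ψ, hB, hψ⟩ := exists_spec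
    (Set.range x ∪ (Set.range u ∪ (Set.range v ∪ {aeval x H, aeval x G, aeval (f.app x) G',
      f.app x j,
      aeval x G * bil A' (f.app x) (f.dapp x u) (f.dapp x v) -
      algebraMap ℂ K c * aeval (f.app x) G' * bil A x u v})))
    ((Set.finite_range x).union ((Set.finite_range u).union
      ((Set.finite_range v).union (Set.toFinite _))))
  let x' : Fin (N + 1) → B := fun i => ⟨x i, hB (Or.inl ⟨i, rfl⟩)⟩
  let u' : Fin (N + 1) → B := fun i => ⟨u i, hB (Or.inr (Or.inl ⟨i, rfl⟩))⟩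
  let v' : Fin (N + 1) → B := fun i => ⟨v i, hB (Or.inr (Or.inr (Or.inl ⟨i, rfl⟩)))⟩
  have p1 : (fun i => ψ (x' i)) ∈ Y.Pts ℂ :=
    ProjVar.spec_pt ψ (x := x') hx ⟨i, hψ _ _ (Or.inl ⟨i, rfl⟩) hi⟩
  have p2 : (fun i => ψ (u' i)) ∈ Y.Tan (fun i => ψ (x' i)) :=
    ProjVar.spec_tan ψ (x := x') (u := u') hu
  have p2' : (fun i => ψ (v' i)) ∈ Y.Tan (fun i => ψ (x' i)) :=
    ProjVar.spec_tan ψ (x := x') (u := v') hv
  have e0 : (fun k => B.val (f.app x' k)) = f.app x := (f.app_map B.val x').symm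
  have e1 : ((aeval x' G : B) : K) = aeval x G := aeval_val B x _ G
  have eH : ((aeval x' H : B) : K) = aeval x H := aeval_val B x _ H
  have e2 : ((aeval (f.app x') G' : B) : K) = aeval (f.app x) G' := by
    rw [← e0]
    exact MvPolynomial.comp_aeval_apply (f.app x') B.val G'
  have e3 : ((f.app x' j : B) : K) = f.app x j := congrFun e0 j
  have eu : (fun k => B.val (f.dapp x' u' k)) = f.dapp x u := (f.dapp_map B.val x' u').symm
  have ev : (fun k => B.val (f.dapp x' v' k)) = f.dapp x v := (f.dapp_map B.val x' v').symm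
  have e4 : ((bil A' (f.app x') (f.dapp x' u') (f.dapp x' v') : B) : K) =
      bil A' (f.app x) (f.dapp x u) (f.dapp x v) := by
    rw [← e0, ← eu, ← ev]
    exact (bil_map A' B.val (f.app x') (f.dapp x' u') (f.dapp x' v')).symm
  have e5 : ((bil A x' u' v' : B) : K) = bil A x u v := (bil_map A B.val x' u' v').symm
  have p3 : aeval (fun i => ψ (x' i)) G ≠ 0 := by
    rw [aeval_spec]
    exact hψ _ (aeval x' G).2 (by rw [e1]; simp) (by rw [e1]; exact hG)
  have pH : aeval (fun i => ψ (x' i)) H ≠ 0 := by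
    rw [aeval_spec]
    exact hψ _ (aeval x' H).2 (by rw [eH]; simp) (by rw [eH]; exact hH)
  have p4 : f.app (fun i => ψ (x' i)) ≠ 0 := by
    rw [f.app_map ψ x']
    intro h0
    exact hψ _ (f.app x' j).2 (by rw [e3]; simp) (by rw [e3]; exact hj) (congrFun h0 j)
  have p5 : f.app (fun i => ψ (x' i)) ∈ Y'.Pts ℂ := ⟨p4, f.onCone p1.2⟩
  have p6 : aeval (f.app (fun i => ψ (x' i))) G' ≠ 0 := by
    rw [f.app_map ψ x', aeval_spec]
    exact hψ _ (aeval (f.app x') G').2 (by rw [e2]; simp) (by rw [e2]; exact hG')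
  have q1 := h.eq _ p1 p3 _ p2 _ p2'
  have q2 := h'.eq _ p5 p6 _ (f.dapp_mem p2) _ (f.dapp_mem p2')
  have q3 := hf _ p1 pH p4 _ p2 _ p2'
  rw [q3] at q2
  -- the identity at the complex point
  have q4 : aeval (fun i => ψ (x' i)) G * bil A' (f.app (fun i => ψ (x' i)))
      (f.dapp (fun i => ψ (x' i)) (fun i => ψ (u' i)))
      (f.dapp (fun i => ψ (x' i)) (fun i => ψ (v' i))) -
      c * aeval (f.app (fun i => ψ (x' i))) G' *
        bil A (fun i => ψ (x' i)) (fun i => ψ (u' i)) (fun i => ψ (v' i)) = 0 := by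
    rw [← q2, ← q1]
    ring
  let b : B := aeval x' G * bil A' (f.app x') (f.dapp x' u') (f.dapp x' v') -
      algebraMap ℂ B c * aeval (f.app x') G' * bil A x' u' v'
  have eb : (b : K) = aeval x G * bil A' (f.app x) (f.dapp x u) (f.dapp x v) -
      algebraMap ℂ K c * aeval (f.app x) G' * bil A x u v := by
    change (aeval x' G : B).1 * (bil A' (f.app x') (f.dapp x' u') (f.dapp x' v') : B).1 -
      (algebraMap ℂ B c : B).1 * (aeval (f.app x') G' : B).1 * (bil A x' u' v' : B).1 = _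
    rw [e1, e4, e2, e5]
    rfl
  refine hψ _ b.2 (by rw [eb]; simp) (by rw [eb]; exact hne) ?_
  change ψ b = 0
  rw [← q4, f.app_map ψ x', f.dapp_map ψ x' u', f.dapp_map ψ x' v', bil_map, bil_map, aeval_spec,
    aeval_spec]
  simp only [b, map_sub, map_mul, AlgHom.commutes]
  rfl

/-- The equations of the graph at all points. -/
theorem RatMap.graph_transfer {B : MvPolynomial (Fin (N + 1) ⊕ Fin (N' + 1)) ℂ}
    (hB : ∀ x ∈ Y.Pts ℂ, ∀ c : ℂ, aeval (Sum.elim x (c • f.app x)) B = 0)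
    {x : Fin (N + 1) → K} (hx : x ∈ Y.Pts K) (c : K) :
    aeval (Sum.elim x (c • f.app x)) B = 0 := by
  by_contra hne
  obtain ⟨i, hi⟩ := Function.ne_iff.1 hx.1
  rw [Pi.zero_apply] at hi
  obtain ⟨D, ψ, hD, hψ⟩ := exists_spec
    (Set.range x ∪ {c, aeval (Sum.elim x (c • f.app x)) B})
    ((Set.finite_range x).union (Set.toFinite _))
  let x' : Fin (N + 1) → D := fun i => ⟨x i, hD (Or.inl ⟨i, rfl⟩)⟩
  let c' : D := ⟨c, hD (Or.inr (Or.inl rfl))⟩
  have p1 : (fun i => ψ (x' i)) ∈ Y.Pts ℂ :=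
    ProjVar.spec_pt ψ (x := x') hx ⟨i, hψ _ _ (Or.inl ⟨i, rfl⟩) hi⟩
  have e0 : (fun k => D.val (f.app x' k)) = f.app x := (f.app_map D.val x').symm
  have e1 : ((aeval (Sum.elim x' (c' • f.app x')) B : D) : K) =
      aeval (Sum.elim x (c • f.app x)) B := by
    have h1 := MvPolynomial.comp_aeval_apply (Sum.elim x' (c' • f.app x')) D.val B
    have h2 : (fun i => D.val (Sum.elim x' (c' • f.app x') i)) = Sum.elim x (c • f.app x) := by
      funext i
      rcases i with i | i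
      · rfl
      · simp only [Sum.elim_inr, Pi.smul_apply, smul_eq_mul, map_mul]
        rw [← e0]
        rfl
    rw [h2] at h1
    exact h1
  refine hψ _ (aeval (Sum.elim x' (c' • f.app x')) B).2 (by rw [e1]; simp)
    (by rw [e1]; exact hne) ?_
  change ψ (aeval (Sum.elim x' (c' • f.app x')) B) = 0
  rw [← aeval_spec]
  have h3 := hB _ p1 (ψ c')
  rw [← h3]
  congr 2
  funext i
  rcases i with i | i
  · rfl
  · simp only [Sum.elim_inr, Pi.smul_apply, smul_eq_mul, map_mul]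
    rw [f.app_map ψ x']

end pull

end Pool.Agent.Helper397.HK
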